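import Pool.Agent.Work.MP_aebf03_lw.Interface

/-!
# Block AP (MP_aebf03_nt): the sum of 1/p over the primes 1 modulo q
-/

set_option autoImplicit false

namespace Pool.LW

open Finset

lemma AP_har (n : ℕ) : ∑ k ∈ range n, 1 / ((k : ℝ) + 1) ≤ 1 + Real.log n := by
  have h := harmonic_le_one_add_log n
  rw [harmonic] at h
  push_cast at h
  simpa [one_div] using h

/-- the primes up to `q ^ 2` -/
lemma AP_small (q x : ℕ) (hq : q.Prime) :
    ∑ p ∈ ((Ioc 0 x).filter (fun p => p.Prime ∧ q ∣ p - 1)).filter (fun p => p ≤ q ^ 2),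
      1 / (p : ℝ) ≤ (1 + Real.log q) / q := by
  have hq0 : 0 < q := hq.pos
  have hq' : (0 : ℝ) < q := by exact_mod_cast hq0
  have hsub : ((Ioc 0 x).filter (fun p => p.Prime ∧ q ∣ p - 1)).filter (fun p => p ≤ q ^ 2)
      ⊆ (range q).image (fun k => q * (k + 1) + 1) := by
    intro p hp
    rw [mem_filter, mem_filter] at hp
    obtain ⟨⟨-, hpp, k, hk⟩, hle⟩ := hp
    have h2 := hpp.two_le
    have hk0 : 0 < k := by
      rcases Nat.eq_zero_or_pos k with h | h
      · rw [h, mul_zero] at hk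
        omega
      · exact h
    rw [mem_image]
    refine ⟨k - 1, ?_, ?_⟩
    · rw [mem_range]
      have h3 : q * k < q * q := by
        have : q * q = q ^ 2 := by ring
        omega
      have h4 : k < q := lt_of_mul_lt_mul_left h3 (Nat.zero_le _)
      omega
    · show q * (k - 1 + 1) + 1 = p
      rw [Nat.sub_add_cancel hk0]
      omega
  have hinj : Set.InjOn (fun k => q * (k + 1) + 1) (range q : Set ℕ) := by
    intro a _ b _ hab
    simp only at hab
    have h3 : q * (a + 1) = q * (b + 1) := by omega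
    have h4 := Nat.eq_of_mul_eq_mul_left hq0 h3
    omega
  calc ∑ p ∈ ((Ioc 0 x).filter (fun p => p.Prime ∧ q ∣ p - 1)).filter (fun p => p ≤ q ^ 2),
      1 / (p : ℝ) ≤ ∑ p ∈ (range q).image (fun k => q * (k + 1) + 1), 1 / (p : ℝ) :=
        Finset.sum_le_sum_of_subset_of_nonneg hsub fun i _ _ => by positivity
    _ = ∑ k ∈ range q, 1 / ((q * (k + 1) + 1 : ℕ) : ℝ) := Finset.sum_image hinj
    _ ≤ ∑ k ∈ range q, (1 / (q : ℝ)) * (1 / ((k : ℝ) + 1)) := by
        refine Finset.sum_le_sum fun k _ => ?_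
        have e1 : (1 / (q : ℝ)) * (1 / ((k : ℝ) + 1)) = 1 / ((q : ℝ) * ((k : ℝ) + 1)) := by
          field_simp
        rw [e1]
        apply one_div_le_one_div_of_le
        · positivity
        · push_cast
          linarith
    _ = (1 / (q : ℝ)) * ∑ k ∈ range q, 1 / ((k : ℝ) + 1) := by rw [Finset.mul_sum]
    _ ≤ (1 / (q : ℝ)) * (1 + Real.log q) :=
        mul_le_mul_of_nonneg_left (AP_har q) (by positivity)
    _ = (1 + Real.log q) / q := by ring

lemma AP_fib (C : ℝ) (hC0 : 0 < C) (hC : ∀ d y a : ℕ, 0 < d → d ^ 2 ≤ y → 2 ≤ y →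
    (((Ioc 0 y).filter (fun r => r.Prime ∧ r ≡ a [MOD d])).card : ℝ) ≤
      C * (y / (d.totient * Real.log y))) (q x j : ℕ) (hq : q.Prime) :
    ∑ p ∈ (((Ioc 0 x).filter (fun p => p.Prime ∧ q ∣ p - 1)).filter
        (fun p => ¬ p ≤ q ^ 2)).filter (fun p => Nat.log 2 p = j), 1 / (p : ℝ)
      ≤ (4 * C / Real.log 2 / q) * (1 / ((j : ℝ) + 1)) := by
  have hq0 : 0 < q := hq.pos
  have hq2 := hq.two_le
  have hq' : (0 : ℝ) < q := by exact_mod_cast hq0
  have hl2 : 0 < Real.log 2 := Real.log_pos (by norm_num)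
  have hj : (0 : ℝ) ≤ j := Nat.cast_nonneg j
  obtain ⟨Fb, hFb⟩ : ∃ Fb : Finset ℕ, Fb = (((Ioc 0 x).filter
    (fun p => p.Prime ∧ q ∣ p - 1)).filter (fun p => ¬ p ≤ q ^ 2)).filter
      (fun p => Nat.log 2 p = j) := ⟨_, rfl⟩
  rw [← hFb]
  rcases Fb.eq_empty_or_nonempty with he | ⟨p₀, hp₀⟩
  · rw [he, Finset.sum_empty]
    positivity
  have hmem : ∀ p ∈ Fb, p.Prime ∧ q ∣ p - 1 ∧ q ^ 2 < p ∧ 2 ^ j ≤ p ∧ p < 2 ^ (j + 1) := by
    intro p hp
    rw [hFb, mem_filter, mem_filter, mem_filter] at hp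
    obtain ⟨⟨⟨-, hpp, hd⟩, hlt⟩, hlog⟩ := hp
    have hp0 : p ≠ 0 := hpp.ne_zero
    refine ⟨hpp, hd, by omega, ?_, ?_⟩
    · rw [← hlog]
      exact Nat.pow_log_le_self 2 hp0
    · rw [← hlog]
      exact Nat.lt_pow_succ_log_self (by norm_num) p
  have hy : q ^ 2 ≤ 2 ^ (j + 1) := by
    obtain ⟨-, -, h1, -, h2⟩ := hmem p₀ hp₀
    omega
  have hy2 : 2 ≤ 2 ^ (j + 1) := by
    have := Nat.one_le_two_pow (n := j)
    rw [pow_succ]
    omega
  have hcard : (Fb.card : ℝ) ≤ C * (((2 ^ (j + 1) : ℕ) : ℝ) /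
      (q.totient * Real.log ((2 ^ (j + 1) : ℕ) : ℝ))) := by
    refine le_trans ?_ (hC q (2 ^ (j + 1)) 1 hq0 hy hy2)
    have : Fb ⊆ (Ioc 0 (2 ^ (j + 1))).filter (fun r => r.Prime ∧ r ≡ 1 [MOD q]) := by
      intro p hp
      obtain ⟨h1, h2, h3, h4, h5⟩ := hmem p hp
      rw [mem_filter, mem_Ioc]
      refine ⟨⟨h1.pos, h5.le⟩, h1, ?_⟩
      exact ((Nat.modEq_iff_dvd' h1.one_lt.le).2 h2).symm
    exact_mod_cast Finset.card_le_card this
  have htot : (q.totient : ℝ) = q - 1 := by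
    rw [Nat.totient_prime hq, Nat.cast_sub (by omega), Nat.cast_one]
  have hq1 : (q : ℝ) / 2 ≤ q - 1 := by
    have : (2 : ℝ) ≤ q := by exact_mod_cast hq2
    linarith
  have hlog : Real.log ((2 ^ (j + 1) : ℕ) : ℝ) = ((j : ℝ) + 1) * Real.log 2 := by
    push_cast
    rw [Real.log_pow]
    push_cast
    ring
  have h2j : (0 : ℝ) < 2 ^ j := by positivity
  calc ∑ p ∈ Fb, 1 / (p : ℝ) ≤ ∑ p ∈ Fb, 1 / (2 : ℝ) ^ j := by
        refine Finset.sum_le_sum fun p hp => ?_
        obtain ⟨h1, h2, h3, h4, h5⟩ := hmem p hp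
        apply one_div_le_one_div_of_le h2j
        exact_mod_cast h4
    _ = Fb.card * (1 / (2 : ℝ) ^ j) := by rw [Finset.sum_const, nsmul_eq_mul]
    _ ≤ (C * (((2 ^ (j + 1) : ℕ) : ℝ) / (q.totient * Real.log ((2 ^ (j + 1) : ℕ) : ℝ)))) *
          (1 / (2 : ℝ) ^ j) := mul_le_mul_of_nonneg_right hcard (by positivity)
    _ = 2 * C / Real.log 2 * (1 / ((j : ℝ) + 1)) * (1 / ((q : ℝ) - 1)) := by
        rw [hlog, htot]
        push_cast
        have e1 : (q : ℝ) - 1 ≠ 0 := by
          have : (0 : ℝ) < q - 1 := by linarith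
          exact this.ne'
        have e2 : (j : ℝ) + 1 ≠ 0 := by positivity
        rw [pow_succ]
        field_simp
    _ ≤ 2 * C / Real.log 2 * (1 / ((j : ℝ) + 1)) * (1 / ((q : ℝ) / 2)) := by
        apply mul_le_mul_of_nonneg_left _ (by positivity)
        exact one_div_le_one_div_of_le (by positivity) hq1
    _ = (4 * C / Real.log 2 / q) * (1 / ((j : ℝ) + 1)) := by
        field_simp
        ring

theorem p_AP (hBT : S_BT) : S_AP := by
  obtain ⟨C, hC0, hC⟩ := hBT
  have hl2 : 0 < Real.log 2 := Real.log_pos (by norm_num)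
  obtain ⟨K, hK⟩ : ∃ K : ℝ, K = 4 * C / Real.log 2 := ⟨_, rfl⟩
  have hK0 : 0 < K := by
    rw [hK]
    positivity
  refine ⟨1 + 2 * K, by positivity, ?_⟩
  intro q x hq hx
  have hq0 : 0 < q := hq.pos
  have hq' : (0 : ℝ) < q := by exact_mod_cast hq0
  have hq1 : (1 : ℝ) ≤ q := by exact_mod_cast hq0
  have hx' : (3 : ℝ) ≤ x := by exact_mod_cast hx
  have hlx : 1 ≤ Real.log x := by
    rw [Real.le_log_iff_exp_le (by linarith)]
    have := Real.exp_one_lt_d9
    linarith
  have hllx : 0 ≤ Real.log (Real.log x) := Real.log_nonneg hlx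
  have hlq : 0 ≤ Real.log q := Real.log_nonneg hq1
  rw [← Finset.sum_filter_add_sum_filter_not _ (fun p => p ≤ q ^ 2)]
  have h1 := AP_small q x hq
  have h2 : ∑ p ∈ ((Ioc 0 x).filter (fun p => p.Prime ∧ q ∣ p - 1)).filter
      (fun p => ¬ p ≤ q ^ 2), 1 / (p : ℝ) ≤ (K / q) * (2 + Real.log (Real.log x)) := by
    rw [← Finset.sum_fiberwise_of_maps_to (g := fun p => Nat.log 2 p)
      (t := range (Nat.log 2 x + 1)) (by
        intro p hp
        rw [mem_filter, mem_filter, mem_Ioc] at hp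
        rw [mem_range]
        have := Nat.log_mono_right (b := 2) hp.1.1.2
        omega)]
    calc ∑ j ∈ range (Nat.log 2 x + 1), ∑ p ∈ (((Ioc 0 x).filter
          (fun p => p.Prime ∧ q ∣ p - 1)).filter (fun p => ¬ p ≤ q ^ 2)).filter
          (fun p => Nat.log 2 p = j), 1 / (p : ℝ)
        ≤ ∑ j ∈ range (Nat.log 2 x + 1), (4 * C / Real.log 2 / q) * (1 / ((j : ℝ) + 1)) :=
          Finset.sum_le_sum fun j _ => AP_fib C hC0 hC q x j hq
      _ = (K / q) * ∑ j ∈ range (Nat.log 2 x + 1), 1 / ((j : ℝ) + 1) := by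
          rw [Finset.mul_sum, hK]
      _ ≤ (K / q) * (1 + Real.log ((Nat.log 2 x + 1 : ℕ) : ℝ)) :=
          mul_le_mul_of_nonneg_left (AP_har _) (by positivity)
      _ ≤ (K / q) * (2 + Real.log (Real.log x)) := by
          apply mul_le_mul_of_nonneg_left _ (by positivity)
          have hJ : (Nat.log 2 x : ℝ) * Real.log 2 ≤ Real.log x := by
            have h3 : (2 : ℝ) ^ (Nat.log 2 x) ≤ x := by
              exact_mod_cast Nat.pow_log_le_self 2 (by omega : x ≠ 0)
            have h4 := Real.log_le_log (by positivity) h3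
            rwa [Real.log_pow] at h4
          have hln2 := Real.log_two_gt_d9
          have he := Real.exp_one_gt_d9
          have hJ2 : (Nat.log 2 x : ℝ) + 1 ≤ Real.exp 1 * Real.log x := by
            have hJ0 : (0 : ℝ) ≤ (Nat.log 2 x : ℝ) := Nat.cast_nonneg _
            have h5 : (Nat.log 2 x : ℝ) * 0.6931471803 ≤ Real.log x :=
              le_trans (mul_le_mul_of_nonneg_left hln2.le hJ0) hJ
            have h6 : (2.7182818283 : ℝ) * Real.log x ≤ Real.exp 1 * Real.log x :=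
              mul_le_mul_of_nonneg_right he.le (by linarith)
            nlinarith
          have h7 : Real.log ((Nat.log 2 x + 1 : ℕ) : ℝ) ≤ 1 + Real.log (Real.log x) := by
            push_cast
            have h8 := Real.log_le_log (by positivity) hJ2
            rw [Real.log_mul (Real.exp_ne_zero _) (by linarith), Real.log_exp] at h8
            exact h8
          linarith
  calc _ ≤ (1 + Real.log q) / q + (K / q) * (2 + Real.log (Real.log x)) := add_le_add h1 h2
    _ = ((1 + Real.log q) + K * (2 + Real.log (Real.log x))) / q := by ring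
    _ ≤ (1 + 2 * K) * (1 + Real.log (Real.log x) + Real.log q) / q := by
        apply div_le_div_of_nonneg_right _ hq'.le
        nlinarith [mul_nonneg hK0.le hllx, mul_nonneg hK0.le hlq]

end Pool.LW
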