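import Pool.Agent.Work.MP_aebf03_lw.Interface

/-!
# Block DS: the mean value of the divisor sum
-/

set_option autoImplicit false

namespace Pool.LW

open Finset

theorem DS_step (L : ℝ) (hL : 1 ≤ L) (q : ℕ) (hq : 1 ≤ q) :
    (L + Real.log ((q + 1 : ℕ) : ℝ)) / ((q + 1 : ℕ) : ℝ) ^ 2 ≤
      (L + 2 + Real.log q) / q - (L + 2 + Real.log ((q + 1 : ℕ) : ℝ)) / ((q + 1 : ℕ) : ℝ) := by
  have hq' : (1 : ℝ) ≤ q := by exact_mod_cast hq
  have h1 : Real.log ((q + 1 : ℕ) : ℝ) - Real.log q ≤ 1 / q := by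
    rw [← Real.log_div (by positivity) (by positivity)]
    refine le_trans (Real.log_le_sub_one_of_pos (by positivity)) ?_
    push_cast
    have : ((q : ℝ) + 1) / q - 1 = 1 / q := by field_simp; ring
    rw [this]
  have h0 : 0 ≤ Real.log ((q + 1 : ℕ) : ℝ) := Real.log_natCast_nonneg _
  set y := Real.log ((q + 1 : ℕ) : ℝ) with hy
  set z := Real.log (q : ℝ) with hz
  push_cast
  have hzy : y - 1 / q ≤ z := by linarith
  have h2 : (L + 2 + (y - 1 / q)) / q ≤ (L + 2 + z) / q := by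
    apply div_le_div_of_nonneg_right _ (by positivity)
    linarith
  have h3 : (L + 2 + (y - 1 / q)) / q - (L + 2 + y) / ((q : ℝ) + 1) -
      (L + y) / ((q : ℝ) + 1) ^ 2 =
      ((L + y) * q + (q - 1) * (q + 1)) / (q ^ 2 * (q + 1) ^ 2) := by
    field_simp
    ring
  have h4 : 0 ≤ ((L + y) * q + (q - 1) * (q + 1)) / ((q : ℝ) ^ 2 * (q + 1) ^ 2) := by
    apply div_nonneg _ (by positivity)
    have : 0 ≤ (L + y) * q := mul_nonneg (by linarith) (by linarith)
    have : 0 ≤ ((q : ℝ) - 1) * (q + 1) := mul_nonneg (by linarith) (by linarith)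
    linarith
  linarith

theorem DS_tail (L : ℝ) (hL : 1 ≤ L) (u : ℕ) (hu : 1 ≤ u) (v : ℕ) :
    ∑ q ∈ Ioc u v, (L + Real.log (q : ℝ)) / (q : ℝ) ^ 2 ≤ (L + 2 + Real.log u) / u := by
  rcases le_or_gt u v with h | h
  · have key : ∑ q ∈ Ioc u v, (L + Real.log (q : ℝ)) / (q : ℝ) ^ 2 ≤
        (L + 2 + Real.log u) / u - (L + 2 + Real.log v) / v := by
      induction v, h using Nat.le_induction with
      | base => simp
      | succ v hv ih =>
        rw [Finset.sum_Ioc_succ_top (by omega)]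
        have := DS_step L hL v (by omega)
        linarith
    have h0 : 0 ≤ (L + 2 + Real.log v) / v := by
      apply div_nonneg _ (Nat.cast_nonneg v)
      have := Real.log_natCast_nonneg v
      linarith
    linarith
  · rw [Ioc_eq_empty (by omega), sum_empty]
    apply div_nonneg _ (Nat.cast_nonneg u)
    have := Real.log_natCast_nonneg u
    linarith

theorem DS_biUnion (P : Finset ℕ) (s : ℕ → Finset ℕ) (f : ℕ → ℝ) (hf : ∀ m, 0 ≤ f m) :
    ∑ m ∈ P.biUnion s, f m ≤ ∑ p ∈ P, ∑ m ∈ s p, f m := by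
  classical
  induction P using Finset.induction_on with
  | empty => simp
  | insert a P ha ih =>
    rw [biUnion_insert, sum_insert ha]
    have h1 : ∑ m ∈ s a ∪ P.biUnion s, f m ≤ ∑ m ∈ s a, f m + ∑ m ∈ P.biUnion s, f m := by
      rw [← sum_union_inter]
      have : 0 ≤ ∑ m ∈ s a ∩ P.biUnion s, f m := sum_nonneg fun m _ => hf m
      linarith
    linarith

theorem DS_inner (hPHD : S_PHD) (hHAR : S_HAR) (c u q x : ℕ) (hc : 1 ≤ c) (hcu : c ≤ u)
    (huq : u < q) (hq : q.Prime) (hx : 3 ≤ x) :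
    ∑ m ∈ (Ioc 0 x).filter (fun m => q ∣ c * m.totient), 1 / (m : ℝ) ≤
      (1 + Real.log x) / (q : ℝ) ^ 2 + (1 + Real.log x) *
        ∑ p ∈ (Ioc 0 x).filter (fun p => p.Prime ∧ q ∣ p - 1), 1 / (p : ℝ) := by
  set P := (Ioc 0 x).filter (fun p => p.Prime ∧ q ∣ p - 1) with hP
  have hsub : (Ioc 0 x).filter (fun m => q ∣ c * m.totient) ⊆
      (Ioc 0 x).filter (fun m => q ^ 2 ∣ m) ∪
        P.biUnion (fun p => (Ioc 0 x).filter (fun m => p ∣ m)) := by
    intro m hm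
    rw [mem_filter, mem_Ioc] at hm
    obtain ⟨⟨hm0, hmx⟩, hqm⟩ := hm
    have hqc : ¬ q ∣ c := fun h => by
      have := Nat.le_of_dvd (by omega) h
      omega
    have hqt : q ∣ m.totient := (hq.dvd_mul.mp hqm).resolve_left hqc
    rw [mem_union]
    rcases hPHD q m hq hm0 hqt with h | ⟨p, hp, hpm, hqp⟩
    · left
      rw [mem_filter, mem_Ioc]
      exact ⟨⟨hm0, hmx⟩, h⟩
    · right
      rw [mem_biUnion]
      refine ⟨p, ?_, ?_⟩
      · rw [hP, mem_filter, mem_Ioc]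
        exact ⟨⟨hp.pos, le_trans (Nat.le_of_dvd hm0 hpm) hmx⟩, hp, hqp⟩
      · rw [mem_filter, mem_Ioc]
        exact ⟨⟨hm0, hmx⟩, hpm⟩
  have hnn : ∀ m : ℕ, (0 : ℝ) ≤ 1 / (m : ℝ) := fun m => by positivity
  refine le_trans (sum_le_sum_of_subset_of_nonneg hsub fun m _ _ => hnn m) ?_
  have h1 : ∑ m ∈ (Ioc 0 x).filter (fun m => q ^ 2 ∣ m) ∪
        P.biUnion (fun p => (Ioc 0 x).filter (fun m => p ∣ m)), 1 / (m : ℝ) ≤
      ∑ m ∈ (Ioc 0 x).filter (fun m => q ^ 2 ∣ m), 1 / (m : ℝ) +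
        ∑ m ∈ P.biUnion (fun p => (Ioc 0 x).filter (fun m => p ∣ m)), 1 / (m : ℝ) := by
    rw [← sum_union_inter]
    have : 0 ≤ ∑ m ∈ (Ioc 0 x).filter (fun m => q ^ 2 ∣ m) ∩
        P.biUnion (fun p => (Ioc 0 x).filter (fun m => p ∣ m)), 1 / (m : ℝ) :=
      sum_nonneg fun m _ => hnn m
    linarith
  refine le_trans h1 (add_le_add ?_ ?_)
  · have := hHAR x (q ^ 2) (by omega) (Nat.pos_of_ne_zero (pow_ne_zero 2 hq.ne_zero))
    push_cast at this
    exact this
  · have h2 : ∑ m ∈ P.biUnion (fun p => (Ioc 0 x).filter (fun m => p ∣ m)), 1 / (m : ℝ) ≤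
        ∑ p ∈ P, ∑ m ∈ (Ioc 0 x).filter (fun m => p ∣ m), 1 / (m : ℝ) :=
      DS_biUnion _ _ _ hnn
    refine le_trans h2 ?_
    rw [mul_sum]
    refine sum_le_sum fun p hp => ?_
    have hp1 : 1 ≤ p := by
      rw [hP, mem_filter, mem_Ioc] at hp
      exact hp.1.1
    have := hHAR x p (by omega) hp1
    rw [mul_one_div]
    exact this

theorem p_DS (hAP : S_AP) (hPHD : S_PHD) (hHAR : S_HAR) : S_DS := by
  obtain ⟨C, hC, hap⟩ := hAP
  refine ⟨3 * (1 + C), by positivity, ?_⟩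
  intro c u v x hc hcu hu hx
  have hlx : 1 ≤ Real.log x := by
    have h3 : Real.exp 1 ≤ (x : ℝ) := by
      have h1 : Real.exp 1 < 2.7182818286 := Real.exp_one_lt_d9
      have h2 : (3 : ℝ) ≤ x := by exact_mod_cast hx
      linarith
    have := Real.log_le_log (Real.exp_pos 1) h3
    rwa [Real.log_exp] at this
  have hll : 0 ≤ Real.log (Real.log x) := Real.log_nonneg hlx
  set L : ℝ := 1 + Real.log (Real.log x) with hLdef
  have hL : 1 ≤ L := by linarith
  have hu0 : (0 : ℝ) < u := by exact_mod_cast (by omega : 0 < u)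
  -- interchange
  have h1 : ∑ m ∈ Ioc 0 x, DD c u v m / m =
      ∑ q ∈ Q4 u v, 1 / (q : ℝ) *
        ∑ m ∈ (Ioc 0 x).filter (fun m => q ∣ c * m.totient), 1 / (m : ℝ) := by
    have ha : ∀ m ∈ Ioc 0 x, DD c u v m / m =
        ∑ q ∈ Q4 u v, if q ∣ c * m.totient then 1 / (q : ℝ) * (1 / (m : ℝ)) else 0 := by
      intro m _
      unfold DD
      rw [sum_filter, sum_div]
      refine sum_congr rfl fun q _ => ?_
      split_ifs with h
      · rw [mul_one_div]
      · rw [zero_div]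
    rw [sum_congr rfl ha, sum_comm]
    refine sum_congr rfl fun q _ => ?_
    rw [mul_sum, sum_filter]
  rw [h1]
  have h2 : ∀ q ∈ Q4 u v, 1 / (q : ℝ) *
        ∑ m ∈ (Ioc 0 x).filter (fun m => q ∣ c * m.totient), 1 / (m : ℝ) ≤
      (1 + Real.log x) * (1 + C) * ((L + Real.log (q : ℝ)) / (q : ℝ) ^ 2) := by
    intro q hq
    unfold Q4 at hq
    rw [mem_filter, mem_Ioc] at hq
    obtain ⟨⟨huq, hqv⟩, hqp, _⟩ := hq
    have hq1 : (1 : ℝ) ≤ q := by exact_mod_cast hqp.one_lt.le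
    have hlq : 0 ≤ Real.log (q : ℝ) := Real.log_natCast_nonneg q
    have h3 := DS_inner hPHD hHAR c u q x hc hcu huq hqp hx
    have h4 := hap q x hqp hx
    have h5 : (1 + Real.log x) * ∑ p ∈ (Ioc 0 x).filter (fun p => p.Prime ∧ q ∣ p - 1),
        1 / (p : ℝ) ≤ (1 + Real.log x) * (C * (L + Real.log q) / q) :=
      mul_le_mul_of_nonneg_left h4 (by linarith)
    have h6 : 1 / (q : ℝ) *
        ∑ m ∈ (Ioc 0 x).filter (fun m => q ∣ c * m.totient), 1 / (m : ℝ) ≤
        1 / (q : ℝ) * ((1 + Real.log x) / (q : ℝ) ^ 2 +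
          (1 + Real.log x) * (C * (L + Real.log q) / q)) :=
      mul_le_mul_of_nonneg_left (by linarith) (by positivity)
    refine le_trans h6 ?_
    have h7 : 1 / (q : ℝ) * ((1 + Real.log x) / (q : ℝ) ^ 2 +
          (1 + Real.log x) * (C * (L + Real.log q) / q)) =
        (1 + Real.log x) * ((1 / q + C * (L + Real.log q)) / (q : ℝ) ^ 2) := by
      field_simp
    have h8 : (1 + Real.log x) * (1 + C) * ((L + Real.log (q : ℝ)) / (q : ℝ) ^ 2) =
        (1 + Real.log x) * (((1 + C) * (L + Real.log (q : ℝ))) / (q : ℝ) ^ 2) := by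
      ring
    rw [h7, h8]
    refine mul_le_mul_of_nonneg_left ?_ (by linarith)
    apply div_le_div_of_nonneg_right _ (by positivity)
    have h9 : 1 / (q : ℝ) ≤ 1 := by
      rw [div_le_one (by linarith)]; exact hq1
    nlinarith
  refine le_trans (sum_le_sum h2) ?_
  rw [← mul_sum]
  have h10 : ∑ q ∈ Q4 u v, (L + Real.log (q : ℝ)) / (q : ℝ) ^ 2 ≤
      ∑ q ∈ Ioc u v, (L + Real.log (q : ℝ)) / (q : ℝ) ^ 2 := by
    refine sum_le_sum_of_subset_of_nonneg (filter_subset _ _) fun q _ _ => ?_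
    have hlq : 0 ≤ Real.log (q : ℝ) := Real.log_natCast_nonneg q
    apply div_nonneg (by linarith) (by positivity)
  have h11 := DS_tail L hL u (by omega) v
  have hlu : 0 ≤ Real.log (u : ℝ) := Real.log_natCast_nonneg u
  have h12 : (L + 2 + Real.log u) / u ≤ 3 * ((L + Real.log u) / u) := by
    rw [← mul_div_assoc]
    apply div_le_div_of_nonneg_right _ hu0.le
    linarith
  have h13 : (1 + Real.log x) * (1 + C) * ∑ q ∈ Q4 u v, (L + Real.log (q : ℝ)) / (q : ℝ) ^ 2 ≤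
      (1 + Real.log x) * (1 + C) * (3 * ((L + Real.log u) / u)) :=
    mul_le_mul_of_nonneg_left (by linarith) (by positivity)
  refine le_trans h13 (le_of_eq ?_)
  rw [hLdef]
  ring

end Pool.LW
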