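import Pool.Agent.Work.MP_aebf03_lw.Interface

set_option autoImplicit false
set_option linter.unusedVariables false

namespace Pool.LW

open Finset

theorem p_HAR : S_HAR := by
  intro x d hx hd
  have hset : (Ioc 0 x).filter (fun m => d ∣ m) = (Icc 1 (x / d)).image (fun k => d * k) := by
    ext m
    simp only [mem_filter, mem_Ioc, mem_image, mem_Icc]
    constructor
    · rintro ⟨⟨h0, h1⟩, k, rfl⟩
      refine ⟨k, ⟨?_, ?_⟩, rfl⟩
      · rcases Nat.eq_zero_or_pos k with h | h
        · subst h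
          simp at h0
        · exact h
      · exact (Nat.le_div_iff_mul_le hd).mpr (by rw [mul_comm]; exact h1)
    · rintro ⟨k, ⟨h0, h1⟩, rfl⟩
      refine ⟨⟨Nat.mul_pos hd h0, ?_⟩, dvd_mul_right _ _⟩
      have h2 := (Nat.le_div_iff_mul_le hd).mp h1
      rw [mul_comm]
      exact h2
  rw [hset, sum_image (fun a _ b _ h => Nat.eq_of_mul_eq_mul_left hd h)]
  have hsum : ∑ k ∈ Icc 1 (x / d), 1 / ((d * k : ℕ) : ℝ) = (harmonic (x / d) : ℝ) / d := by
    rw [harmonic_eq_sum_Icc, Rat.cast_sum, Finset.sum_div]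
    apply sum_congr rfl
    intro k _
    rw [Rat.cast_inv, Rat.cast_natCast, Nat.cast_mul, one_div, mul_inv, div_eq_mul_inv, mul_comm]
  rw [hsum]
  have h1 : (harmonic (x / d) : ℝ) ≤ 1 + Real.log ((x / d : ℕ) : ℝ) := harmonic_le_one_add_log _
  have h2 : Real.log ((x / d : ℕ) : ℝ) ≤ Real.log x := by
    rcases Nat.eq_zero_or_pos (x / d) with h | h
    · rw [h, Nat.cast_zero, Real.log_zero]
      exact Real.log_nonneg (by exact_mod_cast hx)
    · exact Real.log_le_log (by exact_mod_cast h) (by exact_mod_cast Nat.div_le_self x d)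
  exact div_le_div_of_nonneg_right (by linarith) (Nat.cast_nonneg d)

end Pool.LW
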