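import Mathlib

/-!
# MP_aebf03_nt, theorem LW (the witnesses of almost all n are far from both ends): interface

Blocks: file `B_<ID>.lean`, import only this file (or library files named in the docstring),
namespace `Pool.LW`, theorem `p_<ID> (h.. : S_..) .. : S_<ID>`, auxiliary names prefixed `<ID>_`.
-/

set_option autoImplicit false

namespace Pool.LW

open Finset

/-- The primes 1 modulo 4 in the interval (u, v]. -/
noncomputable def Q4 (u v : ℕ) : Finset ℕ := (Ioc u v).filter (fun q => q.Prime ∧ q % 4 = 1)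

/-- The positive m up to x for which (c φ(m))^2 + 1 is prime. -/
noncomputable def Bad (c x : ℕ) : Finset ℕ :=
  (Ioc 0 x).filter (fun m => ((c * m.totient) ^ 2 + 1).Prime)

open Classical in
/-- The z-smooth numbers up to x. -/
noncomputable def Smo (x z : ℕ) : Finset ℕ :=
  (Ioc 0 x).filter (fun m => ∀ p : ℕ, p.Prime → p ∣ m → p ≤ z)

open Classical in
/-- The numbers up to x divisible by the square of a prime exceeding z. -/
noncomputable def Sqr (x z : ℕ) : Finset ℕ :=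
  (Ioc 0 x).filter (fun m => ∃ r : ℕ, r.Prime ∧ z < r ∧ r ^ 2 ∣ m)

/-- The primes of Q4 u v not dividing c φ(m). -/
noncomputable def SS (c u v m : ℕ) : Finset ℕ := (Q4 u v).filter (fun q => ¬ q ∣ c * m.totient)

/-- The sum of 1/q over the primes q of Q4 u v dividing c φ(m). -/
noncomputable def DD (c u v m : ℕ) : ℝ :=
  ∑ q ∈ (Q4 u v).filter (fun q => q ∣ c * m.totient), 1 / (q : ℝ)

/-- The primes r up to y which avoid the class b q modulo q for all q in S. -/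
noncomputable def RR (S : Finset ℕ) (b : ℕ → ℕ) (y : ℕ) : Finset ℕ :=
  (Ioc 0 y).filter (fun r => r.Prime ∧ ∀ q ∈ S, r % q ≠ b q)

/-- BT (15). This is Pool.LGC Stmt_BTQ (theorem in Pool/Agent/Work/MP_b0c12c_chain/B_BTQ.lean) with x = 0. -/
def S_BT : Prop := ∃ C : ℝ, 0 < C ∧ ∀ d y a : ℕ, 0 < d → d ^ 2 ≤ y → 2 ≤ y →
  (((Ioc 0 y).filter (fun r => r.Prime ∧ r ≡ a [MOD d])).card : ℝ) ≤
    C * (y / (d.totient * Real.log y))

/-- CRT (60). Induction on S (insert q S: by the Chinese remainder theorem the map a to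
(a mod q, a mod the product over S) is injective on range of the product; the first coordinate is
neither 0 nor b q, so it has at most q - 2 values). -/
def S_CRT : Prop := ∀ S : Finset ℕ, (∀ q ∈ S, q.Prime ∧ 5 ≤ q) → ∀ b : ℕ → ℕ,
  (∀ q ∈ S, 0 < b q ∧ b q < q) →
  ((range (∏ q ∈ S, q)).filter
    (fun a => a.Coprime (∏ q ∈ S, q) ∧ ∀ q ∈ S, a % q ≠ b q)).card ≤ ∏ q ∈ S, (q - 2)

/-- CLS (40). i with i^2 = -1 in ZMod q (ZMod.exists_sq_eq_neg_one_iff); the residues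
1 + i / A and 1 - i / A have sum 2, so one of them is not zero; b its value. -/
def S_CLS : Prop := ∀ q : ℕ, q.Prime → q % 4 = 1 → ∀ A : ℕ, ¬ q ∣ A →
  ∃ b : ℕ, 0 < b ∧ b < q ∧ ∀ r : ℕ, 1 ≤ r → r % q = b → q ∣ (A * (r - 1)) ^ 2 + 1

/-- NR (80, uses BT CRT). Q = ∏ q. The r in RR S b y either divide Q (then r is in S) or lie in one
of the residue classes a mod Q counted in CRT; each class has at most C y / (φ(Q) log y) primes
(BT with d = Q), φ(Q) = ∏ (q - 1), and (q - 2) / (q - 1) ≤ exp (- 1 / q). -/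
def S_NR : Prop := ∃ C : ℝ, 0 < C ∧ ∀ (S : Finset ℕ) (b : ℕ → ℕ) (y : ℕ),
  (∀ q ∈ S, q.Prime ∧ 5 ≤ q) → (∀ q ∈ S, 0 < b q ∧ b q < q) → (∏ q ∈ S, q) ^ 2 ≤ y → 2 ≤ y →
  ((RR S b y).card : ℝ) ≤ C * (y / Real.log y) * Real.exp (-∑ q ∈ S, 1 / (q : ℝ)) + S.card

/-- AP (90, uses BT). p = k q + 1. The p ≤ 2 q^2 contribute at most the sum over k ≤ 2 q of
1 / (k q). For p > q^2 dyadic intervals (2^j, 2^(j+1)], 2^(j+1) ≥ q^2: BT with d = q, y = 2^(j+1)
gives at most C 2^(j+1) / ((q - 1) (j + 1) log 2) primes, and the sum of 1 / (j + 1) over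
j ≤ log x / log 2 is at most a constant times 1 + log log x. -/
def S_AP : Prop := ∃ C : ℝ, 0 < C ∧ ∀ q x : ℕ, q.Prime → 3 ≤ x →
  ∑ p ∈ (Ioc 0 x).filter (fun p => p.Prime ∧ q ∣ p - 1), 1 / (p : ℝ) ≤
    C * (1 + Real.log (Real.log x) + Real.log q) / q

/-- PHD (25). φ(m) is the product of p^(k-1) (p - 1) over p^k exactly dividing m. -/
def S_PHD : Prop := ∀ q m : ℕ, q.Prime → 0 < m → q ∣ m.totient →
  q ^ 2 ∣ m ∨ ∃ p : ℕ, p.Prime ∧ p ∣ m ∧ q ∣ p - 1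

/-- HAR (20). m = d k, k ≤ x / d; harmonic sum (harmonic_le_one_add_log). -/
def S_HAR : Prop := ∀ x d : ℕ, 1 ≤ x → 1 ≤ d →
  ∑ m ∈ (Ioc 0 x).filter (fun m => d ∣ m), 1 / (m : ℝ) ≤ (1 + Real.log x) / d

/-- DS (80, uses AP PHD HAR). Interchange: the sum over q in Q4 u v of 1/q times the sum of 1/m over m ≤ x with
q ∣ φ(m) (q does not divide c as q > u ≥ c); by PHD and HAR the inner sum is at most
(1 + log x) (1/q^2 + the sum of AP); finally the sum over integers q > u of (A + log q) / q^2 is at most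
C (A + 1 + log u) / u. -/
def S_DS : Prop := ∃ C : ℝ, 0 < C ∧ ∀ c u v x : ℕ, 1 ≤ c → c ≤ u → 2 ≤ u → 3 ≤ x →
  ∑ m ∈ Ioc 0 x, DD c u v m / m ≤
    C * (1 + Real.log x) * (1 + Real.log (Real.log x) + Real.log u) / u

/-- M4 (120). Mertens for primes 1 mod 4. Either the elementary proof for the character χ₄ (∑ χ(n) log n / n
= O(1), ∑ χ(n) / n has a nonzero sum, so ∑_{n ≤ x} χ(n) Λ(n) / n = O(1); partial summation) or
from Siegel-Walfisz (Pool/Agent/Work/BV/SWP.lean, r = 4) and partial summation; and mertens2 of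
Pool/Agent/Work/MP_b0c12c_nt_helper41/Mert.lean for all primes. -/
def S_M4 : Prop := ∃ C : ℝ, ∀ u v : ℕ, 3 ≤ u → u ≤ v →
  1 / 2 * Real.log (Real.log v / Real.log u) - C ≤ ∑ q ∈ Q4 u v, 1 / (q : ℝ)

/-- SMO (70). ∑ over z-smooth m ≤ x of log m ≤ ∑_{p ≤ z} ∑_k log p · x / p^k ≤ x (log z + C) (Mertens: Stmt_MER in
Pool/Agent/Work/MP_3a3367_nt_log/MER.lean, second line), and log m ≥ (log x) / 2 unless m ≤ sqrt x. -/
def S_SMO : Prop := ∃ C : ℝ, 0 < C ∧ ∀ x z : ℕ, 2 ≤ z → 2 ≤ x →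
  ((Smo x z).card : ℝ) ≤ C * (x * (Real.log z / Real.log x))

/-- SQR (30). ∑_{r > z} x / r^2 ≤ x / z. -/
def S_SQR : Prop := ∀ x z : ℕ, 1 ≤ z → ((Sqr x z).card : ℝ) ≤ x / z

/-- PHL (30). φ(m)^2 ≥ m / 2, multiplicativity: (p^(k-1) (p-1))^2 ≥ p^k, except for p^k = 2. -/
def S_PHL : Prop := ∀ m : ℕ, 0 < m → m ≤ 2 * m.totient ^ 2

/-- DEC (80, uses PHL). Let m be in Bad c x. If m is neither z-smooth nor divisible by the square of a
prime > z, some prime r > z divides m exactly once: m = r m', r ≤ x / m', m' ≤ x / z,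
φ(m) = (r - 1) φ(m'). If r avoids b m' q for all q in SS c u v m' it is counted in the sum (the map
m to (m', r) is injective). Otherwise q divides the prime (c φ(m))^2 + 1, which is then q ≤ v, and m ≤ 2 φ(m)^2 ≤ 2 v. -/
def S_DEC : Prop := ∀ c x z u v : ℕ, 1 ≤ c → 1 ≤ z → ∀ b : ℕ → ℕ → ℕ,
  (∀ m : ℕ, ∀ q ∈ SS c u v m, ∀ r : ℕ, 1 ≤ r → r % q = b m q →
    q ∣ (c * m.totient * (r - 1)) ^ 2 + 1) →
  (Bad c x).card ≤ (Smo x z).card + (Sqr x z).card + 2 * v +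
    ∑ m ∈ Ioc 0 (x / z), (RR (SS c u v m) (b m) (x / m)).card

/-- SUM (90, uses NR HAR). T = the sum of 1/q over Q4 u v, so the sum over SS c u v m is T - DD. NR with y = x / m ≥ z;
y / log y ≤ (x / m) / log z; exp (- (T - DD)) ≤ exp (1 - T) if DD ≤ 1, and ≤ 1 ≤ DD if DD > 1; #SS ≤ v;
∑ 1 / m ≤ 1 + log x (HAR with d = 1). -/
def S_SUM : Prop := ∃ C : ℝ, 0 < C ∧ ∀ c x z u v : ℕ, 2 ≤ z → z ≤ x → 5 ≤ u →
  (∏ q ∈ Q4 u v, q) ^ 2 ≤ z → ∀ b : ℕ → ℕ → ℕ,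
  (∀ m : ℕ, ∀ q ∈ SS c u v m, 0 < b m q ∧ b m q < q) →
  ∑ m ∈ Ioc 0 (x / z), ((RR (SS c u v m) (b m) (x / m)).card : ℝ) ≤
    C * (x / Real.log z) * (Real.exp (1 - ∑ q ∈ Q4 u v, 1 / (q : ℝ)) * (1 + Real.log x) +
      ∑ m ∈ Ioc 0 x, DD c u v m / m) + (x : ℝ) / z * v

/-- FIN (100, uses CLS DS M4 SMO SQR DEC SUM). b from CLS by choice. Given δ small (C δ ≤ ε / 5): z = floor (x ^ δ),
v = floor (δ log x / 8) (primorial v ≤ 4^v, so the square of the product is ≤ z for large x),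
u = max of c, 5 and floor ((log log x)^2). Then M4 gives T to infinity, DS / log x tends to 0. -/
def S_FIN : Prop := ∀ c : ℕ, 1 ≤ c → ∀ ε : ℝ, 0 < ε → ∃ X : ℕ, ∀ x : ℕ, X ≤ x →
  ((Bad c x).card : ℝ) ≤ ε * x

/-- PI (15, uses BT). BT with d = 1. -/
def S_PI : Prop := ∀ ε : ℝ, 0 < ε → ∃ X : ℕ, ∀ x : ℕ, X ≤ x →
  (((Ioc 0 x).filter Nat.Prime).card : ℝ) ≤ ε * x

open Classical in
/-- TRF (50, uses FIN PI), the theorem. n - p is in Bad (p + 1) x for one of the finitely many p ≤ K, or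
n - j is prime for one of the j ≤ K. -/
def S_TRF : Prop := ∀ K : ℕ, ∀ ε : ℝ, 0 < ε → ∃ X : ℕ, ∀ x : ℕ, X ≤ x →
  (((Ioc 0 x).filter (fun n => ∃ p : ℕ, p.Prime ∧ p < n ∧ (p ≤ K ∨ n ≤ p + K) ∧
    (((p + 1) * (n - p).totient) ^ 2 + 1).Prime)).card : ℝ) ≤ ε * x

end Pool.LW
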