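import Pool.Agent.Work.SF081200.M3
import Pool.Agent.Work.MP_aebf03_lw.Interface

/-!
# Mertens' theorems for the primes `1` modulo `4`

`∑_{p ≤ n, p ≡ 1 (4)} log p / p = (1/2) log n + O(1)` and the corresponding statement for `∑ 1/p`.
-/

set_option autoImplicit false

open Finset Nat ArithmeticFunction Filter Topology
open Pool.Agent.Work.MP_b0c12c_nt_helper41

namespace Pool.LW.M4

/-- the non-principal character modulo 4 -/
noncomputable def chi (n : ℕ) : ℝ := if n % 4 = 1 then 1 else if n % 4 = 3 then -1 else 0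

theorem chi_mul (a b : ℕ) : chi (a * b) = chi a * chi b := by
  unfold chi
  rw [Nat.mul_mod]
  have ha : a % 4 < 4 := Nat.mod_lt _ (by norm_num)
  have hb : b % 4 < 4 := Nat.mod_lt _ (by norm_num)
  interval_cases a % 4 <;> interval_cases b % 4 <;> norm_num

theorem abs_chi (n : ℕ) : |chi n| ≤ 1 := by
  unfold chi
  split_ifs <;> norm_num

/-- the partial sums -/
noncomputable def A (n : ℕ) : ℝ := if n % 4 = 1 ∨ n % 4 = 2 then 1 else 0

theorem A_succ (n : ℕ) : A (n + 1) = A n + chi (n + 1) := by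
  unfold A chi
  rw [Nat.add_mod]
  have ha : n % 4 < 4 := Nat.mod_lt _ (by norm_num)
  interval_cases n % 4 <;> norm_num

theorem abs_A_sub (m n : ℕ) : |A n - A m| ≤ 1 := by
  unfold A
  split_ifs <;> norm_num

/-- Abel's inequality -/
theorem abel (f : ℕ → ℝ) (m : ℕ) (hf : ∀ i, m < i → f (i + 1) ≤ f i) (hf0 : ∀ i, m < i → 0 ≤ f i)
    (n : ℕ) (hn : m ≤ n) : |∑ i ∈ Ioc m n, chi i * f i| ≤ f (m + 1) := by
  rcases hn.eq_or_lt with rfl | hlt
  · simpa using hf0 (m + 1) (by omega)
  have key : |∑ i ∈ Ioc m n, chi i * f i - (A n - A m) * f n| ≤ f (m + 1) - f n := by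
    have hlt' : m + 1 ≤ n := hlt
    clear hn hlt
    induction n, hlt' using Nat.le_induction with
    | base =>
      rw [Nat.Ioc_succ_singleton, sum_singleton, A_succ]
      simp
    | succ n hn ih =>
      rw [← Finset.insert_Ioc_right_eq_Ioc_add_one (by omega : m ≤ n), sum_insert (by simp)]
      have h1 : chi (n + 1) * f (n + 1) + ∑ i ∈ Ioc m n, chi i * f i - (A (n + 1) - A m) * f (n + 1) =
          (∑ i ∈ Ioc m n, chi i * f i - (A n - A m) * f n) + (A n - A m) * (f n - f (n + 1)) := by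
        rw [A_succ]; ring
      rw [h1]
      have h2 : |(A n - A m) * (f n - f (n + 1))| ≤ f n - f (n + 1) := by
        rw [abs_mul, abs_of_nonneg (sub_nonneg.2 (hf n (by omega)))]
        exact mul_le_of_le_one_left (sub_nonneg.2 (hf n (by omega))) (abs_A_sub m n)
      calc _ ≤ _ := abs_add_le _ _
        _ ≤ (f (m + 1) - f n) + (f n - f (n + 1)) := add_le_add ih h2
        _ = _ := by ring
  have h2 : |(A n - A m) * f n| ≤ f n := by
    rw [abs_mul, abs_of_nonneg (hf0 n hlt)]
    exact mul_le_of_le_one_left (hf0 n hlt) (abs_A_sub m n)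
  calc |∑ i ∈ Ioc m n, chi i * f i| =
      |(∑ i ∈ Ioc m n, chi i * f i - (A n - A m) * f n) + (A n - A m) * f n| := by congr 1; ring
    _ ≤ _ := abs_add_le _ _
    _ ≤ (f (m + 1) - f n) + f n := add_le_add key h2
    _ = _ := by ring

/-- the partial sums of `L(1, chi)` -/
noncomputable def S1 (n : ℕ) : ℝ := ∑ i ∈ Ioc 0 n, chi i * (1 / (i : ℝ))

theorem S1_sub {m n : ℕ} (h : m ≤ n) : |S1 n - S1 m| ≤ 1 / ((m : ℝ) + 1) := by
  have h1 : S1 n - S1 m = ∑ i ∈ Ioc m n, chi i * (1 / (i : ℝ)) := by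
    unfold S1
    rw [← sum_Ioc_consecutive (fun i : ℕ => chi i * (1 / (i : ℝ))) (Nat.zero_le m) h]
    ring
  rw [h1]
  have h2 := abel (fun i => 1 / (i : ℝ)) m (fun i hi => ?_) (fun i hi => by positivity) n h
  · simpa using h2
  · have : (0 : ℝ) < i := by exact_mod_cast (by omega : 0 < i)
    apply one_div_le_one_div_of_le this
    push_cast; linarith

theorem exists_L : ∃ L : ℝ, 1 / 6 ≤ L ∧ ∀ n : ℕ, |S1 n - L| ≤ 1 / ((n : ℝ) + 1) := by
  have hc : CauchySeq S1 := by
    apply cauchySeq_of_le_tendsto_0 (fun n : ℕ => 1 / ((n : ℝ) + 1))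
    · intro n m N hn hm
      rw [Real.dist_eq]
      have hN : (0 : ℝ) < (N : ℝ) + 1 := by positivity
      rcases le_total n m with h | h
      · rw [abs_sub_comm]
        refine (S1_sub h).trans (one_div_le_one_div_of_le hN ?_)
        have : (N : ℝ) ≤ n := by exact_mod_cast hn
        linarith
      · refine (S1_sub h).trans (one_div_le_one_div_of_le hN ?_)
        have : (N : ℝ) ≤ m := by exact_mod_cast hm
        linarith
    · exact tendsto_one_div_add_atTop_nhds_zero_nat
  obtain ⟨L, hL⟩ := cauchySeq_tendsto_of_complete hc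
  have h1 : ∀ n : ℕ, |S1 n - L| ≤ 1 / ((n : ℝ) + 1) := by
    intro n
    have h2 : Tendsto (fun k => |S1 n - S1 k|) atTop (𝓝 |S1 n - L|) := (hL.const_sub _).abs
    apply le_of_tendsto h2
    filter_upwards [eventually_ge_atTop n] with k hk
    rw [abs_sub_comm]
    exact S1_sub hk
  refine ⟨L, ?_, h1⟩
  have h3 := h1 2
  have h4 : S1 2 = 1 := by
    unfold S1
    rw [show Ioc 0 2 = {1, 2} by rfl]
    rw [sum_pair (by norm_num)]
    unfold chi
    norm_num
  rw [h4] at h3
  have h5 := abs_le.1 h3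
  norm_num at h5
  linarith [h5.1, h5.2]

/-- the sum `∑ chi(n) log n / n` -/
noncomputable def TT (n : ℕ) : ℝ := ∑ i ∈ Ioc 0 n, chi i * (Real.log i / (i : ℝ))

theorem TT_le (n : ℕ) : |TT n| ≤ 3 := by
  have h3 : Real.exp 1 ≤ 3 := by
    have := Real.exp_one_lt_d9
    linarith
  have hl3 : Real.log (3 : ℝ) / 3 ≤ 1 := by
    have := Real.log_le_sub_one_of_pos (show (0 : ℝ) < 3 by norm_num)
    rw [div_le_one (by norm_num)]
    linarith
  have hl2 : |Real.log (2 : ℝ) / 2| ≤ 1 := by
    have := Real.log_le_sub_one_of_pos (show (0 : ℝ) < 2 by norm_num)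
    have h2 := Real.log_nonneg (show (1 : ℝ) ≤ 2 by norm_num)
    rw [abs_of_nonneg (by positivity), div_le_one (by norm_num)]
    linarith
  rcases le_or_gt n 2 with h | h
  · have h1 : |TT n| ≤ 1 := by
      unfold TT
      interval_cases n
      · simp
      · simp
      · rw [show Ioc 0 2 = {1, 2} by rfl]
        rw [sum_pair (by norm_num)]
        have : chi 2 = 0 := by unfold chi; norm_num
        rw [this]
        simp
    linarith
  · have h1 : TT n = TT 2 + ∑ i ∈ Ioc 2 n, chi i * (Real.log i / (i : ℝ)) := by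
      unfold TT
      rw [← sum_Ioc_consecutive (fun i : ℕ => chi i * (Real.log i / (i : ℝ))) (Nat.zero_le 2) h.le]
    have h2 := abel (fun i => Real.log i / (i : ℝ)) 2 (fun i hi => ?_) (fun i hi => ?_) n h.le
    · have h4 : |TT 2| ≤ 1 := by
        unfold TT
        rw [show Ioc 0 2 = {1, 2} by rfl]
        rw [sum_pair (by norm_num)]
        have : chi 2 = 0 := by unfold chi; norm_num
        rw [this]
        simp
      have h5 : Real.log ((2 + 1 : ℕ) : ℝ) / ((2 + 1 : ℕ) : ℝ) ≤ 1 := by norm_num; linarith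
      rw [h1]
      calc _ ≤ _ := abs_add_le _ _
        _ ≤ 1 + 1 := add_le_add h4 (h2.trans h5)
        _ ≤ 3 := by norm_num
    · have h6 : (3 : ℝ) ≤ i := by exact_mod_cast hi
      apply Real.log_div_self_antitoneOn
      · simp only [Set.mem_Ici]; linarith
      · simp only [Set.mem_Ici]; push_cast; linarith
      · push_cast; linarith
    · have h6 : (1 : ℝ) ≤ i := by exact_mod_cast (by omega : 1 ≤ i)
      have := Real.log_nonneg h6
      positivity

/-- the arithmetic functions of the convolution -/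
noncomputable def f1 : ArithmeticFunction ℝ := ⟨fun n => chi n * (vonMangoldt n / n), by simp⟩
noncomputable def f2 : ArithmeticFunction ℝ := ⟨fun n => chi n * (1 / n), by simp⟩

theorem f1_mul_f2 (n : ℕ) : (f1 * f2) n = chi n * (Real.log n / n) := by
  rw [ArithmeticFunction.mul_apply]
  have h1 : ∀ x ∈ n.divisorsAntidiagonal, f1 x.1 * f2 x.2 = chi n / n * vonMangoldt x.1 := by
    intro x hx
    rw [Nat.mem_divisorsAntidiagonal] at hx
    change chi x.1 * (vonMangoldt x.1 / x.1) * (chi x.2 * (1 / x.2)) = _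
    rw [← hx.1, chi_mul]
    push_cast
    ring
  rw [sum_congr rfl h1, ← mul_sum]
  have h2 : ∑ x ∈ n.divisorsAntidiagonal, vonMangoldt x.1 = Real.log n := by
    rw [← vonMangoldt_sum]
    exact Nat.sum_divisorsAntidiagonal (fun d _ => vonMangoldt d)
  rw [h2]
  ring

/-- the sum `∑ chi(d) Λ(d) / d` -/
noncomputable def SL (n : ℕ) : ℝ := ∑ i ∈ Ioc 0 n, chi i * (vonMangoldt i / (i : ℝ))

theorem SL_le : ∃ C : ℝ, 0 ≤ C ∧ ∀ n : ℕ, |SL n| ≤ C := by
  obtain ⟨L, hL, hS⟩ := exists_L
  obtain ⟨C, hC⟩ : ∃ C : ℝ, ∀ n : ℕ, Chebyshev.psi n ≤ C * n :=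
    ⟨Real.log 4 + 4, fun n => Chebyshev.psi_le_const_mul_self (Nat.cast_nonneg n)⟩
  refine ⟨6 * (3 + max C 0), by positivity, fun n => ?_⟩
  rcases Nat.eq_zero_or_pos n with rfl | hn
  · simp [SL]; positivity
  have hn0 : (0 : ℝ) < n := by exact_mod_cast hn
  have h1 : TT n = ∑ d ∈ Ioc 0 n, f1 d * S1 (n / d) := by
    have h2 := sum_Ioc_mul_eq_sum_sum f1 f2 n
    have h3 : TT n = ∑ i ∈ Ioc 0 n, (f1 * f2) i := by
      unfold TT
      exact sum_congr rfl fun i _ => (f1_mul_f2 i).symm
    rw [h3, h2]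
    rfl
  have h4 : L * SL n = TT n - ∑ d ∈ Ioc 0 n, f1 d * (S1 (n / d) - L) := by
    rw [h1, ← sum_sub_distrib]
    unfold SL
    rw [mul_sum]
    apply sum_congr rfl
    intro d _
    change L * f1 d = _
    ring
  have h5 : |∑ d ∈ Ioc 0 n, f1 d * (S1 (n / d) - L)| ≤ max C 0 := by
    calc _ ≤ ∑ d ∈ Ioc 0 n, |f1 d * (S1 (n / d) - L)| := abs_sum_le_sum_abs _ _
      _ ≤ ∑ d ∈ Ioc 0 n, vonMangoldt d * (1 / n) := by
          apply sum_le_sum
          intro d hd
          rw [mem_Ioc] at hd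
          have hd0 : (0 : ℝ) < d := by exact_mod_cast hd.1
          rw [abs_mul]
          have e1 : |f1 d| ≤ vonMangoldt d / d := by
            change |chi d * (vonMangoldt d / d)| ≤ _
            rw [abs_mul, abs_of_nonneg (div_nonneg vonMangoldt_nonneg hd0.le)]
            exact mul_le_of_le_one_left (div_nonneg vonMangoldt_nonneg hd0.le) (abs_chi d)
          have e2 : |S1 (n / d) - L| ≤ d / n := by
            refine (hS (n / d)).trans ?_
            have e3 : (n : ℝ) / d < ((n / d : ℕ) : ℝ) + 1 := by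
              rw [div_lt_iff₀ hd0]
              have := Nat.lt_div_mul_add hd.1 (a := n)
              have e4 : n < (n / d + 1) * d := by
                rw [add_mul, one_mul]; exact this
              exact_mod_cast e4
            calc 1 / (((n / d : ℕ) : ℝ) + 1) ≤ 1 / ((n : ℝ) / d) :=
                  one_div_le_one_div_of_le (by positivity) e3.le
              _ = d / n := by rw [one_div_div]
          calc |f1 d| * |S1 (n / d) - L| ≤ (vonMangoldt d / d) * (d / n) :=
                mul_le_mul e1 e2 (abs_nonneg _) (div_nonneg vonMangoldt_nonneg hd0.le)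
            _ = vonMangoldt d * (1 / n) := by field_simp
      _ = (∑ d ∈ Ioc 0 n, vonMangoldt d) * (1 / n) := by rw [sum_mul]
      _ ≤ (C * n) * (1 / n) := by
          apply mul_le_mul_of_nonneg_right _ (by positivity)
          have := hC n
          rw [Chebyshev.psi, Nat.floor_natCast] at this
          exact this
      _ = C := by field_simp
      _ ≤ _ := le_max_left _ _
  have h6 : |L * SL n| ≤ 3 + max C 0 := by
    rw [h4]
    calc _ ≤ _ := abs_sub _ _
      _ ≤ _ := add_le_add (TT_le n) h5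
  rw [abs_mul, abs_of_nonneg (by linarith : 0 ≤ L)] at h6
  have h7 : 1 / 6 * |SL n| ≤ L * |SL n| := mul_le_mul_of_nonneg_right hL (abs_nonneg _)
  linarith

/-- `∑_{p ≤ n} chi(p) log p / p` is bounded -/
noncomputable def GG (n : ℕ) : ℝ := ∑ p ∈ (Icc 1 n).filter Nat.Prime, chi p * (Real.log p / p)

theorem GG_le : ∃ C : ℝ, 0 ≤ C ∧ ∀ n : ℕ, |GG n| ≤ C := by
  obtain ⟨C, hC0, hC⟩ := SL_le
  obtain ⟨D, hD0, hD⟩ := sum_bb_div_le
  refine ⟨C + D, by positivity, fun n => ?_⟩
  have h1 : GG n = SL n - ∑ d ∈ Icc 1 n, chi d * (bb d / d) := by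
    unfold GG SL bb
    rw [show Ioc 0 n = Icc 1 n by ext k; simp [mem_Ioc, mem_Icc]; omega, sum_filter, ← sum_sub_distrib]
    apply sum_congr rfl
    intro d _
    split_ifs with h
    · rw [vonMangoldt_apply_prime h]; simp
    · simp
  rw [h1]
  calc _ ≤ _ := abs_sub _ _
    _ ≤ C + D := by
        apply add_le_add (hC n)
        calc _ ≤ _ := abs_sum_le_sum_abs _ _
          _ ≤ ∑ d ∈ Icc 1 n, bb d / d := by
              apply sum_le_sum
              intro d _
              have : 0 ≤ bb d / d := div_nonneg (bb_nonneg d) (Nat.cast_nonneg d)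
              rw [abs_mul, abs_of_nonneg this]
              exact mul_le_of_le_one_left this (abs_chi d)
          _ ≤ D := hD n

/-- Mertens' first theorem for the primes `1` modulo `4` -/
theorem mertens1_four : ∃ C : ℝ, 0 ≤ C ∧ ∀ n : ℕ, 1 ≤ n →
    |∑ p ∈ (Icc 1 n).filter (fun p => p.Prime ∧ p % 4 = 1), Real.log p / p -
      1 / 2 * Real.log n| ≤ C := by
  obtain ⟨C, hC0, hC⟩ := mertens1
  obtain ⟨D, hD0, hD⟩ := GG_le
  refine ⟨(C + D) / 2 + 1, by positivity, fun n hn => ?_⟩
  have h1 : 2 * ∑ p ∈ (Icc 1 n).filter (fun p => p.Prime ∧ p % 4 = 1), Real.log p / p =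
      FF n + GG n - ∑ p ∈ (Icc 1 n).filter (fun p => p = 2), Real.log p / p := by
    unfold FF GG
    rw [sum_filter, sum_filter, sum_filter, sum_filter, mul_sum, ← sum_add_distrib,
      ← sum_sub_distrib]
    apply sum_congr rfl
    intro p _
    by_cases hp : p.Prime
    · by_cases h3 : p = 2
      · subst h3
        simp [hp, chi]
      · have h4 : p % 2 ≠ 0 := by
          intro h
          have := (Nat.prime_dvd_prime_iff_eq Nat.prime_two hp).1 (Nat.dvd_of_mod_eq_zero h)
          exact h3 this.symm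
        have h5 : p % 4 < 4 := Nat.mod_lt _ (by norm_num)
        have h6 : p % 4 = 1 ∨ p % 4 = 3 := by omega
        simp only [hp, true_and, h3, if_true, if_false, chi]
        rcases h6 with hq | hq
        · rw [hq]; simp; ring
        · rw [hq]; simp
    · have h3 : p ≠ 2 := by rintro rfl; exact hp Nat.prime_two
      simp [hp, h3]
  have h2 : |∑ p ∈ (Icc 1 n).filter (fun p => p = 2), Real.log p / p| ≤ 1 := by
    rw [Finset.sum_filter, Finset.sum_ite_eq']
    split_ifs
    · have h3 := Real.log_le_sub_one_of_pos (show (0 : ℝ) < 2 by norm_num)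
      have h4 := Real.log_nonneg (show (1 : ℝ) ≤ 2 by norm_num)
      push_cast
      rw [abs_of_nonneg (by positivity), div_le_one (by norm_num)]
      linarith
    · simp
  have h3 := hC n hn
  have h4 := hD n
  rw [abs_le] at h2 h3 h4 ⊢
  constructor <;> linarith [h2.1, h2.2, h3.1, h3.2, h4.1, h4.2]

/-- Mertens' second theorem for the primes `1` modulo `4` -/
theorem mertens2_four : ∃ C : ℝ, 0 < C ∧ ∀ u v : ℕ, 2 ≤ u → u ≤ v →
    |∑ p ∈ (Ioc u v).filter (fun p => p.Prime ∧ p % 4 = 1), 1 / (p : ℝ) -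
      1 / 2 * (Real.log (Real.log v) - Real.log (Real.log u))| ≤ C / Real.log u := by
  obtain ⟨C, hC0, hC⟩ := mertens1_four
  exact ⟨2 * C + 1 / 2, by positivity, Pool.Agent.Work.SF.M3.by_parts _ (1 / 2) C (by norm_num) hC0 hC⟩

end Pool.LW.M4

namespace Pool.LW

open Pool.LW.M4 in
theorem p_M4 : S_M4 := by
  obtain ⟨C, hC0, hC⟩ := mertens2_four
  refine ⟨C, fun u v hu huv => ?_⟩
  have h1 := hC u v (by omega) huv
  have hu3 : (3 : ℝ) ≤ u := by exact_mod_cast hu
  have hv3 : (3 : ℝ) ≤ v := hu3.trans (by exact_mod_cast huv)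
  have hl : 1 ≤ Real.log u := by
    rw [Real.le_log_iff_exp_le (by linarith)]
    have := Real.exp_one_lt_d9
    linarith
  have hlv : 1 ≤ Real.log v := by
    rw [Real.le_log_iff_exp_le (by linarith)]
    have := Real.exp_one_lt_d9
    linarith
  have h2 : C / Real.log u ≤ C := div_le_self hC0.le hl
  rw [Real.log_div (by linarith) (by linarith)]
  have h3 := (abs_le.1 h1).1
  unfold Q4
  linarith

end Pool.LW
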