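import Pool.Agent.Work.MP_aebf03_lw.Interface

/-!
Block PHD.
-/

set_option autoImplicit false

namespace Pool.LW

open Finset

theorem p_PHD : S_PHD := by
  intro q m hq hm hd
  rw [Nat.totient_eq_prod_factorization hm.ne', Finsupp.prod] at hd
  obtain ⟨p, hp, hdp⟩ := hq.prime.exists_mem_finset_dvd hd
  have hpp : p.Prime := by
    rw [Nat.support_factorization] at hp
    exact Nat.prime_of_mem_primeFactors hp
  have hpm : p ∣ m := by
    rw [Nat.support_factorization] at hp
    exact Nat.dvd_of_mem_primeFactors hp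
  rcases (Nat.Prime.dvd_mul hq).1 hdp with h | h
  · left
    have hne : m.factorization p - 1 ≠ 0 := by
      intro h0
      rw [h0, pow_zero] at h
      exact hq.one_lt.ne' (Nat.dvd_one.1 h)
    have hqp : q = p := (Nat.prime_dvd_prime_iff_eq hq hpp).1 (hq.dvd_of_dvd_pow h)
    rw [hqp]
    exact (hpp.pow_dvd_iff_le_factorization hm.ne').2 (by omega)
  · exact Or.inr ⟨p, hpp, hpm, h⟩

end Pool.LW
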