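import Pool.Agent.Work.MP_aebf03_lw.Interface

/-!
# PHL: a lower bound for the totient
-/

set_option autoImplicit false

namespace Pool.LW

open Finset

theorem PHL_pp (p n : ℕ) (hp : p.Prime) (hn : 0 < n) :
    p ^ n ≤ 2 * (p ^ n).totient ^ 2 ∧ (Odd (p ^ n) → p ^ n ≤ (p ^ n).totient ^ 2) := by
  obtain ⟨k, rfl⟩ : ∃ k, n = k + 1 := ⟨n - 1, by omega⟩
  rw [Nat.totient_prime_pow_succ hp]
  have h1 : 1 ≤ p ^ k := Nat.one_le_pow _ _ hp.pos
  have h2 : p ^ k ≤ (p ^ k) ^ 2 := by nlinarith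
  rcases hp.eq_two_or_odd' with rfl | hodd
  · constructor
    · rw [pow_succ]
      norm_num
      nlinarith
    · intro h
      exfalso
      rw [Nat.odd_pow_iff (by omega)] at h
      revert h
      decide
  · have h3 : 3 ≤ p := by
      have := hp.two_le
      rcases hodd with ⟨m, hm⟩
      omega
    obtain ⟨q, rfl⟩ : ∃ q, p = q + 1 := ⟨p - 1, by omega⟩
    have h4 : q + 1 ≤ q ^ 2 := by nlinarith
    have h5 : (q + 1) ^ (k + 1) ≤ ((q + 1) ^ k * (q + 1 - 1)) ^ 2 := by
      rw [Nat.add_sub_cancel, mul_pow, pow_succ]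
      exact Nat.mul_le_mul h2 h4
    exact ⟨by omega, fun _ => h5⟩

theorem PHL_all (m : ℕ) : 0 < m → m ≤ 2 * m.totient ^ 2 ∧ (Odd m → m ≤ m.totient ^ 2) := by
  induction m using Nat.recOnPosPrimePosCoprime with
  | prime_pow p n hp hn => exact fun _ => PHL_pp p n hp hn
  | zero => intro h; exact absurd h (lt_irrefl 0)
  | one => intro _; simp
  | coprime a b ha hb hab iha ihb =>
    intro _
    obtain ⟨a1, a2⟩ := iha (by omega)
    obtain ⟨b1, b2⟩ := ihb (by omega)
    rw [Nat.totient_mul hab]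
    constructor
    · have hodd : Odd a ∨ Odd b := by
        by_contra hcon
        rw [not_or, Nat.not_odd_iff_even, Nat.not_odd_iff_even] at hcon
        have h2 : 2 ∣ Nat.gcd a b := Nat.dvd_gcd hcon.1.two_dvd hcon.2.two_dvd
        rw [hab] at h2
        omega
      rcases hodd with h | h
      · calc a * b ≤ a.totient ^ 2 * (2 * b.totient ^ 2) := Nat.mul_le_mul (a2 h) b1
          _ = _ := by ring
      · calc a * b ≤ (2 * a.totient ^ 2) * b.totient ^ 2 := Nat.mul_le_mul a1 (b2 h)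
          _ = _ := by ring
    · intro h
      rw [Nat.odd_mul] at h
      calc a * b ≤ a.totient ^ 2 * b.totient ^ 2 := Nat.mul_le_mul (a2 h.1) (b2 h.2)
        _ = _ := by ring

theorem p_PHL : S_PHL := fun m hm => (PHL_all m hm).1

end Pool.LW
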