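import Pool.Agent.Work.MP_aebf03_lw.Interface

namespace Pool.LW

open Finset

theorem p_SQR : S_SQR := by
  classical
  intro x z hz
  have hsub : Sqr x z ⊆ (Ioc z x).biUnion (fun r => (Ioc 0 x).filter (fun m => r ^ 2 ∣ m)) := by
    intro m hm
    unfold Sqr at hm
    rw [mem_filter, mem_Ioc] at hm
    obtain ⟨⟨h0, hx⟩, r, hr, hzr, hd⟩ := hm
    rw [mem_biUnion]
    refine ⟨r, ?_, ?_⟩
    · rw [mem_Ioc]
      refine ⟨hzr, ?_⟩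
      have h1 : r ^ 2 ≤ m := Nat.le_of_dvd h0 hd
      have h2 : r ≤ r ^ 2 := Nat.le_self_pow (by norm_num) r
      omega
    · rw [mem_filter, mem_Ioc]
      exact ⟨⟨h0, hx⟩, hd⟩
  have h1 : (Sqr x z).card ≤ ∑ r ∈ Ioc z x, x / r ^ 2 := by
    refine (card_le_card hsub).trans (card_biUnion_le.trans ?_)
    refine sum_le_sum fun r _ => ?_
    rw [Nat.Ioc_filter_dvd_card_eq_div]
  have h2 : ((Sqr x z).card : ℝ) ≤ ∑ r ∈ Ioc z x, (x : ℝ) * ((r : ℝ) ^ 2)⁻¹ := by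
    calc ((Sqr x z).card : ℝ) ≤ ((∑ r ∈ Ioc z x, x / r ^ 2 : ℕ) : ℝ) := by exact_mod_cast h1
      _ = ∑ r ∈ Ioc z x, ((x / r ^ 2 : ℕ) : ℝ) := by push_cast; rfl
      _ ≤ _ := by
        refine sum_le_sum fun r _ => ?_
        have h3 : ((x / r ^ 2 : ℕ) : ℝ) ≤ (x : ℝ) / ((r ^ 2 : ℕ) : ℝ) := Nat.cast_div_le
        rw [Nat.cast_pow, div_eq_mul_inv] at h3
        exact h3
  rw [← mul_sum] at h2
  have hzpos : (0 : ℝ) < z := by exact_mod_cast hz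
  by_cases hzx : z ≤ x
  · have h3 : ∑ r ∈ Ioc z x, ((r : ℝ) ^ 2)⁻¹ ≤ (z : ℝ)⁻¹ - (x : ℝ)⁻¹ :=
      sum_Ioc_inv_sq_le_sub (by omega) hzx
    have h4 : (0 : ℝ) ≤ (x : ℝ)⁻¹ := by positivity
    calc ((Sqr x z).card : ℝ) ≤ x * ∑ r ∈ Ioc z x, ((r : ℝ) ^ 2)⁻¹ := h2
      _ ≤ x * (z : ℝ)⁻¹ := mul_le_mul_of_nonneg_left (by linarith) (by positivity)
      _ = x / z := by rw [div_eq_mul_inv]
  · rw [Ioc_eq_empty (by omega), sum_empty, mul_zero] at h2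
    exact h2.trans (by positivity)

end Pool.LW
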