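import Pool.Agent.Work.MP_aebf03_lw.Interface2
import Pool.Agent.Work.MP_484fb8_nt.Selberg
import Pool.Agent.Work.MP_0b7501_nt.LargeSieve

/-!
# MP_aebf03_nt, block ALS: the arithmetic large sieve with constant 16
-/

set_option autoImplicit false

namespace Pool.LW

open Finset

/-- the product of the primes `q` with `n` in a class of `Ω q` -/
def ALS_v (P : Finset ℕ) (Ω : ℕ → Finset ℕ) (n : ℕ) : ℕ :=
  ∏ q ∈ P.filter (fun q => n % q ∈ Ω q), q

theorem ALS_dvd_iff (P : Finset ℕ) (Ω : ℕ → Finset ℕ) (hP : ∀ q ∈ P, q.Prime) (n q : ℕ)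
    (hq : q.Prime) : q ∣ ALS_v P Ω n ↔ q ∈ P ∧ n % q ∈ Ω q := by
  unfold ALS_v
  constructor
  · intro h
    obtain ⟨p, hp, hqp⟩ := (Prime.dvd_finset_prod_iff hq.prime _).1 h
    rw [mem_filter] at hp
    have : q = p := (Nat.prime_dvd_prime_iff_eq hq (hP p hp.1)).1 hqp
    subst this
    exact hp
  · intro h
    exact Finset.dvd_prod_of_mem _ (mem_filter.2 h)

theorem ALS_sqf (P : Finset ℕ) (hP : ∀ q ∈ P, q.Prime) : Squarefree (∏ q ∈ P, q) := by
  classical
  induction P using Finset.induction_on with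
  | empty => simp
  | insert a s ha ih =>
    rw [Finset.prod_insert ha, Nat.squarefree_mul]
    · exact ⟨(hP a (mem_insert_self _ _)).prime.squarefree, ih fun q hq => hP q (mem_insert_of_mem hq)⟩
    · apply Nat.Coprime.prod_right
      intro q hq
      rw [Nat.coprime_primes (hP a (mem_insert_self _ _)) (hP q (mem_insert_of_mem hq))]
      rintro rfl
      exact ha hq

theorem ALS_prime_dvd (P : Finset ℕ) (hP : ∀ q ∈ P, q.Prime) (q : ℕ) (hq : q.Prime)
    (h : q ∣ ∏ q ∈ P, q) : q ∈ P := by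
  obtain ⟨p, hp, hqp⟩ := (Prime.dvd_finset_prod_iff hq.prime _).1 h
  have : q = p := (Nat.prime_dvd_prime_iff_eq hq (hP p hp)).1 hqp
  subst this
  exact hp

/-- Chinese remainder theorem: the number of classes -/
theorem ALS_crt (Ω : ℕ → Finset ℕ) (S : Finset ℕ) (hS : ∀ q ∈ S, q.Prime)
    (hΩ : ∀ q ∈ S, ∀ c ∈ Ω q, c < q) :
    ((range (∏ q ∈ S, q)).filter (fun c => ∀ q ∈ S, c % q ∈ Ω q)).card =
      ∏ q ∈ S, (Ω q).card := by
  classical
  induction S using Finset.induction_on with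
  | empty => simp
  | insert a s ha ih =>
    have ih' := ih (fun q hq => hS q (mem_insert_of_mem hq)) (fun q hq => hΩ q (mem_insert_of_mem hq))
    have hap := hS a (mem_insert_self _ _)
    set M := ∏ q ∈ s, q with hM
    have hM0 : 0 < M := Finset.prod_pos fun q hq => (hS q (mem_insert_of_mem hq)).pos
    have hcop : Nat.Coprime a M := by
      apply Nat.Coprime.prod_right
      intro q hq
      rw [Nat.coprime_primes hap (hS q (mem_insert_of_mem hq))]
      rintro rfl
      exact ha hq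
    rw [Finset.prod_insert ha, Finset.prod_insert ha, ← hM, ← ih', ← Finset.card_product]
    apply Finset.card_bij (fun c _ => (c % a, c % M))
    · intro c hc
      rw [mem_filter, mem_range] at hc
      rw [mem_product, mem_filter, mem_range]
      refine ⟨hc.2 a (mem_insert_self _ _), Nat.mod_lt _ hM0, fun q hq => ?_⟩
      rw [Nat.mod_mod_of_dvd _ (Finset.dvd_prod_of_mem (fun q => q) hq)]
      exact hc.2 q (mem_insert_of_mem hq)
    · intro c hc c' hc' h
      rw [mem_filter, mem_range] at hc hc'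
      have h1 : c % a = c' % a := congrArg Prod.fst h
      have h2 : c % M = c' % M := congrArg Prod.snd h
      have h3 : c ≡ c' [MOD a * M] := (Nat.modEq_and_modEq_iff_modEq_mul hcop).1 ⟨h1, h2⟩
      exact Nat.ModEq.eq_of_lt_of_lt h3 hc.1 hc'.1
    · rintro ⟨x, y⟩ hxy
      rw [mem_product, mem_filter, mem_range] at hxy
      obtain ⟨hx, hy, hy2⟩ := hxy
      simp only at hx hy hy2
      have hxa := hΩ a (mem_insert_self _ _) x hx
      refine ⟨(Nat.chineseRemainder hcop x y : ℕ), ?_, ?_⟩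
      · rw [mem_filter, mem_range]
        have h1 := (Nat.chineseRemainder hcop x y).2.1
        have h2 := (Nat.chineseRemainder hcop x y).2.2
        refine ⟨Nat.chineseRemainder_lt_mul hcop x y hap.ne_zero hM0.ne', fun q hq => ?_⟩
        rw [mem_insert] at hq
        rcases hq with rfl | hq
        · rw [h1, Nat.mod_eq_of_lt hxa]
          exact hx
        · have h3 : (Nat.chineseRemainder hcop x y : ℕ) ≡ y [MOD q] :=
            h2.of_dvd (Finset.dvd_prod_of_mem (fun q => q) hq)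
          rw [h3]
          exact hy2 q hq
      · have h1 := (Nat.chineseRemainder hcop x y).2.1
        have h2 := (Nat.chineseRemainder hcop x y).2.2
        apply Prod.ext
        · show (Nat.chineseRemainder hcop x y : ℕ) % a = x
          rw [h1, Nat.mod_eq_of_lt hxa]
        · show (Nat.chineseRemainder hcop x y : ℕ) % M = y
          rw [h2, Nat.mod_eq_of_lt hy]

/-- the density function -/
noncomputable def ALS_nu (Ω : ℕ → Finset ℕ) : ArithmeticFunction ℝ :=
  ArithmeticFunction.prodPrimeFactors (fun q => ((Ω q).card : ℝ) / q)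

theorem ALS_nu_prime (Ω : ℕ → Finset ℕ) (p : ℕ) (hp : p.Prime) :
    ALS_nu Ω p = ((Ω p).card : ℝ) / p := by
  unfold ALS_nu
  rw [ArithmeticFunction.prodPrimeFactors_apply hp.ne_zero, hp.primeFactors, prod_singleton]

/-- the sieve -/
noncomputable def ALS_sieve (P : Finset ℕ) (Ω : ℕ → Finset ℕ) (hP : ∀ q ∈ P, q.Prime)
    (hΩ : ∀ q ∈ P, 0 < (Ω q).card ∧ (Ω q).card < q) (D0 : ℕ) (om : ℕ → ℝ) (hom : ∀ m, 0 ≤ om m)
    (W : ℝ) : BoundingSieve where
  support := (range D0).image (ALS_v P Ω)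
  prodPrimes := ∏ q ∈ P, q
  prodPrimes_squarefree := ALS_sqf P hP
  weights := fun a => ∑ n ∈ (range D0).filter (fun n => ALS_v P Ω n = a), om n
  weights_nonneg := fun _ => Finset.sum_nonneg fun n _ => hom n
  totalMass := W
  nu := ALS_nu Ω
  nu_mult := ArithmeticFunction.IsMultiplicative.prodPrimeFactors _
  nu_pos_of_prime := fun p hp hd => by
    rw [ALS_nu_prime Ω p hp]
    have h1 := (hΩ p (ALS_prime_dvd P hP p hp hd)).1
    have h2 := hp.pos
    positivity
  nu_lt_one_of_prime := fun p hp hd => by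
    rw [ALS_nu_prime Ω p hp]
    have h1 := (hΩ p (ALS_prime_dvd P hP p hp hd)).2
    have h2 : (0 : ℝ) < p := by exact_mod_cast hp.pos
    rw [div_lt_one h2]
    exact_mod_cast h1

theorem ALS_fib (P : Finset ℕ) (Ω : ℕ → Finset ℕ) (D0 : ℕ) (om : ℕ → ℝ) (Q : ℕ → Prop)
    [DecidablePred Q] :
    ∑ a ∈ (range D0).image (ALS_v P Ω), (if Q a then
      ∑ n ∈ (range D0).filter (fun n => ALS_v P Ω n = a), om n else 0) =
    ∑ n ∈ (range D0).filter (fun n => Q (ALS_v P Ω n)), om n := by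
  classical
  rw [Finset.sum_filter, ← Finset.sum_fiberwise_of_maps_to (s := range D0)
    (t := (range D0).image (ALS_v P Ω)) (g := ALS_v P Ω)
    (fun n hn => Finset.mem_image_of_mem _ hn)]
  apply Finset.sum_congr rfl
  intro a _
  split_ifs with h
  · apply Finset.sum_congr rfl
    intro n hn
    rw [mem_filter] at hn
    rw [if_pos (by rw [hn.2]; exact h)]
  · symm
    apply Finset.sum_eq_zero
    intro n hn
    rw [mem_filter] at hn
    rw [if_neg (by rw [hn.2]; exact h)]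

theorem ALS_sum (T : Finset ℕ) (Ω : ℕ → Finset ℕ) (hT : ∀ q ∈ T, q.Prime)
    (hΩ : ∀ q ∈ T, ∀ c ∈ Ω q, c < q) (D0 : ℕ) (om : ℕ → ℝ) (W : ℝ)
    (heq : ∀ c, c < ∏ q ∈ T, q →
      ∑ m ∈ (range D0).filter (fun m => m % (∏ q ∈ T, q) = c), om m = W / ((∏ q ∈ T, q : ℕ) : ℝ)) :
    ∑ n ∈ (range D0).filter (fun n => ∀ q ∈ T, n % q ∈ Ω q), om n =
      ((∏ q ∈ T, (Ω q).card : ℕ) : ℝ) * (W / ((∏ q ∈ T, q : ℕ) : ℝ)) := by
  classical
  set d := ∏ q ∈ T, q with hd
  have hd0 : 0 < d := Finset.prod_pos fun q hq => (hT q hq).pos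
  have hmod : ∀ q ∈ T, ∀ n, (n % d) % q = n % q := fun q hq n =>
    Nat.mod_mod_of_dvd _ (Finset.dvd_prod_of_mem (fun q => q) hq)
  have hmaps : ∀ n ∈ (range D0).filter (fun n => ∀ q ∈ T, n % q ∈ Ω q),
      n % d ∈ (range d).filter (fun c => ∀ q ∈ T, c % q ∈ Ω q) := by
    intro n hn
    rw [mem_filter] at hn ⊢
    refine ⟨mem_range.2 (Nat.mod_lt _ hd0), fun q hq => ?_⟩
    rw [hmod q hq]
    exact hn.2 q hq
  rw [← Finset.sum_fiberwise_of_maps_to hmaps]
  have hin : ∀ c ∈ (range d).filter (fun c => ∀ q ∈ T, c % q ∈ Ω q),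
      ∑ n ∈ ((range D0).filter (fun n => ∀ q ∈ T, n % q ∈ Ω q)).filter (fun n => n % d = c), om n =
        W / (d : ℝ) := by
    intro c hc
    rw [mem_filter, mem_range] at hc
    rw [← heq c hc.1]
    apply Finset.sum_congr _ (fun _ _ => rfl)
    ext n
    simp only [mem_filter]
    constructor
    · rintro ⟨⟨h1, _⟩, h3⟩
      exact ⟨h1, h3⟩
    · rintro ⟨h1, h3⟩
      refine ⟨⟨h1, fun q hq => ?_⟩, h3⟩
      rw [← hmod q hq, h3]
      exact hc.2 q hq
  rw [Finset.sum_congr rfl hin, Finset.sum_const, nsmul_eq_mul, ALS_crt Ω T hT hΩ]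

theorem ALS_rem (P : Finset ℕ) (Ω : ℕ → Finset ℕ) (hP : ∀ q ∈ P, q.Prime)
    (hΩ : ∀ q ∈ P, 0 < (Ω q).card ∧ (Ω q).card < q) (hΩ' : ∀ q ∈ P, ∀ c ∈ Ω q, c < q)
    (D0 : ℕ) (om : ℕ → ℝ) (hom : ∀ m, 0 ≤ om m)
    (W : ℝ) (M : ℕ)
    (heq : ∀ k c, 1 ≤ k → k ≤ M → c < k →
      ∑ m ∈ (range D0).filter (fun m => m % k = c), om m = W / (k : ℝ))
    (d : ℕ) (hd : d ∣ ∏ q ∈ P, q) (hdM : d ≤ M) :
    (ALS_sieve P Ω hP hΩ D0 om hom W).rem d = 0 := by
  classical
  have hsq : Squarefree d := (ALS_sqf P hP).squarefree_of_dvd hd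
  have hprod : ∏ q ∈ d.primeFactors, q = d := Nat.prod_primeFactors_of_squarefree hsq
  have hTP : ∀ q ∈ d.primeFactors, q ∈ P := fun q hq =>
    ALS_prime_dvd P hP q (Nat.prime_of_mem_primeFactors hq)
      ((Nat.dvd_of_mem_primeFactors hq).trans hd)
  have hd0 : 0 < d := Nat.pos_of_ne_zero hsq.ne_zero
  have h1 : (ALS_sieve P Ω hP hΩ D0 om hom W).multSum d =
      ∑ n ∈ (range D0).filter (fun n => d ∣ ALS_v P Ω n), om n :=
    ALS_fib P Ω D0 om (fun a => d ∣ a)
  have h2 : (range D0).filter (fun n => d ∣ ALS_v P Ω n) =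
      (range D0).filter (fun n => ∀ q ∈ d.primeFactors, n % q ∈ Ω q) := by
    apply Finset.filter_congr
    intro n _
    constructor
    · intro h q hq
      exact ((ALS_dvd_iff P Ω hP n q (Nat.prime_of_mem_primeFactors hq)).1
        ((Nat.dvd_of_mem_primeFactors hq).trans h)).2
    · intro h
      rw [← hprod]
      unfold ALS_v
      apply Finset.prod_dvd_prod_of_subset
      intro q hq
      exact mem_filter.2 ⟨hTP q hq, h q hq⟩
  have h3 := ALS_sum d.primeFactors Ω (fun q hq => Nat.prime_of_mem_primeFactors hq)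
    (fun q hq => hΩ' q (hTP q hq)) D0 om W (by
      intro c hc
      rw [hprod] at hc ⊢
      exact heq d c hd0 hdM hc)
  have h4 : (ALS_sieve P Ω hP hΩ D0 om hom W).nu d =
      ((∏ q ∈ d.primeFactors, (Ω q).card : ℕ) : ℝ) / ((∏ q ∈ d.primeFactors, q : ℕ) : ℝ) := by
    show ALS_nu Ω d = _
    unfold ALS_nu
    rw [ArithmeticFunction.prodPrimeFactors_apply hd0.ne', Finset.prod_div_distrib]
    push_cast
    rfl
  have h5 : (ALS_sieve P Ω hP hΩ D0 om hom W).totalMass = W := rfl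
  unfold BoundingSieve.rem
  rw [h1, h2, h3, h4, h5]
  ring

theorem p_ALS : S_ALS := by
  classical
  intro P Ω y D hP hΩ hD
  obtain ⟨D0, om, hD0, hom0, hom1, -, heq⟩ :=
    Pool.Agent.Work.MP_0b7501_nt.exists_weight y (D ^ 2) (Nat.one_le_pow _ _ hD)
  have hΩ1 : ∀ q ∈ P, 0 < (Ω q).card ∧ (Ω q).card < q := fun q hq => ⟨(hΩ q hq).1, (hΩ q hq).2.1⟩
  have hΩ2 : ∀ q ∈ P, ∀ c ∈ Ω q, c < q := fun q hq => (hΩ q hq).2.2
  set W : ℝ := 16 * (max y (D ^ 2) : ℕ) with hW
  set s := ALS_sieve P Ω hP hΩ1 D0 om hom0 W with hs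
  have hsel := Pool.Agent.Work.MP_484fb8_nt.selberg_upper_bound (s := s) hD
  have hGpos := Pool.Agent.Work.MP_484fb8_nt.GSum_pos (s := s) hD
  have hpp : s.prodPrimes = ∏ q ∈ P, q := rfl
  have hrem : ∑ d1 ∈ s.prodPrimes.divisors with d1 ≤ D, ∑ d2 ∈ s.prodPrimes.divisors with d2 ≤ D,
        |s.rem (Nat.lcm d1 d2)| = 0 := by
    apply Finset.sum_eq_zero
    intro d1 hd1
    apply Finset.sum_eq_zero
    intro d2 hd2
    rw [mem_filter, Nat.mem_divisors] at hd1 hd2
    rw [hpp] at hd1 hd2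
    have hl : Nat.lcm d1 d2 ∣ ∏ q ∈ P, q := Nat.lcm_dvd hd1.1.1 hd2.1.1
    have h0 : 0 < d1 := Nat.pos_of_ne_zero (ne_zero_of_dvd_ne_zero hd1.1.2 hd1.1.1)
    have h0' : 0 < d2 := Nat.pos_of_ne_zero (ne_zero_of_dvd_ne_zero hd2.1.2 hd2.1.1)
    have hle : Nat.lcm d1 d2 ≤ D ^ 2 := by
      calc Nat.lcm d1 d2 ≤ d1 * d2 := Nat.le_of_dvd (Nat.mul_pos h0 h0')
            (Nat.lcm_dvd (dvd_mul_right _ _) (dvd_mul_left _ _))
        _ ≤ D * D := Nat.mul_le_mul hd1.2 hd2.2
        _ = D ^ 2 := (sq D).symm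
    rw [hs, ALS_rem P Ω hP hΩ1 hΩ2 D0 om hom0 W (D ^ 2) heq _ hl hle, abs_zero]
  have hG : Pool.Agent.Work.MP_484fb8_nt.GSum s D = LL P (fun q => (Ω q).card) D := by
    unfold Pool.Agent.Work.MP_484fb8_nt.GSum LL
    apply Finset.sum_congr rfl
    intro l hl
    rw [mem_filter, Nat.mem_divisors] at hl
    have hl0 : l ≠ 0 := ne_zero_of_dvd_ne_zero hl.1.2 hl.1.1
    rw [BoundingSieve.selbergTerms_apply]
    have hn : s.nu l = ∏ q ∈ l.primeFactors, ((Ω q).card : ℝ) / q := by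
      show ALS_nu Ω l = _
      unfold ALS_nu
      rw [ArithmeticFunction.prodPrimeFactors_apply hl0]
    rw [hn, ← Finset.prod_mul_distrib]
    apply Finset.prod_congr rfl
    intro q hq
    have hqp := Nat.prime_of_mem_primeFactors hq
    have hqP : q ∈ P := ALS_prime_dvd P hP q hqp ((Nat.dvd_of_mem_primeFactors hq).trans hl.1.1)
    have h1 : s.nu q = ((Ω q).card : ℝ) / q := ALS_nu_prime Ω q hqp
    rw [h1]
    have h2 : (0 : ℝ) < q := by exact_mod_cast hqp.pos
    have h3 : ((Ω q).card : ℝ) < q := by exact_mod_cast (hΩ1 q hqP).2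
    have h4 : (q : ℝ) - (Ω q).card ≠ 0 := by linarith
    have h5 : (1 : ℝ) - ((Ω q).card : ℝ) / q = ((q : ℝ) - (Ω q).card) / q := by
      field_simp
    rw [h5, inv_div]
    field_simp
  have hsift : ((AV P Ω y).card : ℝ) ≤ s.siftedSum := by
    have h1 : s.siftedSum = ∑ n ∈ (range D0).filter
        (fun n => Nat.Coprime (∏ q ∈ P, q) (ALS_v P Ω n)), om n :=
      ALS_fib P Ω D0 om (fun a => Nat.Coprime (∏ q ∈ P, q) a)
    rw [h1]
    calc ((AV P Ω y).card : ℝ) = ∑ n ∈ AV P Ω y, (1 : ℝ) := by simp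
      _ ≤ ∑ n ∈ AV P Ω y, om n := by
          apply Finset.sum_le_sum
          intro n hn
          unfold AV at hn
          rw [mem_filter, mem_Ioc] at hn
          exact hom1 n hn.1.2
      _ ≤ _ := by
          apply Finset.sum_le_sum_of_subset_of_nonneg
          · intro n hn
            unfold AV at hn
            rw [mem_filter, mem_Ioc] at hn
            rw [mem_filter, mem_range]
            refine ⟨by omega, ?_⟩
            have h2 : ALS_v P Ω n = 1 := by
              unfold ALS_v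
              rw [Finset.filter_false_of_mem hn.2, Finset.prod_empty]
            rw [h2]
            exact Nat.coprime_one_right _
          · intro n _ _
            exact hom0 n
  rw [hrem, add_zero] at hsel
  have hmass : s.totalMass = W := rfl
  rw [hmass, hG] at hsel
  rw [hG] at hGpos
  calc ((AV P Ω y).card : ℝ) * LL P (fun q => (Ω q).card) D
      ≤ (W * (LL P (fun q => (Ω q).card) D)⁻¹) * LL P (fun q => (Ω q).card) D :=
        mul_le_mul_of_nonneg_right (hsift.trans hsel) hGpos.le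
    _ = W := by
        rw [mul_assoc, inv_mul_cancel₀ hGpos.ne', mul_one]

end Pool.LW
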