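import Pool.Agent.Work.MP_aebf03_lw.Interface2

/-! Block CL2 (helper57). -/

set_option autoImplicit false

namespace Pool.LW

open Finset

theorem CL2_aux (q : ℕ) [Fact q.Prime] (A : ℕ) (hA : (A : ZMod q) ≠ 0) (e : ZMod q)
    (he : e ^ 2 = -1) (r : ℕ) (hr : 1 ≤ r) (hrb : r % q = (1 + e / (A : ZMod q)).val) :
    q ∣ (A * (r - 1)) ^ 2 + 1 := by
  have h2 : (r : ZMod q) = 1 + e / (A : ZMod q) := by
    rw [← ZMod.natCast_mod r q, hrb, ZMod.natCast_zmod_val]
  rw [← ZMod.natCast_eq_zero_iff]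
  push_cast [Nat.cast_sub hr]
  rw [h2, add_sub_cancel_left, mul_div_cancel₀ _ hA, he]
  ring

theorem p_CL2 : S_CL2 := by
  intro q hq hq4 A hA hA1
  have : Fact q.Prime := ⟨hq⟩
  have hA' : (A : ZMod q) ≠ 0 := fun h => hA ((ZMod.natCast_eq_zero_iff _ _).1 h)
  have hA1' : (A : ZMod q) ^ 2 + 1 ≠ 0 := by
    intro h
    apply hA1
    rw [← ZMod.natCast_eq_zero_iff]
    push_cast
    exact h
  obtain ⟨i, hi⟩ := ZMod.exists_sq_eq_neg_one_iff.2 (show q % 4 ≠ 3 by omega)
  have hi' : i ^ 2 = -1 := by rw [sq]; exact hi.symm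
  have hne : ∀ e : ZMod q, e ^ 2 = -1 → 1 + e / (A : ZMod q) ≠ 0 := by
    intro e he h
    apply hA1'
    have h1 : (A : ZMod q) * (1 + e / (A : ZMod q)) = 0 := by rw [h, mul_zero]
    rw [mul_add, mul_one, mul_div_cancel₀ _ hA'] at h1
    have h2 : (A : ZMod q) = -e := by linear_combination h1
    rw [h2, neg_sq, he]
    ring
  have hi2 : (-i) ^ 2 = (-1 : ZMod q) := by rw [neg_sq]; exact hi'
  have h2 : (2 : ZMod q) ≠ 0 := by
    intro h3
    have h5 : q ∣ 2 := by
      rw [← ZMod.natCast_eq_zero_iff]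
      exact_mod_cast h3
    have h6 := Nat.le_of_dvd (by norm_num) h5
    have h7 := hq.two_le
    omega
  refine ⟨(1 + i / (A : ZMod q)).val, (1 + -i / (A : ZMod q)).val,
    Nat.pos_of_ne_zero fun h => hne i hi' ((ZMod.val_eq_zero _).1 h), ZMod.val_lt _,
    Nat.pos_of_ne_zero fun h => hne (-i) hi2 ((ZMod.val_eq_zero _).1 h), ZMod.val_lt _, ?_, ?_⟩
  · intro h
    have h3 := ZMod.val_injective q h
    have h4 : 2 * i = 0 := by
      have h5 : (A : ZMod q) * (1 + i / (A : ZMod q)) = (A : ZMod q) * (1 + -i / (A : ZMod q)) := by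
        rw [h3]
      rw [mul_add, mul_add, mul_one, mul_div_cancel₀ _ hA', mul_div_cancel₀ _ hA'] at h5
      linear_combination h5
    rcases mul_eq_zero.1 h4 with h5 | h5
    · exact h2 h5
    · rw [h5] at hi'
      have h6 : (1 : ZMod q) = 0 := by linear_combination hi'
      exact one_ne_zero h6
  · rintro r hr (h | h)
    · exact CL2_aux q A hA' i hi' r hr h
    · exact CL2_aux q A hA' (-i) hi2 r hr h

end Pool.LW
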