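import Pool.Agent.Work.MP_aebf03_lw.Interface2

/-!
Block DEC2 (helper96, after B_DEC of helper48): the decomposition m = r m'.
-/

set_option autoImplicit false

namespace Pool.LW

open Finset

theorem DEC2_cover (hPHL : S_PHL) (c x Z u z : ℕ) (hc : 1 ≤ c) (hZ : 1 ≤ Z)
    (m : ℕ) (hm : m ∈ Bad c x) :
    m ∈ Smo x Z ∨ m ∈ Sqr x Z ∨ m ∈ Ioc 0 (2 * z) ∨
      m ∈ (Ioc 0 (x / Z)).biUnion
        (fun m' => (RB (c * m'.totient) u z (x / m')).image (fun r => m' * r)) := by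
  classical
  unfold Bad at hm
  rw [Finset.mem_filter, Finset.mem_Ioc] at hm
  obtain ⟨⟨hm0, hmx⟩, hpr⟩ := hm
  by_cases h1 : m ∈ Smo x Z
  · exact Or.inl h1
  by_cases h2 : m ∈ Sqr x Z
  · exact Or.inr (Or.inl h2)
  right; right
  unfold Smo at h1
  unfold Sqr at h2
  simp only [Finset.mem_filter, Finset.mem_Ioc] at h1 h2
  have h1' : ¬ ∀ p : ℕ, p.Prime → p ∣ m → p ≤ Z := fun h => h1 ⟨⟨hm0, hmx⟩, h⟩
  have h2' : ¬ ∃ r : ℕ, r.Prime ∧ Z < r ∧ r ^ 2 ∣ m := fun h => h2 ⟨⟨hm0, hmx⟩, h⟩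
  push Not at h1' h2'
  obtain ⟨r, hr, hrm, hzr⟩ := h1'
  have hr2 := h2' r hr hzr
  obtain ⟨m', rfl⟩ := hrm
  have hnd : ¬ r ∣ m' := by
    intro h
    apply hr2
    rw [pow_two]
    exact Nat.mul_dvd_mul_left r h
  have hm'0 : 0 < m' := by
    rcases Nat.eq_zero_or_pos m' with h | h
    · rw [h] at hm0; simp at hm0
    · exact h
  have hcop : Nat.Coprime r m' := (Nat.Prime.coprime_iff_not_dvd hr).mpr hnd
  have htot : (r * m').totient = (r - 1) * m'.totient := by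
    rw [Nat.totient_mul hcop, Nat.totient_prime hr]
  by_cases h3 : ∀ q ∈ Q4 u z, ¬ q ∣ (c * m'.totient * (r - 1)) ^ 2 + 1
  · right
    rw [Finset.mem_biUnion]
    refine ⟨m', ?_, ?_⟩
    · rw [Finset.mem_Ioc]
      refine ⟨hm'0, ?_⟩
      rw [Nat.le_div_iff_mul_le (by omega)]
      calc m' * Z ≤ m' * r := Nat.mul_le_mul_left _ hzr.le
        _ = r * m' := mul_comm _ _
        _ ≤ x := hmx
    · rw [Finset.mem_image]
      refine ⟨r, ?_, mul_comm _ _⟩
      unfold RB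
      rw [Finset.mem_filter, Finset.mem_Ioc]
      refine ⟨⟨hr.pos, ?_⟩, hr, h3⟩
      rw [Nat.le_div_iff_mul_le hm'0]
      exact hmx
  · left
    push Not at h3
    obtain ⟨q, hqQ, hdiv⟩ := h3
    have heq : (c * m'.totient * (r - 1)) ^ 2 + 1 = (c * (r * m').totient) ^ 2 + 1 := by
      rw [htot]; ring
    rw [heq] at hdiv
    unfold Q4 at hqQ
    rw [Finset.mem_filter, Finset.mem_Ioc] at hqQ
    have hqe := (Nat.prime_dvd_prime_iff_eq hqQ.2.1 hpr).mp hdiv
    rw [Finset.mem_Ioc]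
    refine ⟨hm0, ?_⟩
    have h4 := hPHL (r * m') hm0
    have h5 : (r * m').totient ^ 2 ≤ (c * (r * m').totient) ^ 2 :=
      Nat.pow_le_pow_left (Nat.le_mul_of_pos_left _ hc) 2
    have h6 := hqQ.1.2
    omega

/-- Block DEC2. -/
theorem p_DEC2 (hPHL : S_PHL) : S_DEC2 := by
  intro c x Z u z hc hZ
  have hsub : Bad c x ⊆ (Smo x Z ∪ Sqr x Z) ∪ (Ioc 0 (2 * z) ∪
      (Ioc 0 (x / Z)).biUnion
        (fun m' => (RB (c * m'.totient) u z (x / m')).image (fun r => m' * r))) := by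
    intro m hm
    rw [Finset.mem_union, Finset.mem_union, Finset.mem_union]
    rcases DEC2_cover hPHL c x Z u z hc hZ m hm with h | h | h | h
    · exact Or.inl (Or.inl h)
    · exact Or.inl (Or.inr h)
    · exact Or.inr (Or.inl h)
    · exact Or.inr (Or.inr h)
  have h1 := Finset.card_le_card hsub
  have h2 := Finset.card_union_le (Smo x Z ∪ Sqr x Z) (Ioc 0 (2 * z) ∪
      (Ioc 0 (x / Z)).biUnion
        (fun m' => (RB (c * m'.totient) u z (x / m')).image (fun r => m' * r)))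
  have h3 := Finset.card_union_le (Smo x Z) (Sqr x Z)
  have h4 := Finset.card_union_le (Ioc 0 (2 * z)) ((Ioc 0 (x / Z)).biUnion
        (fun m' => (RB (c * m'.totient) u z (x / m')).image (fun r => m' * r)))
  have h5 : ((Ioc 0 (x / Z)).biUnion
        (fun m' => (RB (c * m'.totient) u z (x / m')).image (fun r => m' * r))).card ≤
      ∑ m ∈ Ioc 0 (x / Z), (RB (c * m.totient) u z (x / m)).card :=
    Finset.card_biUnion_le.trans (Finset.sum_le_sum fun m _ => Finset.card_image_le)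
  rw [Nat.card_Ioc] at h4
  omega

end Pool.LW
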