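import Pool.Agent.Work.MP_aebf03_lw.Interface2

namespace Pool.LW

open Finset

theorem p_EE : S_EE := by
  classical
  intro A u z hA hu
  set S : Finset ℕ := (Q4 u z).filter (fun q => q ∣ A ^ 2 + 1) with hS
  have hmem : ∀ q ∈ S, q.Prime ∧ u < q ∧ q ∣ A ^ 2 + 1 := by
    intro q hq
    rw [hS, mem_filter] at hq
    obtain ⟨h1, h2⟩ := hq
    unfold Q4 at h1
    rw [mem_filter, mem_Ioc] at h1
    exact ⟨h1.2.1, h1.1.1, h2⟩
  have hpos : (0 : ℝ) < u := by exact_mod_cast (by omega : 0 < u)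
  have h1 : ∑ q ∈ S, 1 / (q : ℝ) ≤ S.card * (1 / (u : ℝ)) := by
    rw [← nsmul_eq_mul]
    refine sum_le_card_nsmul _ _ _ fun q hq => ?_
    apply one_div_le_one_div_of_le hpos
    exact_mod_cast (hmem q hq).2.1.le
  have h2 : ∏ q ∈ S, q ∣ A ^ 2 + 1 :=
    Finset.prod_primes_dvd _ (fun q hq => (hmem q hq).1.prime) (fun q hq => (hmem q hq).2.2)
  have h3 : 2 ^ S.card ≤ A ^ 2 + 1 := by
    refine le_trans ?_ (Nat.le_of_dvd (by positivity) h2)
    rw [← prod_const]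
    exact Finset.prod_le_prod (fun _ _ => Nat.zero_le _) (fun q hq => (hmem q hq).1.two_le)
  have h4 : (S.card : ℝ) * Real.log 2 ≤ Real.log ((A : ℝ) ^ 2 + 1) := by
    rw [← Real.log_pow]
    apply Real.log_le_log (by positivity)
    exact_mod_cast h3
  have h5 : (1 / 2 : ℝ) ≤ Real.log 2 := by
    have := Real.log_two_gt_d9
    linarith
  have h6 : (S.card : ℝ) ≤ 2 * Real.log ((A : ℝ) ^ 2 + 1) := by
    have h7 : (0 : ℝ) ≤ S.card := Nat.cast_nonneg _
    nlinarith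
  calc ∑ q ∈ S, 1 / (q : ℝ) ≤ S.card * (1 / (u : ℝ)) := h1
    _ ≤ 2 * Real.log ((A : ℝ) ^ 2 + 1) * (1 / (u : ℝ)) :=
        mul_le_mul_of_nonneg_right h6 (by positivity)
    _ = _ := by ring

end Pool.LW
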