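import Pool.Agent.Work.MP_aebf03_lw.Interface2

/-! Block FIN2, second copy (helper48) -/

set_option autoImplicit false

namespace Pool.LW

open Finset Filter

theorem FIN2h48_par (s : ℕ) (hs : 1 ≤ s) (L ℓ : ℝ) (hL : L = Real.exp ℓ)
    (hℓ : 432 * (s : ℝ) + 8 ≤ ℓ) : ∃ u z : ℕ,
    L ^ 2 ≤ u ∧ (u : ℝ) ≤ L ^ 2 + 1 ∧ u ≤ z ∧ L ^ 3 ≤ z ∧ (z : ℝ) ≤ Real.exp (L / 2) ∧
    ((z ^ (2 * s) : ℕ) : ℝ) ≤ Real.exp L ∧ Real.log ((z ^ (2 * s) : ℕ) : ℝ) ≤ L / (6 * ℓ) ∧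
    L / (24 * s * ℓ) ≤ Real.log z := by
  have hs1 : (1 : ℝ) ≤ s := by exact_mod_cast hs
  have hℓ0 : 0 < ℓ := by linarith
  have hL0 : 0 < L := by rw [hL]; exact Real.exp_pos _
  have hLs : 72 * s * ℓ ^ 2 ≤ L := by
    have h1 := Real.pow_div_factorial_le_exp ℓ hℓ0.le 3
    rw [← hL] at h1
    have h2 : ((Nat.factorial 3 : ℕ) : ℝ) = 6 := by norm_num [Nat.factorial]
    rw [h2, div_le_iff₀ (by norm_num)] at h1
    have h3 : ℓ ^ 3 = ℓ * ℓ ^ 2 := by ring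
    have h4 : 0 ≤ ℓ ^ 2 := by positivity
    have h5 : (432 * (s : ℝ)) * ℓ ^ 2 ≤ ℓ * ℓ ^ 2 :=
      mul_le_mul_of_nonneg_right (by linarith) h4
    nlinarith
  have hL1 : 9 ≤ L := by
    have := Real.add_one_le_exp ℓ
    rw [← hL] at this
    linarith
  obtain ⟨a, ha⟩ : ∃ a, a = L / (24 * s * ℓ) := ⟨_, rfl⟩
  have hden : 0 < 24 * (s : ℝ) * ℓ := by positivity
  have ha3 : 3 * ℓ ≤ a := by
    rw [ha, le_div_iff₀ hden]
    nlinarith
  have ha1 : 1 ≤ a := by linarith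
  have haL : a * (24 * s * ℓ) = L := by rw [ha]; field_simp
  have hea : 2 ≤ Real.exp a := by
    have := Real.add_one_le_exp a
    linarith
  have he2 : Real.exp (2 * a) = Real.exp a * Real.exp a := by
    rw [← Real.exp_add]; ring_nf
  have hz2 : (⌊Real.exp (2 * a)⌋₊ : ℝ) ≤ Real.exp (2 * a) := Nat.floor_le (Real.exp_pos _).le
  have hz1 : Real.exp a ≤ (⌊Real.exp (2 * a)⌋₊ : ℝ) := by
    have := Nat.lt_floor_add_one (Real.exp (2 * a))
    nlinarith
  have hz3 : L ^ 3 ≤ (⌊Real.exp (2 * a)⌋₊ : ℝ) := by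
    refine le_trans ?_ hz1
    have : L ^ 3 = Real.exp (3 * ℓ) := by
      rw [hL, ← Real.exp_nat_mul]; norm_num
    rw [this]
    exact Real.exp_le_exp.2 ha3
  have hu1 : L ^ 2 ≤ (⌈L ^ 2⌉₊ : ℝ) := Nat.le_ceil _
  have hu2 : (⌈L ^ 2⌉₊ : ℝ) ≤ L ^ 2 + 1 := (Nat.ceil_lt_add_one (by positivity)).le
  have hzpos : (0 : ℝ) < (⌊Real.exp (2 * a)⌋₊ : ℝ) := lt_of_lt_of_le (Real.exp_pos _) hz1
  refine ⟨⌈L ^ 2⌉₊, ⌊Real.exp (2 * a)⌋₊, hu1, hu2, ?_, hz3, ?_, ?_, ?_, ?_⟩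
  · have h1 : (⌈L ^ 2⌉₊ : ℝ) ≤ (⌊Real.exp (2 * a)⌋₊ : ℝ) := by
      refine hu2.trans (le_trans ?_ hz3)
      have : L ^ 3 = L * L ^ 2 := by ring
      rw [this]
      nlinarith
    exact_mod_cast h1
  · refine hz2.trans (Real.exp_le_exp.2 ?_)
    have h1 : 1 ≤ (s : ℝ) * ℓ := by nlinarith
    nlinarith
  · rw [Nat.cast_pow]
    have h1 : (⌊Real.exp (2 * a)⌋₊ : ℝ) ^ (2 * s) ≤ Real.exp (2 * a) ^ (2 * s) :=
      pow_le_pow_left₀ hzpos.le hz2 _
    refine h1.trans ?_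
    rw [← Real.exp_nat_mul]
    apply Real.exp_le_exp.2
    push_cast
    nlinarith [mul_nonneg (mul_nonneg (by linarith : (0 : ℝ) ≤ a) (by linarith : (0 : ℝ) ≤ (s : ℝ)))
      (by linarith : (0 : ℝ) ≤ ℓ - 1)]
  · rw [Nat.cast_pow, Real.log_pow]
    have h1 : Real.log (⌊Real.exp (2 * a)⌋₊ : ℝ) ≤ 2 * a := by
      have h0 := Real.log_le_log hzpos hz2
      rwa [Real.log_exp] at h0
    rw [le_div_iff₀ (by positivity)]
    push_cast
    have h2 : 2 * (s : ℝ) * Real.log (⌊Real.exp (2 * a)⌋₊ : ℝ) * (6 * ℓ) ≤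
        2 * (s : ℝ) * (2 * a) * (6 * ℓ) := by
      apply mul_le_mul_of_nonneg_right _ (by positivity)
      exact mul_le_mul_of_nonneg_left h1 (by positivity)
    have h3 : 2 * (s : ℝ) * (2 * a) * (6 * ℓ) = L := by rw [← haL]; ring
    linarith
  · rw [← ha]
    have h1 := Real.log_le_log (Real.exp_pos a) hz1
    rwa [Real.log_exp] at h1

/-- Block FIN2. -/
theorem p_FIN2 (hSUM2 : S_SUM2) (hSM2 : S_SM2) (hSQR : S_SQR) (hDEC2 : S_DEC2) (hDS : S_DS) :
    S_FIN2 := by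
  obtain ⟨s, hs, C1, hC1, h1⟩ := hSUM2
  obtain ⟨C2, hC2, h2⟩ := hDS
  obtain ⟨C3, hC3, h3⟩ := hSM2
  have hs1 : (1 : ℝ) ≤ s := by exact_mod_cast hs
  have htend : Tendsto (fun x : ℕ => Real.log (Real.log (x : ℝ))) atTop atTop :=
    Real.tendsto_log_atTop.comp (Real.tendsto_log_atTop.comp tendsto_natCast_atTop_atTop)
  obtain ⟨X2, hX2⟩ := eventually_atTop.1 (htend.eventually_ge_atTop (432 * (s : ℝ) + 8))
  refine ⟨C3 + 3 + 3456 * C1 * s ^ 2 + 240 * C1 * C2 * s, by positivity, max X2 3,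
    fun x hx c hc hcL => ?_⟩
  have hxX2 : X2 ≤ x := (le_max_left _ _).trans hx
  have hx3 : 3 ≤ x := (le_max_right _ _).trans hx
  have hℓ := hX2 x hxX2
  obtain ⟨ℓ, hℓdef⟩ : ∃ ℓ, ℓ = Real.log (Real.log (x : ℝ)) := ⟨_, rfl⟩
  obtain ⟨L, hLdef⟩ : ∃ L, L = Real.log (x : ℝ) := ⟨_, rfl⟩
  rw [← hℓdef] at hℓ
  have hxr : (3 : ℝ) ≤ x := by exact_mod_cast hx3
  have hL0 : 0 < L := by rw [hLdef]; exact Real.log_pos (by linarith)
  have hLe : L = Real.exp ℓ := by rw [hℓdef, ← hLdef, Real.exp_log hL0]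
  have hxe : Real.exp L = x := by rw [hLdef, Real.exp_log (by linarith)]
  have hℓ0 : 0 < ℓ := by linarith
  have hℓ1 : 8 ≤ ℓ := by linarith
  have hL1 : 400 ≤ L := by
    have := Real.add_one_le_exp ℓ
    rw [← hLe] at this
    linarith
  obtain ⟨u, z, hu1, hu2, huz, hz3, hzx, hZx, hlZ, hlz⟩ := FIN2h48_par s hs L ℓ hLe hℓ
  rw [← hℓdef, ← hLdef]
  rw [← hLdef] at hcL
  rw [hxe] at hZx
  have hL2 : L ≤ L ^ 2 := by nlinarith
  have hL3 : L ^ 2 ≤ L ^ 3 := by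
    have : L ^ 3 = L * L ^ 2 := by ring
    rw [this]; nlinarith
  have hZx' : z ^ (2 * s) ≤ x := by exact_mod_cast hZx
  have hzs : z ≤ z ^ (2 * s) := Nat.le_self_pow (by omega) z
  have hz8r : (8 : ℝ) ≤ z := by linarith
  have hz8 : 8 ≤ z := by exact_mod_cast hz8r
  have hu5r : (5 : ℝ) ≤ u := by linarith
  have hu5 : 5 ≤ u := by exact_mod_cast hu5r
  have hcu : c ≤ u := by
    have : (c : ℝ) ≤ u := by linarith
    exact_mod_cast this
  have hcx : c ≤ x := hcu.trans (huz.trans (hzs.trans hZx'))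
  have hur : (0 : ℝ) < u := by linarith
  have hzr : (0 : ℝ) < z := by linarith
  have hsum := h1 c x u z hc hcx hu5 huz hZx' (by rw [← hLdef]; nlinarith)
  have hds := h2 c u z x hc hcu (by omega) hx3
  have hsm := h3 x (z ^ (2 * s)) (by omega) (by omega)
  have hsq := hSQR x (z ^ (2 * s)) (by omega)
  have hdec := hDEC2 c x (z ^ (2 * s)) u z hc (by omega)
  rw [← hLdef] at hsum hsm
  rw [← hℓdef, ← hLdef] at hds
  have hxpos : (0 : ℝ) < x := by linarith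
  -- log u
  have hlu : Real.log u ≤ 3 * ℓ := by
    have h4 : (u : ℝ) ≤ Real.exp (3 * ℓ) := by
      have : L ^ 3 = Real.exp (3 * ℓ) := by
        rw [hLe, ← Real.exp_nat_mul]; norm_num
      rw [← this]
      have h5 : L ^ 3 = L * L ^ 2 := by ring
      rw [h5]
      nlinarith
    have h6 := Real.log_le_log hur h4
    rwa [Real.log_exp] at h6
  have hlu0 : 0 ≤ Real.log u := Real.log_nonneg (by linarith)
  have hK : 0 ≤ (x : ℝ) * ℓ ^ 3 / L := by positivity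
  have hℓ3 : 1 ≤ ℓ ^ 3 := one_le_pow₀ (by linarith)
  have hxL : (x : ℝ) / L ≤ x * ℓ ^ 3 / L := by
    apply div_le_div_of_nonneg_right _ hL0.le
    nlinarith
  -- Smo
  have e1 : ((Smo x (z ^ (2 * s))).card : ℝ) ≤ C3 * (x * ℓ ^ 3 / L) := by
    refine hsm.trans (mul_le_mul_of_nonneg_left ?_ hC3.le)
    obtain ⟨w, hw⟩ : ∃ w, w = Real.log ((z ^ (2 * s) : ℕ) : ℝ) := ⟨_, rfl⟩
    rw [← hw] at hlZ ⊢
    have hw0 : 0 < w := by
      rw [hw]
      apply Real.log_pos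
      have : (1 : ℝ) < z := by linarith
      exact_mod_cast lt_of_lt_of_le (by omega : 1 < z) hzs
    have h4 : 3 * ℓ ≤ L / (2 * w) := by
      rw [le_div_iff₀ (by positivity)]
      rw [le_div_iff₀ (by positivity)] at hlZ
      nlinarith
    have h5 : Real.exp (-(L / (2 * w))) ≤ 1 / L ^ 3 := by
      have h6 : 1 / L ^ 3 = Real.exp (-(3 * ℓ)) := by
        rw [Real.exp_neg, one_div]
        congr 1
        rw [hLe, ← Real.exp_nat_mul]; norm_num
      rw [h6]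
      exact Real.exp_le_exp.2 (by linarith)
    have hwL : w ≤ L := by
      refine hlZ.trans ?_
      rw [div_le_iff₀ (by positivity)]
      nlinarith
    calc (x : ℝ) * w * Real.exp (-(L / (2 * w))) ≤ x * L * (1 / L ^ 3) := by
          apply mul_le_mul _ h5 (Real.exp_pos _).le (by positivity)
          exact mul_le_mul_of_nonneg_left hwL hxpos.le
      _ = (x : ℝ) / L * (1 / L) := by field_simp
      _ ≤ (x : ℝ) / L * 1 := by
          apply mul_le_mul_of_nonneg_left _ (by positivity)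
          rw [div_le_one hL0]; linarith
      _ ≤ x * ℓ ^ 3 / L := by rw [mul_one]; exact hxL
  -- Sqr
  have hzL : L ≤ z := by linarith
  have e2 : ((Sqr x (z ^ (2 * s))).card : ℝ) ≤ x * ℓ ^ 3 / L := by
    refine hsq.trans (le_trans ?_ hxL)
    apply div_le_div_of_nonneg_left hxpos.le hL0
    have : (z : ℝ) ≤ ((z ^ (2 * s) : ℕ) : ℝ) := by exact_mod_cast hzs
    linarith
  -- 2 z
  have e3 : 2 * (z : ℝ) ≤ x * ℓ ^ 3 / L := by
    refine le_trans ?_ hxL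
    rw [le_div_iff₀ hL0, ← hxe]
    have h4 : Real.exp L = Real.exp (L / 2) * Real.exp (L / 2) := by
      rw [← Real.exp_add]; ring_nf
    have h5 := Real.pow_div_factorial_le_exp (L / 2) (by linarith) 2
    have h6 : ((Nat.factorial 2 : ℕ) : ℝ) = 2 := by norm_num [Nat.factorial]
    rw [h6] at h5
    have h7 : 2 * L ≤ Real.exp (L / 2) := by nlinarith
    rw [h4]
    have h8 := Real.exp_pos (L / 2)
    calc 2 * (z : ℝ) * L = z * (2 * L) := by ring
      _ ≤ Real.exp (L / 2) * Real.exp (L / 2) :=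
        mul_le_mul hzx h7 (by linarith) h8.le
  -- x / z^(2s) * z
  have e4 : (x : ℝ) / (z : ℝ) ^ (2 * s) * z ≤ x * ℓ ^ 3 / L := by
    refine le_trans ?_ hxL
    have h4 : (z : ℝ) ^ 2 ≤ (z : ℝ) ^ (2 * s) :=
      pow_le_pow_right₀ (by linarith) (by omega)
    have h5 : (x : ℝ) / (z : ℝ) ^ (2 * s) ≤ x / (z : ℝ) ^ 2 :=
      div_le_div_of_nonneg_left hxpos.le (by positivity) h4
    calc (x : ℝ) / (z : ℝ) ^ (2 * s) * z ≤ x / (z : ℝ) ^ 2 * z :=
          mul_le_mul_of_nonneg_right h5 hzr.le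
      _ = x / z := by field_simp
      _ ≤ x / L := div_le_div_of_nonneg_left hxpos.le hL0 hzL
  -- log z
  have hlz0 : 0 < Real.log z := Real.log_pos (by linarith)
  have hinv : 1 / Real.log z ≤ 24 * s * ℓ / L := by
    rw [div_le_div_iff₀ hlz0 hL0]
    rw [div_le_iff₀ (by positivity)] at hlz
    linarith
  have e5 : C1 * (x * Real.log u * (1 + L) / Real.log z ^ 2) ≤
      3456 * C1 * s ^ 2 * (x * ℓ ^ 3 / L) := by
    have h4 : (1 / Real.log z) ^ 2 ≤ (24 * s * ℓ / L) ^ 2 :=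
      pow_le_pow_left₀ (by positivity) hinv 2
    have h5 : x * Real.log u * (1 + L) / Real.log z ^ 2 =
        (x * Real.log u * (1 + L)) * (1 / Real.log z) ^ 2 := by
      field_simp
    rw [h5]
    have h6 : x * Real.log u * (1 + L) ≤ x * (3 * ℓ) * (2 * L) := by
      apply mul_le_mul _ (by linarith) (by linarith) (by positivity)
      exact mul_le_mul_of_nonneg_left hlu hxpos.le
    have h7 : (x * Real.log u * (1 + L)) * (1 / Real.log z) ^ 2 ≤
        (x * (3 * ℓ) * (2 * L)) * (24 * s * ℓ / L) ^ 2 :=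
      mul_le_mul h6 h4 (by positivity) (by positivity)
    have h8 : (x * (3 * ℓ) * (2 * L)) * (24 * s * ℓ / L) ^ 2 =
        3456 * s ^ 2 * (x * ℓ ^ 3 / L) := by
      field_simp
      ring
    calc C1 * ((x * Real.log u * (1 + L)) * (1 / Real.log z) ^ 2) ≤
        C1 * (3456 * s ^ 2 * (x * ℓ ^ 3 / L)) := by
          rw [← h8]
          exact mul_le_mul_of_nonneg_left h7 hC1.le
      _ = _ := by ring
  have e6 : C1 * (x / Real.log z) * ∑ m ∈ Ioc 0 x, DD c u z m / m ≤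
      240 * C1 * C2 * s * (x * ℓ ^ 3 / L) := by
    have h4 : ∑ m ∈ Ioc 0 x, DD c u z m / m ≤ C2 * (2 * L) * (5 * ℓ) / L ^ 2 := by
      refine hds.trans ?_
      apply div_le_div₀ (by positivity) _ (by positivity) hu1
      apply mul_le_mul _ (by linarith) (by linarith) (by positivity)
      exact mul_le_mul_of_nonneg_left (by linarith) hC2.le
    have h5 : C1 * (x / Real.log z) ≤ C1 * (x * (24 * s * ℓ / L)) := by
      apply mul_le_mul_of_nonneg_left _ hC1.le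
      have : (x : ℝ) / Real.log z = x * (1 / Real.log z) := by ring
      rw [this]
      exact mul_le_mul_of_nonneg_left hinv hxpos.le
    have h6 : C1 * (x / Real.log z) * ∑ m ∈ Ioc 0 x, DD c u z m / m ≤
        C1 * (x * (24 * s * ℓ / L)) * (C2 * (2 * L) * (5 * ℓ) / L ^ 2) := by
      refine (mul_le_mul_of_nonneg_left h4 (by positivity)).trans ?_
      exact mul_le_mul_of_nonneg_right h5 (by positivity)
    refine h6.trans ?_
    have h7 : C1 * (x * (24 * s * ℓ / L)) * (C2 * (2 * L) * (5 * ℓ) / L ^ 2) =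
        240 * C1 * C2 * s * (x * ℓ ^ 2 / L * (1 / L)) := by
      field_simp
      ring
    rw [h7]
    apply mul_le_mul_of_nonneg_left _ (by positivity)
    have h8 : x * ℓ ^ 2 / L * (1 / L) ≤ x * ℓ ^ 2 / L * 1 := by
      apply mul_le_mul_of_nonneg_left _ (by positivity)
      rw [div_le_one hL0]; linarith
    refine h8.trans ?_
    rw [mul_one]
    apply div_le_div_of_nonneg_right _ hL0.le
    apply mul_le_mul_of_nonneg_left _ hxpos.le
    exact pow_le_pow_right₀ (by linarith) (by norm_num)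
  have hdecr : ((Bad c x).card : ℝ) ≤ (Smo x (z ^ (2 * s))).card +
      (Sqr x (z ^ (2 * s))).card + 2 * (z : ℝ) +
      ∑ m ∈ Ioc 0 (x / z ^ (2 * s)), ((RB (c * m.totient) u z (x / m)).card : ℝ) := by
    exact_mod_cast hdec
  refine hdecr.trans ?_
  have hfin : (C3 + 3 + 3456 * C1 * s ^ 2 + 240 * C1 * C2 * s) * (x * ℓ ^ 3 / L) =
      C3 * (x * ℓ ^ 3 / L) + x * ℓ ^ 3 / L + x * ℓ ^ 3 / L + x * ℓ ^ 3 / L +
      3456 * C1 * s ^ 2 * (x * ℓ ^ 3 / L) + 240 * C1 * C2 * s * (x * ℓ ^ 3 / L) := by ring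
  rw [hfin]
  linarith

end Pool.LW
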