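import Pool.Agent.Work.MP_aebf03_lw.Interface2
import Pool.Agent.Work.MP_b0c12c_nt_helper41.Mert

/-!
# MP_aebf03_nt: block LLB (lower bound for the sum of the large sieve, Rankin)
-/

set_option autoImplicit false

namespace Pool.LW

open Finset
open Pool.Agent.Work.MP_b0c12c_nt_helper41 (FF FF_le)

/-- squarefree product and subsets -/
theorem LLB_primeFactors {T : Finset ℕ} (hT : ∀ q ∈ T, q.Prime) : (∏ q ∈ T, q).primeFactors = T :=
  Nat.primeFactors_prod hT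

theorem LLB_ge {P : Finset ℕ} {w : ℕ → ℕ} {D : ℕ} (hP : ∀ q ∈ P, q.Prime) (hw : ∀ q ∈ P, w q < q) :
    ∑ T ∈ P.powerset.filter (fun T => ∏ q ∈ T, q ≤ D), ∏ q ∈ T, (w q : ℝ) / q ≤ LL P w D := by
  unfold LL
  have h1 : ∑ T ∈ P.powerset.filter (fun T => ∏ q ∈ T, q ≤ D), ∏ q ∈ T, (w q : ℝ) / q ≤
      ∑ T ∈ P.powerset.filter (fun T => ∏ q ∈ T, q ≤ D), ∏ q ∈ T, (w q : ℝ) / ((q : ℝ) - w q) := by
    refine sum_le_sum fun T hT => prod_le_prod (fun q _ => by positivity) fun q hq => ?_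
    have hq' := mem_powerset.mp (mem_filter.mp hT).1 hq
    have h2 : (w q : ℝ) < q := by exact_mod_cast hw q hq'
    have h3 : (0 : ℝ) ≤ w q := Nat.cast_nonneg _
    exact div_le_div_of_nonneg_left h3 (by linarith) (by linarith)
  refine h1.trans ?_
  have h2 : ∑ T ∈ P.powerset.filter (fun T => ∏ q ∈ T, q ≤ D), ∏ q ∈ T, (w q : ℝ) / ((q : ℝ) - w q) =
      ∑ l ∈ (P.powerset.filter (fun T => ∏ q ∈ T, q ≤ D)).image (fun T => ∏ q ∈ T, q),
        ∏ q ∈ l.primeFactors, (w q : ℝ) / ((q : ℝ) - w q) := by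
    rw [sum_image]
    · refine sum_congr rfl fun T hT => ?_
      have hT' := mem_powerset.mp (mem_filter.mp hT).1
      rw [LLB_primeFactors fun q hq => hP q (hT' hq)]
    · intro T hT T' hT' he
      have a1 := mem_powerset.mp (mem_filter.mp hT).1
      have a2 := mem_powerset.mp (mem_filter.mp hT').1
      rw [← LLB_primeFactors fun q hq => hP q (a1 hq), ← LLB_primeFactors fun q hq => hP q (a2 hq)]
      exact congr_arg Nat.primeFactors he
  rw [h2]
  refine sum_le_sum_of_subset_of_nonneg ?_ ?_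
  · intro l hl
    obtain ⟨T, hT, rfl⟩ := mem_image.mp hl
    obtain ⟨hT1, hT2⟩ := mem_filter.mp hT
    refine mem_filter.mpr ⟨Nat.mem_divisors.mpr ⟨prod_dvd_prod_of_subset _ _ _ (mem_powerset.mp hT1), ?_⟩, hT2⟩
    exact prod_ne_zero_iff.mpr fun q hq => (hP q hq).ne_zero
  · intro l hl _
    refine prod_nonneg fun q hq => ?_
    have hl' := (mem_filter.mp hl).1
    have hq' : q ∈ P := by
      have h3 := Nat.primeFactors_mono (Nat.dvd_of_mem_divisors hl')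
        (prod_ne_zero_iff.mpr fun q hq => (hP q hq).ne_zero) hq
      rwa [LLB_primeFactors hP] at h3
    have h2 : (w q : ℝ) < q := by exact_mod_cast hw q hq'
    have h3 : (0 : ℝ) ≤ w q := Nat.cast_nonneg _
    exact div_nonneg h3 (by linarith)

/-- Rankin -/
theorem LLB_rankin {P : Finset ℕ} {g : ℕ → ℝ} {D : ℕ} {η : ℝ} (hη : 0 ≤ η) (hD : 1 ≤ D)
    (hg : ∀ q ∈ P, 0 ≤ g q) :
    ∏ q ∈ P, (1 + g q) - (D : ℝ) ^ (-η) * ∏ q ∈ P, (1 + g q * (q : ℝ) ^ η) ≤
      ∑ T ∈ P.powerset.filter (fun T => ∏ q ∈ T, q ≤ D), ∏ q ∈ T, g q := by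
  have h1 : ∏ q ∈ P, (1 + g q) = ∑ T ∈ P.powerset, ∏ q ∈ T, g q := prod_one_add _
  have h2 : ∏ q ∈ P, (1 + g q * (q : ℝ) ^ η) = ∑ T ∈ P.powerset, ∏ q ∈ T, (g q * (q : ℝ) ^ η) := prod_one_add _
  have hD0 : (0 : ℝ) < D := by exact_mod_cast hD
  rw [h1, h2, ← sum_filter_add_sum_filter_not P.powerset (fun T => ∏ q ∈ T, q ≤ D), mul_sum]
  have h3 : ∑ T ∈ P.powerset.filter (fun T => ¬ ∏ q ∈ T, q ≤ D), ∏ q ∈ T, g q ≤
      ∑ T ∈ P.powerset, (D : ℝ) ^ (-η) * ∏ q ∈ T, (g q * (q : ℝ) ^ η) := by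
    have h4 : ∑ T ∈ P.powerset.filter (fun T => ¬ ∏ q ∈ T, q ≤ D), ∏ q ∈ T, g q ≤
        ∑ T ∈ P.powerset.filter (fun T => ¬ ∏ q ∈ T, q ≤ D),
          (D : ℝ) ^ (-η) * ∏ q ∈ T, (g q * (q : ℝ) ^ η) := by
      refine sum_le_sum fun T hT => ?_
      obtain ⟨hT1, hT2⟩ := mem_filter.mp hT
      have hT1' := mem_powerset.mp hT1
      have h5 : 0 ≤ ∏ q ∈ T, g q := prod_nonneg fun q hq => hg q (hT1' hq)
      have h6 : ∏ q ∈ T, (g q * (q : ℝ) ^ η) = (∏ q ∈ T, g q) * ((∏ q ∈ T, q : ℕ) : ℝ) ^ η := by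
        rw [prod_mul_distrib, Nat.cast_prod, ← Real.finsetProd_rpow _ _ fun q _ => Nat.cast_nonneg q]
      have h7 : (D : ℝ) ^ η ≤ ((∏ q ∈ T, q : ℕ) : ℝ) ^ η := by
        refine Real.rpow_le_rpow hD0.le ?_ hη
        exact_mod_cast (not_le.mp hT2).le
      have h8 : (D : ℝ) ^ (-η) * (D : ℝ) ^ η = 1 := by
        rw [← Real.rpow_add hD0]; simp
      have h9 : 0 ≤ (D : ℝ) ^ (-η) := Real.rpow_nonneg hD0.le _
      rw [h6]
      calc ∏ q ∈ T, g q = (∏ q ∈ T, g q) * ((D : ℝ) ^ (-η) * (D : ℝ) ^ η) := by rw [h8, mul_one]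
        _ ≤ (∏ q ∈ T, g q) * ((D : ℝ) ^ (-η) * ((∏ q ∈ T, q : ℕ) : ℝ) ^ η) :=
            mul_le_mul_of_nonneg_left (mul_le_mul_of_nonneg_left h7 h9) h5
        _ = _ := by ring
    refine h4.trans (sum_le_sum_of_subset_of_nonneg (filter_subset _ _) fun T hT _ => ?_)
    refine mul_nonneg (Real.rpow_nonneg hD0.le _) (prod_nonneg fun q hq => ?_)
    exact mul_nonneg (hg q (mem_powerset.mp hT hq)) (Real.rpow_nonneg (Nat.cast_nonneg _) _)
  linarith

theorem LLB_D {z D : ℕ} (hz : 2 ≤ z) (hD : z ^ 60 ≤ D) :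
    (D : ℝ) ^ (-(1 / (2 * Real.log z))) ≤ Real.exp (-30) := by
  have hz1 : (1 : ℝ) < z := by exact_mod_cast (by omega : 1 < z)
  have hl : 0 < Real.log z := Real.log_pos hz1
  have hz0 : (0 : ℝ) < (z : ℝ) ^ 60 := by positivity
  have hD' : ((z : ℝ) ^ 60) ≤ D := by exact_mod_cast hD
  have hD0 : (0 : ℝ) < D := lt_of_lt_of_le hz0 hD'
  have h1 : 60 * Real.log z ≤ Real.log D := by
    have := Real.log_le_log hz0 hD'
    rwa [Real.log_pow, Nat.cast_ofNat] at this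
  rw [Real.rpow_def_of_pos hD0]
  apply Real.exp_le_exp.mpr
  rw [mul_neg, neg_le_neg_iff, mul_one_div, le_div_iff₀ (by positivity)]
  linarith

theorem LLB_q {z q : ℕ} (hz : 2 ≤ z) (hq : 2 ≤ q) (hqz : q ≤ z) :
    (q : ℝ) ^ (1 / (2 * Real.log z)) ≤ 1 + Real.log q / Real.log z := by
  have hz1 : (1 : ℝ) < z := by exact_mod_cast (by omega : 1 < z)
  have hl : 0 < Real.log z := Real.log_pos hz1
  have hq1 : (1 : ℝ) < q := by exact_mod_cast (by omega : 1 < q)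
  have hlq : 0 < Real.log q := Real.log_pos hq1
  have hle : Real.log q ≤ Real.log z := Real.log_le_log (by linarith) (by exact_mod_cast hqz)
  rw [Real.rpow_def_of_pos (by linarith)]
  set t : ℝ := Real.log q / Real.log z with ht
  have ht0 : 0 ≤ t := div_nonneg hlq.le hl.le
  have ht1 : t ≤ 1 := (div_le_one hl).mpr hle
  have e : Real.log q * (1 / (2 * Real.log z)) = t / 2 := by rw [ht]; field_simp
  rw [e]
  have h1 : 1 - t / 2 ≤ Real.exp (-(t / 2)) := Real.one_sub_le_exp_neg _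
  have h2 : Real.exp (t / 2) * Real.exp (-(t / 2)) = 1 := by rw [← Real.exp_add]; simp
  have h3 : 0 < Real.exp (t / 2) := Real.exp_pos _
  have h4 : Real.exp (t / 2) * (1 - t / 2) ≤ 1 := by
    calc _ ≤ Real.exp (t / 2) * Real.exp (-(t / 2)) := mul_le_mul_of_nonneg_left h1 h3.le
      _ = 1 := h2
  nlinarith

/-- Mertens for the set `P` -/
theorem LLB_mer {z : ℕ} {P : Finset ℕ} (hz : 2 ≤ z) (hP : ∀ q ∈ P, q.Prime ∧ q ≤ z) :
    ∑ q ∈ P, Real.log q / q ≤ Real.log z + 6 := by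
  refine le_trans ?_ (FF_le (by omega : 1 ≤ z))
  unfold FF
  refine sum_le_sum_of_subset_of_nonneg ?_ ?_
  · intro q hq
    have := hP q hq
    exact mem_filter.mpr ⟨mem_Icc.mpr ⟨this.1.one_lt.le, this.2⟩, this.1⟩
  · intro q hq _
    have := (mem_Icc.mp (mem_filter.mp hq).1).1
    exact div_nonneg (Real.log_natCast_nonneg _) (Nat.cast_nonneg _)

theorem LLB_upper {z : ℕ} {P : Finset ℕ} {w : ℕ → ℕ} (hz : 2 ≤ z) (hP : ∀ q ∈ P, q.Prime ∧ q ≤ z)
    (hw : ∀ q ∈ P, w q ≤ 3) :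
    ∏ q ∈ P, (1 + (w q : ℝ) / q * (q : ℝ) ^ (1 / (2 * Real.log z))) ≤
      (∏ q ∈ P, (1 + (w q : ℝ) / q)) * Real.exp 29 := by
  have hz1 : (1 : ℝ) < z := by exact_mod_cast (by omega : 1 < z)
  have hl : 0 < Real.log z := Real.log_pos hz1
  have h1 : ∏ q ∈ P, (1 + (w q : ℝ) / q * (q : ℝ) ^ (1 / (2 * Real.log z))) ≤
      ∏ q ∈ P, ((1 + (w q : ℝ) / q) * Real.exp (3 / Real.log z * (Real.log q / q))) := by
    refine prod_le_prod (fun q _ => by positivity) fun q hq => ?_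
    obtain ⟨hqp, hqz⟩ := hP q hq
    have hq0 : (0 : ℝ) < q := by exact_mod_cast hqp.pos
    have h2 := LLB_q hz hqp.two_le hqz
    have h3 : (w q : ℝ) ≤ 3 := by exact_mod_cast hw q hq
    have h4 : (0 : ℝ) ≤ (w q : ℝ) / q := by positivity
    have hlq : 0 ≤ Real.log q := Real.log_natCast_nonneg _
    have h5 : (w q : ℝ) / q ≤ 3 / q := div_le_div_of_nonneg_right h3 hq0.le
    have h6 : 3 / Real.log z * (Real.log q / q) + 1 ≤ Real.exp (3 / Real.log z * (Real.log q / q)) :=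
      Real.add_one_le_exp _
    calc 1 + (w q : ℝ) / q * (q : ℝ) ^ (1 / (2 * Real.log z))
        ≤ 1 + (w q : ℝ) / q * (1 + Real.log q / Real.log z) := by
          have := mul_le_mul_of_nonneg_left h2 h4
          linarith
      _ = 1 + (w q : ℝ) / q + (w q : ℝ) / q * (Real.log q / Real.log z) := by ring
      _ ≤ 1 + (w q : ℝ) / q + 3 / q * (Real.log q / Real.log z) := by
          have := mul_le_mul_of_nonneg_right h5 (div_nonneg hlq hl.le)
          linarith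
      _ = 1 + (w q : ℝ) / q + 3 / Real.log z * (Real.log q / q) := by ring
      _ ≤ (1 + (w q : ℝ) / q) * (3 / Real.log z * (Real.log q / q) + 1) := by
          have h7 : 0 ≤ 3 / Real.log z * (Real.log q / q) := by positivity
          nlinarith [mul_nonneg h4 h7]
      _ ≤ _ := mul_le_mul_of_nonneg_left h6 (by positivity)
  refine h1.trans ?_
  rw [prod_mul_distrib, ← Real.exp_sum, ← mul_sum]
  refine mul_le_mul_of_nonneg_left (Real.exp_le_exp.mpr ?_) (prod_nonneg fun q _ => by positivity)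
  have h2 := LLB_mer hz hP
  have h3 : 3 / Real.log z * ∑ q ∈ P, Real.log q / q ≤ 3 / Real.log z * (Real.log z + 6) :=
    mul_le_mul_of_nonneg_left h2 (by positivity)
  refine h3.trans ?_
  have h4 : 3 / Real.log z * (Real.log z + 6) = 3 + 18 / Real.log z := by field_simp; ring
  rw [h4]
  have h5 : (0.6931471803 : ℝ) < Real.log 2 := Real.log_two_gt_d9
  have h6 : Real.log 2 ≤ Real.log z := Real.log_le_log (by norm_num) (by exact_mod_cast hz)
  have h7 : 18 / Real.log z ≤ 26 := by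
    rw [div_le_iff₀ hl]
    linarith
  linarith

theorem LLB_lower {z : ℕ} {P : Finset ℕ} {w : ℕ → ℕ} (hP : ∀ q ∈ P, q.Prime ∧ q ≤ z)
    (hw : ∀ q ∈ P, w q ≤ 3) :
    Real.exp (-18) * Real.exp (∑ q ∈ P, (w q : ℝ) / q) ≤ ∏ q ∈ P, (1 + (w q : ℝ) / q) := by
  have h1 : ∏ q ∈ P, Real.exp ((w q : ℝ) / q - 9 * (1 / (q : ℝ) ^ 2)) ≤ ∏ q ∈ P, (1 + (w q : ℝ) / q) := by
    refine prod_le_prod (fun q _ => (Real.exp_pos _).le) fun q hq => ?_
    have hq0 : (0 : ℝ) < q := by exact_mod_cast (hP q hq).1.pos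
    set t : ℝ := (w q : ℝ) / q with ht
    have ht0 : 0 ≤ t := by positivity
    have h3 : (w q : ℝ) ≤ 3 := by exact_mod_cast hw q hq
    have h4 : t ≤ 3 / q := div_le_div_of_nonneg_right h3 hq0.le
    have h5 : t ^ 2 ≤ 9 * (1 / (q : ℝ) ^ 2) := by
      calc t ^ 2 ≤ (3 / (q : ℝ)) ^ 2 := pow_le_pow_left₀ ht0 h4 2
        _ = _ := by ring
    have h6 : t - t ^ 2 ≤ Real.log (1 + t) := by
      have h7 := Real.one_sub_inv_le_log_of_pos (by linarith : (0 : ℝ) < 1 + t)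
      have h8 : t - t ^ 2 ≤ 1 - (1 + t)⁻¹ := by
        have h9 : (0 : ℝ) < 1 + t := by linarith
        have h10 : 1 - (1 + t)⁻¹ = t / (1 + t) := by field_simp; ring
        rw [h10, le_div_iff₀ h9]
        nlinarith [pow_nonneg ht0 3]
      linarith
    calc Real.exp (t - 9 * (1 / (q : ℝ) ^ 2)) ≤ Real.exp (Real.log (1 + t)) :=
          Real.exp_le_exp.mpr (by linarith)
      _ = 1 + t := Real.exp_log (by linarith)
  refine le_trans ?_ h1
  rw [← Real.exp_sum, ← Real.exp_add]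
  apply Real.exp_le_exp.mpr
  rw [sum_sub_distrib, ← mul_sum]
  have h2 : ∑ q ∈ P, 1 / (q : ℝ) ^ 2 ≤ 2 := by
    have h3 : ∑ q ∈ P, 1 / (q : ℝ) ^ 2 ≤ ∑ q ∈ Ioo 0 (z + 1), ((q : ℝ) ^ 2)⁻¹ := by
      simp only [one_div]
      refine sum_le_sum_of_subset_of_nonneg (fun q hq => ?_) fun q _ _ => by positivity
      exact mem_Ioo.mpr ⟨(hP q hq).1.pos, Nat.lt_succ_of_le (hP q hq).2⟩
    have h4 := sum_Ioo_inv_sq_le (α := ℝ) 0 (z + 1)
    norm_num at h4
    simp only [one_div] at h3 ⊢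
    linarith
  linarith

/-- Block LLB. -/
theorem p_LLB : S_LLB := by
  refine ⟨60, by norm_num, Real.exp (-18) / 2, by positivity, fun z D P w hz hD hP hw => ?_⟩
  have h1 := LLB_ge (D := D) (fun q hq => (hP q hq).1) (fun q hq => (hw q hq).2)
  have hD1 : 1 ≤ D := le_trans (Nat.one_le_pow _ _ (by omega)) hD
  have hz1 : (1 : ℝ) < z := by exact_mod_cast (by omega : 1 < z)
  have hl : 0 < Real.log z := Real.log_pos hz1
  have h2 := LLB_rankin (P := P) (g := fun q => (w q : ℝ) / q) (D := D) (η := 1 / (2 * Real.log z))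
    (by positivity) hD1 (fun q _ => by positivity)
  have h3 := LLB_D hz hD
  have h4 := LLB_upper hz hP (fun q hq => (hw q hq).1)
  have h5 := LLB_lower hP (fun q hq => (hw q hq).1)
  set G := ∏ q ∈ P, (1 + (w q : ℝ) / q) with hG
  have hG0 : 0 ≤ G := prod_nonneg fun q _ => by positivity
  have h6 : (D : ℝ) ^ (-(1 / (2 * Real.log z))) *
      ∏ q ∈ P, (1 + (w q : ℝ) / q * (q : ℝ) ^ (1 / (2 * Real.log z))) ≤ G / 2 := by
    calc _ ≤ Real.exp (-30) * (G * Real.exp 29) :=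
          mul_le_mul h3 h4 (prod_nonneg fun q _ => by positivity) (Real.exp_pos _).le
      _ = G * Real.exp (-1) := by
          rw [show Real.exp (-30) * (G * Real.exp 29) = G * (Real.exp (-30) * Real.exp 29) by ring,
            ← Real.exp_add]
          norm_num
      _ ≤ G / 2 := by
          have h7 : Real.exp (-1) ≤ 1 / 2 := by
            rw [Real.exp_neg, inv_eq_one_div]
            refine one_div_le_one_div_of_le (by norm_num) ?_
            have := Real.add_one_le_exp (1 : ℝ)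
            linarith
          nlinarith
  calc Real.exp (-18) / 2 * Real.exp (∑ q ∈ P, (w q : ℝ) / q)
      = (Real.exp (-18) * Real.exp (∑ q ∈ P, (w q : ℝ) / q)) / 2 := by ring
    _ ≤ G / 2 := by linarith
    _ ≤ LL P w D := by linarith

end Pool.LW
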