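import Pool.Agent.Work.MP_aebf03_lw.Interface2

set_option autoImplicit false

namespace Pool.LW

open Finset

/-- the classes -/
theorem NR2_classes (hCL2 : S_CL2) (A u z : ℕ) : ∃ Ω : ℕ → Finset ℕ,
    (∀ q ∈ (Q4 u z).filter (fun q => ¬ (q ∣ A ∨ q ∣ A ^ 2 + 1)), (Ω q).card = 3 ∧ (∀ c ∈ Ω q, c < q) ∧
      ∀ r : ℕ, 1 ≤ r → r % q ∈ Ω q → r % q = 0 ∨ q ∣ (A * (r - 1)) ^ 2 + 1) ∧
    ∀ q, q ∉ (Q4 u z).filter (fun q => ¬ (q ∣ A ∨ q ∣ A ^ 2 + 1)) → Ω q = {0} := by
  classical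
  have h : ∀ q : ℕ, ∃ T : Finset ℕ,
      (q ∈ (Q4 u z).filter (fun q => ¬ (q ∣ A ∨ q ∣ A ^ 2 + 1)) → T.card = 3 ∧ (∀ c ∈ T, c < q) ∧
        ∀ r : ℕ, 1 ≤ r → r % q ∈ T → r % q = 0 ∨ q ∣ (A * (r - 1)) ^ 2 + 1) ∧
      (q ∉ (Q4 u z).filter (fun q => ¬ (q ∣ A ∨ q ∣ A ^ 2 + 1)) → T = {0}) := by
    intro q
    by_cases hq : q ∈ (Q4 u z).filter (fun q => ¬ (q ∣ A ∨ q ∣ A ^ 2 + 1))
    · have hq' := hq
      simp only [Q4, mem_filter, mem_Ioc, not_or] at hq'
      obtain ⟨⟨⟨h1, h2⟩, hp, h4⟩, h5, h6⟩ := hq'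
      obtain ⟨b, b', hb0, hbq, hb0', hbq', hne, hr⟩ := hCL2 q hp h4 A h5 h6
      refine ⟨{0, b, b'}, fun _ => ⟨?_, ?_, ?_⟩, fun hn => absurd hq hn⟩
      · rw [card_insert_of_notMem, card_pair hne]
        simp only [mem_insert, mem_singleton, not_or]
        exact ⟨hb0.ne, hb0'.ne⟩
      · intro c hc
        simp only [mem_insert, mem_singleton] at hc
        rcases hc with rfl | rfl | rfl
        · exact hp.pos
        · exact hbq
        · exact hbq'
      · intro r hr1 hrm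
        simp only [mem_insert, mem_singleton] at hrm
        rcases hrm with h | h | h
        · exact Or.inl h
        · exact Or.inr (hr r hr1 (Or.inl h))
        · exact Or.inr (hr r hr1 (Or.inr h))
    · exact ⟨{0}, fun hn => absurd hn hq, fun _ => rfl⟩
  choose Ω h1 h2 using h
  exact ⟨Ω, h1, h2⟩

/-- block NR2 -/
theorem p_NR2 (hALS : S_ALS) (hLLB : S_LLB) (hME : S_ME) (hM4 : S_M4) (hCL2 : S_CL2) : S_NR2 := by
  classical
  obtain ⟨s, hs, c, hc, hLL⟩ := hLLB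
  obtain ⟨CE, hE⟩ := hME
  obtain ⟨C4, h4⟩ := hM4
  refine ⟨s, hs, 16 / c * Real.exp (CE + 2 * C4), by positivity, ?_⟩
  intro A u z y hA hu huz hzy
  obtain ⟨Ω, hΩ1, hΩ2⟩ := NR2_classes hCL2 A u z
  set G := (Q4 u z).filter (fun q => ¬ (q ∣ A ∨ q ∣ A ^ 2 + 1)) with hG
  set P := (Ioc 0 z).filter Nat.Prime with hP
  have hPp : ∀ q ∈ P, q.Prime ∧ q ≤ z := by
    intro q hq
    rw [hP, mem_filter, mem_Ioc] at hq
    exact ⟨hq.2, hq.1.2⟩
  have hGQ : G ⊆ Q4 u z := filter_subset _ _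
  have hQP : Q4 u z ⊆ P := by
    intro q hq
    simp only [Q4, mem_filter, mem_Ioc] at hq
    rw [hP, mem_filter, mem_Ioc]
    exact ⟨⟨by omega, hq.1.2⟩, hq.2.1⟩
  have hGP : G ⊆ P := hGQ.trans hQP
  have hG5 : ∀ q ∈ G, 5 < q := by
    intro q hq
    have := hGQ hq
    simp only [Q4, mem_filter, mem_Ioc] at this
    omega
  have hcond : ∀ q ∈ P, 0 < (Ω q).card ∧ (Ω q).card < q ∧ ∀ c ∈ Ω q, c < q := by
    intro q hq
    by_cases hqG : q ∈ G
    · obtain ⟨h1, h2, -⟩ := hΩ1 q hqG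
      have := hG5 q hqG
      exact ⟨by omega, by omega, h2⟩
    · rw [hΩ2 q hqG]
      have := (hPp q hq).1.one_lt
      refine ⟨by simp, by simpa using this, ?_⟩
      intro c hc
      rw [mem_singleton] at hc
      omega
  have hz2 : 2 ≤ z := by omega
  have hD1 : 1 ≤ z ^ s := Nat.one_le_pow _ _ (by omega)
  have hals := hALS P Ω y (z ^ s) (fun q hq => (hPp q hq).1) hcond hD1
  have hmax : max y ((z ^ s) ^ 2) = y := by
    rw [← pow_mul, mul_comm s 2]
    exact max_eq_left hzy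
  rw [hmax] at hals
  have hll := hLL z (z ^ s) P (fun q => (Ω q).card) hz2 le_rfl hPp (by
    intro q hq
    refine ⟨?_, (hcond q hq).2.1⟩
    by_cases hqG : q ∈ G
    · exact (hΩ1 q hqG).1.le
    · show (Ω q).card ≤ 3
      rw [hΩ2 q hqG]
      simp)
  -- the cover
  have hsub : RB A u z y ⊆ Ioc 0 z ∪ AV P Ω y := by
    intro r hr
    simp only [RB, mem_filter, mem_Ioc] at hr
    obtain ⟨⟨hr0, hry⟩, hrp, hrq⟩ := hr
    rw [mem_union]
    by_cases hrz : r ≤ z
    · exact Or.inl (mem_Ioc.mpr ⟨hr0, hrz⟩)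
    · right
      simp only [AV, mem_filter, mem_Ioc]
      refine ⟨⟨hr0, hry⟩, fun q hq hmem => ?_⟩
      have hne : r % q ≠ 0 := by
        intro h0
        have hd : q ∣ r := Nat.dvd_of_mod_eq_zero h0
        rcases (Nat.dvd_prime hrp).mp hd with h | h
        · exact (hPp q hq).1.one_lt.ne' h
        · have := (hPp q hq).2
          omega
      by_cases hqG : q ∈ G
      · rcases (hΩ1 q hqG).2.2 r (by omega) hmem with h | h
        · exact hne h
        · exact hrq q (hGQ hqG) h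
      · rw [hΩ2 q hqG, mem_singleton] at hmem
        exact hne hmem
  have hcard : ((RB A u z y).card : ℝ) ≤ z + ((AV P Ω y).card : ℝ) := by
    have h1 := (card_le_card hsub).trans (card_union_le _ _)
    rw [Nat.card_Ioc] at h1
    have h2 : (RB A u z y).card ≤ z + (AV P Ω y).card := by omega
    exact_mod_cast h2
  -- the exponent
  set Sw : ℝ := ∑ q ∈ P, ((Ω q).card : ℝ) / q with hSw
  have hsum : Sw = ∑ q ∈ P, 1 / (q : ℝ) + 2 * ∑ q ∈ G, 1 / (q : ℝ) := by
    have h1 : ∀ q ∈ P, ((Ω q).card : ℝ) / q = 1 / (q : ℝ) + (if q ∈ G then 2 * (1 / (q : ℝ)) else 0) := by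
      intro q hq
      by_cases hqG : q ∈ G
      · rw [if_pos hqG, (hΩ1 q hqG).1]
        push_cast
        ring
      · rw [if_neg hqG, hΩ2 q hqG]
        simp
    rw [hSw, sum_congr rfl h1, sum_add_distrib, ← sum_filter]
    have h2 : P.filter (fun q => q ∈ G) = G := by
      ext q
      simp only [mem_filter]
      exact ⟨fun h => h.2, fun h => ⟨hGP h, h⟩⟩
    rw [h2, ← mul_sum]
  have hEX : ∑ q ∈ Q4 u z, 1 / (q : ℝ) = EX A u z + ∑ q ∈ G, 1 / (q : ℝ) := by
    rw [EX, hG]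
    exact (sum_filter_add_sum_filter_not _ _ _).symm
  have hu3 : 3 ≤ u := by omega
  have e1 := hE z hz2
  have e2 := h4 u z hu3 huz
  have hlogu : 0 < Real.log u := Real.log_pos (by exact_mod_cast (by omega : 1 < u))
  have hlogz : 0 < Real.log z := Real.log_pos (by exact_mod_cast (by omega : 1 < z))
  have hlow : Real.log (Real.log z) + Real.log (Real.log z / Real.log u) - (CE + 2 * C4) - 2 * EX A u z ≤ Sw := by
    rw [hsum]
    rw [← hP] at e1
    linarith
  have hexp : Real.exp (-Sw) ≤ Real.exp (CE + 2 * C4) * Real.exp (2 * EX A u z) * (Real.log u / Real.log z ^ 2) := by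
    have h1 : -Sw ≤ (CE + 2 * C4) + 2 * EX A u z - Real.log (Real.log z) - Real.log (Real.log z / Real.log u) := by
      linarith
    refine (Real.exp_le_exp.mpr h1).trans (le_of_eq ?_)
    rw [Real.exp_sub, Real.exp_sub, Real.exp_add, Real.exp_log hlogz, Real.exp_log (by positivity)]
    field_simp
  have hAV : ((AV P Ω y).card : ℝ) ≤ 16 / c * y * Real.exp (-Sw) := by
    have h1 : ((AV P Ω y).card : ℝ) * (c * Real.exp Sw) ≤ 16 * (y : ℝ) :=
      (mul_le_mul_of_nonneg_left hll (Nat.cast_nonneg _)).trans (by exact_mod_cast hals)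
    have hpos : 0 < c * Real.exp Sw := by positivity
    have h2 : ((AV P Ω y).card : ℝ) ≤ 16 * (y : ℝ) / (c * Real.exp Sw) := by
      rw [le_div_iff₀ hpos]
      exact h1
    refine h2.trans (le_of_eq ?_)
    rw [Real.exp_neg]
    field_simp
  have hfin : ((AV P Ω y).card : ℝ) ≤
      16 / c * Real.exp (CE + 2 * C4) * (y * Real.log u / Real.log z ^ 2) * Real.exp (2 * EX A u z) := by
    refine hAV.trans ((mul_le_mul_of_nonneg_left hexp (by positivity)).trans (le_of_eq ?_))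
    ring
  linarith

end Pool.LW
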