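import Pool.Agent.Work.MP_aebf03_lw.Interface2
import Pool.Agent.Work.MP_b0c12c_nt_helper41.Mert

/-!
# Block SM2: Rankin's bound for smooth numbers
-/

set_option autoImplicit false

namespace Pool.LW

open Finset
open Pool.Agent.Work.MP_b0c12c_nt_helper41 (FF FF_le mertens2 SS_sub)



lemma SM2_inv {t : ℝ} (h1 : t ≤ 3 / 5) :
    (1 - t)⁻¹ ≤ Real.exp (t + 5 / 2 * t ^ 2) := by
  have h2 : 0 < 1 - t := by linarith
  have h3 : (1 - t)⁻¹ = t / (1 - t) + 1 := by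
    field_simp
    ring
  have h4 : t / (1 - t) ≤ t + 5 / 2 * t ^ 2 := by
    rw [div_le_iff₀ h2]
    nlinarith [mul_nonneg (sq_nonneg t) (by linarith : 0 ≤ 3 / 2 - 5 / 2 * t)]
  rw [h3]
  exact (Real.add_one_le_exp _).trans (Real.exp_le_exp.mpr h4)

lemma SM2_sum (x z : ℕ) (f : ℕ →* ℝ) (h0 : ∀ n, 0 ≤ f n)
    (h1 : ∀ {p : ℕ}, p.Prime → ‖f p‖ < 1) :
    ∑ m ∈ Smo x z, f m ≤ ∏ p ∈ (Icc 1 z).filter Nat.Prime, (1 - f p)⁻¹ := by
  obtain ⟨_, h3⟩ :=
    EulerProduct.summable_and_hasSum_smoothNumbers_prod_primesBelow_geometric h1 (z + 1)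
  have hm : ∀ m ∈ Smo x z, m ∈ (z + 1).smoothNumbers := by
    intro m hm
    simp only [Smo, mem_filter, mem_Ioc] at hm
    rw [Nat.mem_smoothNumbers']
    intro p hp hd
    exact Nat.lt_succ_of_le (hm.2 p hp hd)
  classical
  have h4 := sum_le_hasSum ((Smo x z).subtype (· ∈ (z + 1).smoothNumbers)) (fun i _ => h0 _) h3
  rw [Finset.sum_subtype_of_mem (fun m => f m) hm] at h4
  have h5 : (z + 1).primesBelow = (Icc 1 z).filter Nat.Prime := by
    ext p
    rw [Nat.mem_primesBelow, mem_filter, mem_Icc]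
    constructor
    · rintro ⟨h6, h7⟩
      exact ⟨⟨h7.one_lt.le, by omega⟩, h7⟩
    · rintro ⟨⟨_, h6⟩, h7⟩
      exact ⟨by omega, h7⟩
  rwa [h5] at h4

/-- the completely multiplicative function `n ↦ n ^ (-σ)` -/
noncomputable def SM2_f (s : ℝ) : ℕ →* ℝ where
  toFun n := (n : ℝ) ^ (-s)
  map_one' := by simp
  map_mul' a b := by
    push_cast
    exact Real.mul_rpow (by positivity) (by positivity)

lemma SM2_pow {p z : ℕ} (hp : 1 ≤ p) (hpz : p ≤ z) (hz : 8 ≤ z) :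
    (p : ℝ) ^ (-(1 - 1 / (2 * Real.log z))) ≤ 1 / p + Real.log p / p / Real.log z := by
  have hz8 : (8 : ℝ) ≤ z := by exact_mod_cast hz
  have hL : 0 < Real.log z := Real.log_pos (by linarith)
  have hp1 : (1 : ℝ) ≤ p := by exact_mod_cast hp
  have hp0 : (0 : ℝ) < p := by linarith
  have hlp : 0 ≤ Real.log p := Real.log_nonneg hp1
  have hle : Real.log p ≤ Real.log z := Real.log_le_log hp0 (by exact_mod_cast hpz)
  set y : ℝ := Real.log p / (2 * Real.log z) with hy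
  have hy0 : 0 ≤ y := by positivity
  have hy1 : y ≤ 1 / 2 := by
    rw [hy, div_le_iff₀ (by positivity)]
    linarith
  have h1 : (p : ℝ) ^ (-(1 - 1 / (2 * Real.log z))) = 1 / p * Real.exp y := by
    rw [Real.rpow_def_of_pos hp0,
      show Real.log p * -(1 - 1 / (2 * Real.log z)) = -Real.log p + y by rw [hy]; ring,
      Real.exp_add, Real.exp_neg, Real.exp_log hp0, one_div]
  have h2 : Real.exp y ≤ 1 + 2 * y := by
    have h3 := (abs_le.mp (Real.abs_exp_sub_one_sub_id_le (x := y)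
      (by rw [abs_of_nonneg hy0]; linarith))).2
    nlinarith
  rw [h1]
  calc 1 / (p : ℝ) * Real.exp y ≤ 1 / p * (1 + 2 * y) :=
        mul_le_mul_of_nonneg_left h2 (by positivity)
    _ = 1 / p + Real.log p / p / Real.log z := by
        rw [hy]
        field_simp

lemma SM2_log8 {z : ℕ} (hz : 8 ≤ z) : 2 ≤ Real.log z := by
  have hz8 : (8 : ℝ) ≤ z := by exact_mod_cast hz
  have h1 : Real.log 8 ≤ Real.log z := Real.log_le_log (by norm_num) hz8
  have h2 : Real.log 8 = 3 * Real.log 2 := by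
    rw [show (8 : ℝ) = 2 ^ 3 by norm_num, Real.log_pow]
    norm_num
  have h3 := Real.log_two_gt_d9
  linarith

lemma SM2_two {s : ℝ} (hs : 3 / 4 ≤ s) {p : ℕ} (hp : 2 ≤ p) : (p : ℝ) ^ (-s) ≤ 3 / 5 := by
  have hp2 : (2 : ℝ) ≤ p := by exact_mod_cast hp
  have h1 : (p : ℝ) ^ (-s) ≤ (2 : ℝ) ^ (-s) :=
    Real.rpow_le_rpow_of_nonpos (by norm_num) hp2 (by linarith)
  have h2 : (2 : ℝ) ^ (-s) ≤ (2 : ℝ) ^ (-(3 / 4) : ℝ) :=
    Real.rpow_le_rpow_of_exponent_le (by norm_num) (by linarith)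
  have h3 : (2 : ℝ) ^ (-(3 / 4) : ℝ) ≤ 3 / 5 := by
    have h4 : (0 : ℝ) ≤ (2 : ℝ) ^ (-(3 / 4) : ℝ) := by positivity
    have h5 : ((2 : ℝ) ^ (-(3 / 4) : ℝ)) ^ 4 = 1 / 8 := by
      rw [← Real.rpow_natCast, ← Real.rpow_mul (by norm_num)]
      norm_num
    by_contra h6
    push Not at h6
    have h7 : (3 / 5 : ℝ) ^ 4 < ((2 : ℝ) ^ (-(3 / 4) : ℝ)) ^ 4 :=
      pow_lt_pow_left₀ h6 (by norm_num) (by norm_num)
    rw [h5] at h7
    norm_num at h7
  linarith

theorem p_SM2 : S_SM2 := by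
  obtain ⟨C, hC0, hC⟩ := mertens2
  obtain ⟨K, hK⟩ : ∃ K : ℝ, ∀ z : ℕ,
      ∑ p ∈ (Icc 1 z).filter Nat.Prime, (p : ℝ) ^ (-(3 / 2) : ℝ) ≤ K := by
    have hs : Summable (fun n : ℕ => (n : ℝ) ^ (-(3 / 2) : ℝ)) :=
      Real.summable_nat_rpow.mpr (by norm_num)
    exact ⟨∑' n : ℕ, (n : ℝ) ^ (-(3 / 2) : ℝ), fun z =>
      hs.sum_le_tsum _ (fun n _ => by positivity)⟩
  set M : ℝ := Pool.Agent.Work.MP_b0c12c_nt_helper41.SS 2 - Real.log (Real.log 2) + C / Real.log 2 + 4 + 5 / 2 * K with hM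
  refine ⟨Real.exp M, Real.exp_pos _, ?_⟩
  intro x z hz hx
  have hL := SM2_log8 hz
  have hL0 : 0 < Real.log z := by linarith
  have hx0 : (0 : ℝ) < x := by exact_mod_cast (by omega : 0 < x)
  set s : ℝ := 1 - 1 / (2 * Real.log z) with hs
  have hs1 : 3 / 4 ≤ s := by
    have : 1 / (2 * Real.log z) ≤ 1 / 4 := by
      rw [div_le_div_iff₀ (by positivity) (by norm_num)]
      linarith
    rw [hs]
    linarith
  have hf0 : ∀ n, 0 ≤ SM2_f s n := fun n => by
    change 0 ≤ (n : ℝ) ^ (-s)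
    positivity
  have hfp : ∀ {p : ℕ}, p.Prime → SM2_f s p ≤ 3 / 5 := fun {p} hp => SM2_two hs1 hp.two_le
  have h1 := SM2_sum x z (SM2_f s) hf0 (fun {p} hp => by
    rw [Real.norm_eq_abs, abs_of_nonneg (hf0 p)]
    linarith [hfp hp])
  -- the count
  have h2 : ((Smo x z).card : ℝ) ≤ (x : ℝ) ^ s * ∑ m ∈ Smo x z, SM2_f s m := by
    rw [mul_sum, ← nsmul_one, ← sum_const]
    apply sum_le_sum
    intro m hm
    simp only [Smo, mem_filter, mem_Ioc] at hm
    change (1 : ℝ) ≤ (x : ℝ) ^ s * (m : ℝ) ^ (-s)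
    have hm0 : (0 : ℝ) < m := by exact_mod_cast hm.1.1
    rw [Real.rpow_neg hm0.le, ← div_eq_mul_inv, one_le_div (by positivity)]
    exact Real.rpow_le_rpow hm0.le (by exact_mod_cast hm.1.2) (by linarith)
  -- the product
  have h3 : ∏ p ∈ (Icc 1 z).filter Nat.Prime, (1 - SM2_f s p)⁻¹ ≤
      Real.exp (∑ p ∈ (Icc 1 z).filter Nat.Prime,
        (SM2_f s p + 5 / 2 * (SM2_f s p) ^ 2)) := by
    rw [Real.exp_sum]
    apply prod_le_prod
    · intro p hp
      have := hfp (mem_filter.mp hp).2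
      exact inv_nonneg.mpr (by linarith)
    · intro p hp
      exact SM2_inv (hfp (mem_filter.mp hp).2)
  have h4 : ∑ p ∈ (Icc 1 z).filter Nat.Prime, (SM2_f s p + 5 / 2 * (SM2_f s p) ^ 2) ≤
      Pool.Agent.Work.MP_b0c12c_nt_helper41.SS z + FF z / Real.log z + 5 / 2 * K := by
    rw [sum_add_distrib, ← mul_sum]
    have h5 : ∑ p ∈ (Icc 1 z).filter Nat.Prime, SM2_f s p ≤ Pool.Agent.Work.MP_b0c12c_nt_helper41.SS z + FF z / Real.log z := by
      rw [Pool.Agent.Work.MP_b0c12c_nt_helper41.SS, FF, sum_div, ← sum_add_distrib]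
      apply sum_le_sum
      intro p hp
      rw [mem_filter, mem_Icc] at hp
      exact SM2_pow hp.1.1 hp.1.2 hz
    have h6 : ∑ p ∈ (Icc 1 z).filter Nat.Prime, (SM2_f s p) ^ 2 ≤ K := by
      refine le_trans (sum_le_sum ?_) (hK z)
      intro p hp
      rw [mem_filter, mem_Icc] at hp
      change ((p : ℝ) ^ (-s)) ^ 2 ≤ _
      have hp1 : (1 : ℝ) ≤ p := by exact_mod_cast hp.1.1
      rw [← Real.rpow_natCast, ← Real.rpow_mul (by linarith)]
      apply Real.rpow_le_rpow_of_exponent_le hp1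
      push_cast
      linarith
    linarith
  have h5 : Pool.Agent.Work.MP_b0c12c_nt_helper41.SS z ≤ Real.log (Real.log z) + (Pool.Agent.Work.MP_b0c12c_nt_helper41.SS 2 - Real.log (Real.log 2) + C / Real.log 2) := by
    have h6 := (abs_le.mp (hC 2 z le_rfl (by omega))).2
    rw [← SS_sub (by omega : 2 ≤ z)] at h6
    push_cast at h6
    linarith
  have h6 : FF z / Real.log z ≤ 4 := by
    rw [div_le_iff₀ hL0]
    have := FF_le (n := z) (by omega)
    linarith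
  have h7 : ∏ p ∈ (Icc 1 z).filter Nat.Prime, (1 - SM2_f s p)⁻¹ ≤
      Real.exp M * Real.log z := by
    refine h3.trans ?_
    have h8 : Real.exp M * Real.log z = Real.exp (M + Real.log (Real.log z)) := by
      rw [Real.exp_add M (Real.log (Real.log z)), Real.exp_log hL0]
    rw [h8]
    apply Real.exp_le_exp.mpr
    rw [hM]
    linarith
  have h8 : (x : ℝ) ^ s = x * Real.exp (-(Real.log x / (2 * Real.log z))) := by
    rw [Real.rpow_def_of_pos hx0,
      show Real.log x * s = Real.log x + -(Real.log x / (2 * Real.log z)) by rw [hs]; ring,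
      Real.exp_add, Real.exp_log hx0]
  have h9 : (0 : ℝ) ≤ (x : ℝ) ^ s := by positivity
  calc ((Smo x z).card : ℝ) ≤ (x : ℝ) ^ s * ∑ m ∈ Smo x z, SM2_f s m := h2
    _ ≤ (x : ℝ) ^ s * (Real.exp M * Real.log z) :=
        mul_le_mul_of_nonneg_left (h1.trans h7) h9
    _ = _ := by
        rw [h8]
        ring

end Pool.LW
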