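import Pool.Agent.Work.MP_aebf03_lw.Interface2

/-! Block SUM2 (helper48) -/

set_option autoImplicit false

namespace Pool.LW

open Finset

theorem SUM2_dd_nonneg (c u v m : ℕ) : 0 ≤ DD c u v m := sum_nonneg fun q _ => by positivity

theorem SUM2_ex (hEE : S_EE) (c u z m : ℕ) (hA : 1 ≤ c * m.totient) (hu : 2 ≤ u) :
    EX (c * m.totient) u z ≤ DD c u z m +
      2 * Real.log (((c * m.totient : ℕ) : ℝ) ^ 2 + 1) / u := by
  have h1 := hEE (c * m.totient) u z hA hu
  have h2 : EX (c * m.totient) u z ≤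
      ∑ q ∈ (Q4 u z).filter (fun q => q ∣ c * m.totient), 1 / (q : ℝ) +
      ∑ q ∈ (Q4 u z).filter (fun q => q ∣ (c * m.totient) ^ 2 + 1), 1 / (q : ℝ) := by
    unfold EX
    rw [filter_or]
    have h3 := sum_union_inter (s₁ := (Q4 u z).filter (fun q => q ∣ c * m.totient))
      (s₂ := (Q4 u z).filter (fun q => q ∣ (c * m.totient) ^ 2 + 1)) (f := fun q => 1 / (q : ℝ))
    have h4 : 0 ≤ ∑ q ∈ (Q4 u z).filter (fun q => q ∣ c * m.totient) ∩
        (Q4 u z).filter (fun q => q ∣ (c * m.totient) ^ 2 + 1), 1 / (q : ℝ) :=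
      sum_nonneg fun q _ => by positivity
    linarith
  unfold DD
  linarith

theorem SUM2_all (hBT : S_BT) : ∃ C : ℝ, 0 < C ∧ ∀ A u z y : ℕ, 2 ≤ z → z ≤ y →
    ((RB A u z y).card : ℝ) ≤ C * (y / Real.log z) := by
  obtain ⟨C, hC, h⟩ := hBT
  refine ⟨C, hC, fun A u z y hz hzy => ?_⟩
  have h1 := h 1 y 0 one_pos (by omega) (by omega)
  have h2 : ((RB A u z y).card : ℝ) ≤
      (((Ioc 0 y).filter (fun r => r.Prime ∧ r ≡ 0 [MOD 1])).card : ℝ) := by
    have : RB A u z y ⊆ (Ioc 0 y).filter (fun r => r.Prime ∧ r ≡ 0 [MOD 1]) := by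
      intro r hr
      unfold RB at hr
      rw [mem_filter] at hr ⊢
      exact ⟨hr.1, hr.2.1, Nat.modEq_one⟩
    exact_mod_cast card_le_card this
  refine h2.trans (h1.trans ?_)
  rw [Nat.totient_one, Nat.cast_one, one_mul]
  apply mul_le_mul_of_nonneg_left _ hC.le
  have hz0 : (0 : ℝ) < z := by exact_mod_cast (by omega : 0 < z)
  have hlz : 0 < Real.log z := Real.log_pos (by exact_mod_cast (by omega : 1 < z))
  have h3 : Real.log z ≤ Real.log y := Real.log_le_log hz0 (by exact_mod_cast hzy)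
  exact div_le_div_of_nonneg_left (by positivity) hlz h3

/-- Block SUM2. -/
theorem p_SUM2 (hNR2 : S_NR2) (hEE : S_EE) (hBT : S_BT) (hHAR : S_HAR) : S_SUM2 := by
  obtain ⟨s, hs, C1, hC1, h1⟩ := hNR2
  obtain ⟨C2, hC2, h2⟩ := SUM2_all hBT
  refine ⟨s, hs, C1 * Real.exp 4 + C2, by positivity, ?_⟩
  intro c x u z hc hcx hu huz hzx hlog
  have hz5 : 5 ≤ z := hu.trans huz
  have hzs : z ≤ z ^ (2 * s) := Nat.le_self_pow (by omega) z
  have hzs0 : 0 < z ^ (2 * s) := by positivity
  have hx5 : 5 ≤ x := by omega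
  have hlz : 0 < Real.log z := Real.log_pos (by exact_mod_cast (by omega : 1 < z))
  have hlu : 0 < Real.log u := Real.log_pos (by exact_mod_cast (by omega : 1 < u))
  have hxr : (5 : ℝ) ≤ x := by exact_mod_cast hx5
  have hterm : ∀ m ∈ Ioc 0 (x / z ^ (2 * s)),
      ((RB (c * m.totient) u z (x / m)).card : ℝ) ≤
      (C1 * Real.exp 4) * (x * Real.log u / Real.log z ^ 2) * (1 / m) +
        C2 * (x / Real.log z) * (DD c u z m / m) + z := by
    intro m hm
    rw [mem_Ioc] at hm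
    have hm0 : 0 < m := hm.1
    have hzy : z ^ (2 * s) ≤ x / m := by
      rw [Nat.le_div_iff_mul_le hm0]
      have := (Nat.le_div_iff_mul_le hzs0).1 hm.2
      rwa [mul_comm]
    have hm0r : (0 : ℝ) < m := by exact_mod_cast hm0
    have h5 : ((x / m : ℕ) : ℝ) ≤ x / m := Nat.cast_div_le
    have hdd := SUM2_dd_nonneg c u z m
    have hmx : m ≤ x := hm.2.trans (Nat.div_le_self _ _)
    have hphi : 0 < m.totient := Nat.totient_pos.2 hm0
    have hA : 1 ≤ c * m.totient := Nat.mul_pos (by omega) hphi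
    have hAx : c * m.totient ≤ x * x := Nat.mul_le_mul hcx ((Nat.totient_le m).trans hmx)
    by_cases hD : DD c u z m ≤ 1
    · have h6 := h1 (c * m.totient) u z (x / m) hA hu huz hzy
      have h7 := SUM2_ex hEE c u z m hA (by omega)
      have h8 : Real.log (((c * m.totient : ℕ) : ℝ) ^ 2 + 1) ≤ 5 * Real.log x := by
        have h9 : (5 : ℝ) * Real.log x = Real.log ((x : ℝ) ^ 5) := by
          rw [Real.log_pow]; norm_num
        rw [h9]
        apply Real.log_le_log (by positivity)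
        have h10 : ((c * m.totient : ℕ) : ℝ) ≤ (x : ℝ) * x := by exact_mod_cast hAx
        have h11 : ((c * m.totient : ℕ) : ℝ) ^ 2 ≤ ((x : ℝ) * x) ^ 2 :=
          pow_le_pow_left₀ (by positivity) h10 2
        have h12 : ((x : ℝ) * x) ^ 2 + 1 ≤ (x : ℝ) ^ 5 := by
          have h13 : (1 : ℝ) ≤ (x : ℝ) ^ 4 := one_le_pow₀ (by linarith)
          have h14 : (x : ℝ) ^ 5 = x * (x : ℝ) ^ 4 := by ring
          have h15 : ((x : ℝ) * x) ^ 2 = (x : ℝ) ^ 4 := by ring
          rw [h14, h15]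
          nlinarith
        linarith
      have hur : (0 : ℝ) < u := by exact_mod_cast (by omega : 0 < u)
      have h9 : 2 * Real.log (((c * m.totient : ℕ) : ℝ) ^ 2 + 1) / u ≤ 1 := by
        rw [div_le_one hur]
        linarith
      have h10 : Real.exp (2 * EX (c * m.totient) u z) ≤ Real.exp 4 :=
        Real.exp_le_exp.2 (by linarith)
      have h11 : C1 * (((x / m : ℕ) : ℝ) * Real.log u / Real.log z ^ 2) *
          Real.exp (2 * EX (c * m.totient) u z) ≤
          C1 * ((x / m : ℝ) * Real.log u / Real.log z ^ 2) * Real.exp 4 := by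
        apply mul_le_mul _ h10 (Real.exp_pos _).le (by positivity)
        apply mul_le_mul_of_nonneg_left _ hC1.le
        apply div_le_div_of_nonneg_right _ (by positivity)
        exact mul_le_mul_of_nonneg_right h5 hlu.le
      have h12 : C1 * ((x / m : ℝ) * Real.log u / Real.log z ^ 2) * Real.exp 4 =
          (C1 * Real.exp 4) * (x * Real.log u / Real.log z ^ 2) * (1 / m) := by
        field_simp
      have h13 : 0 ≤ C2 * (x / Real.log z) * (DD c u z m / m) := by positivity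
      linarith
    · push Not at hD
      have h6 := h2 (c * m.totient) u z (x / m) (by omega) (hzs.trans hzy)
      have h7 : C2 * (((x / m : ℕ) : ℝ) / Real.log z) ≤
          C2 * (x / Real.log z) * (DD c u z m / m) := by
        have h8 : ((x / m : ℕ) : ℝ) / Real.log z ≤ (x / m : ℝ) / Real.log z :=
          div_le_div_of_nonneg_right h5 hlz.le
        have h9 : (x / m : ℝ) / Real.log z ≤ (x / m : ℝ) / Real.log z * DD c u z m := by
          have : 0 ≤ (x / m : ℝ) / Real.log z := by positivity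
          nlinarith
        calc C2 * (((x / m : ℕ) : ℝ) / Real.log z) ≤
            C2 * ((x / m : ℝ) / Real.log z * DD c u z m) :=
              mul_le_mul_of_nonneg_left (h8.trans h9) hC2.le
          _ = _ := by field_simp
      have h8 : 0 ≤ (C1 * Real.exp 4) * (x * Real.log u / Real.log z ^ 2) * (1 / m) := by
        positivity
      have h9 : (0 : ℝ) ≤ z := Nat.cast_nonneg z
      linarith
  have hsubI : Ioc 0 (x / z ^ (2 * s)) ⊆ Ioc 0 x := Ioc_subset_Ioc_right (Nat.div_le_self _ _)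
  have hharm : ∑ m ∈ Ioc 0 (x / z ^ (2 * s)), 1 / (m : ℝ) ≤ 1 + Real.log x := by
    have h3 := hHAR x 1 (by omega) le_rfl
    have h4 : (Ioc 0 x).filter (fun m => 1 ∣ m) = Ioc 0 x := by
      rw [filter_true_of_mem]
      intro m _
      exact one_dvd m
    rw [h4, Nat.cast_one, div_one] at h3
    exact (sum_le_sum_of_subset_of_nonneg hsubI fun m _ _ => by positivity).trans h3
  have hDD : ∑ m ∈ Ioc 0 (x / z ^ (2 * s)), DD c u z m / m ≤ ∑ m ∈ Ioc 0 x, DD c u z m / m :=
    sum_le_sum_of_subset_of_nonneg hsubI fun m _ _ =>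
      div_nonneg (SUM2_dd_nonneg c u z m) (by positivity)
  have hDD0 : 0 ≤ ∑ m ∈ Ioc 0 x, DD c u z m / m :=
    sum_nonneg fun m _ => div_nonneg (SUM2_dd_nonneg c u z m) (by positivity)
  have hcnt : ((x / z ^ (2 * s) : ℕ) : ℝ) * z ≤ (x : ℝ) / (z : ℝ) ^ (2 * s) * z := by
    have h3 : ((x / z ^ (2 * s) : ℕ) : ℝ) ≤ (x : ℝ) / ((z ^ (2 * s) : ℕ) : ℝ) := Nat.cast_div_le
    rw [Nat.cast_pow] at h3
    exact mul_le_mul_of_nonneg_right h3 (by positivity)
  refine (sum_le_sum hterm).trans ?_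
  rw [sum_add_distrib, sum_add_distrib, ← mul_sum, ← mul_sum, sum_const, Nat.card_Ioc,
    Nat.sub_zero, nsmul_eq_mul]
  have hlx : 0 ≤ Real.log x := Real.log_nonneg (by linarith)
  have e1 : (C1 * Real.exp 4) * (x * Real.log u / Real.log z ^ 2) *
      ∑ m ∈ Ioc 0 (x / z ^ (2 * s)), 1 / (m : ℝ) ≤
      (C1 * Real.exp 4 + C2) * (x * Real.log u * (1 + Real.log x) / Real.log z ^ 2) := by
    have h3 : (C1 * Real.exp 4) * (x * Real.log u / Real.log z ^ 2) *
        ∑ m ∈ Ioc 0 (x / z ^ (2 * s)), 1 / (m : ℝ) ≤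
        (C1 * Real.exp 4) * (x * Real.log u / Real.log z ^ 2) * (1 + Real.log x) :=
      mul_le_mul_of_nonneg_left hharm (by positivity)
    have h4 : (C1 * Real.exp 4) * (x * Real.log u / Real.log z ^ 2) * (1 + Real.log x) =
        (C1 * Real.exp 4) * (x * Real.log u * (1 + Real.log x) / Real.log z ^ 2) := by
      ring
    have h5 : 0 ≤ C2 * (x * Real.log u * (1 + Real.log x) / Real.log z ^ 2) := by positivity
    linarith
  have e2 : C2 * (x / Real.log z) * ∑ m ∈ Ioc 0 (x / z ^ (2 * s)), DD c u z m / m ≤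
      (C1 * Real.exp 4 + C2) * (x / Real.log z) * ∑ m ∈ Ioc 0 x, DD c u z m / m := by
    have h3 : C2 * (x / Real.log z) * ∑ m ∈ Ioc 0 (x / z ^ (2 * s)), DD c u z m / m ≤
        C2 * (x / Real.log z) * ∑ m ∈ Ioc 0 x, DD c u z m / m :=
      mul_le_mul_of_nonneg_left hDD (by positivity)
    have h4 : 0 ≤ (C1 * Real.exp 4) * (x / Real.log z) * ∑ m ∈ Ioc 0 x, DD c u z m / m := by
      positivity
    linarith
  linarith

end Pool.LW
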