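import Pool.Agent.Work.MP_aebf03_lw.Interface2

/-! Block TRF2 (helper48) -/

set_option autoImplicit false

namespace Pool.LW

open Finset Filter

theorem TRF2_len (x n : ℕ) (h8 : 8 ≤ Real.log (Real.log x)) (hn : Nat.sqrt x < n) (hnx : n ≤ x) :
    Real.log n / Real.log (Real.log n) ^ 4 ≤ 16 * Real.log x / Real.log (Real.log x) ^ 4 := by
  have hx1 : 1 < Real.log x := by
    by_contra hcon
    push Not at hcon
    by_cases h0 : 0 ≤ Real.log x
    · have := Real.log_nonpos h0 hcon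
      linarith
    · push Not at h0
      have h1 : Real.log x = 0 := by
        rcases Nat.eq_zero_or_pos x with h2 | h2
        · rw [h2]; simp
        · have : 0 ≤ Real.log x := Real.log_nonneg (by exact_mod_cast h2)
          linarith
      rw [h1] at h8
      simp at h8
      linarith
  have hn0 : 0 < n := by omega
  have hnr : (0 : ℝ) < n := by exact_mod_cast hn0
  have hx0 : (0 : ℝ) < x := by exact_mod_cast (by omega : 0 < x)
  have hlog1 : Real.log n ≤ Real.log x := Real.log_le_log hnr (by exact_mod_cast hnx)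
  have hsq : x < n * n := Nat.sqrt_lt.1 hn
  have hlog2 : Real.log x ≤ 2 * Real.log n := by
    have h1 : Real.log x ≤ Real.log ((n : ℝ) * n) := by
      apply Real.log_le_log hx0
      exact_mod_cast hsq.le
    rw [Real.log_mul hnr.ne' hnr.ne'] at h1
    linarith
  have hlog3 : Real.log x / 2 ≤ Real.log n := by linarith
  have h2 : Real.log (Real.log x) - Real.log 2 ≤ Real.log (Real.log n) := by
    rw [← Real.log_div (by linarith) (by norm_num)]
    exact Real.log_le_log (by linarith) hlog3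
  have h3 : Real.log 2 ≤ 1 := by
    have := Real.log_two_lt_d9
    linarith
  have h4 : Real.log (Real.log x) / 2 ≤ Real.log (Real.log n) := by linarith
  have h5 : 0 < Real.log (Real.log x) / 2 := by linarith
  have h6 : (Real.log (Real.log x) / 2) ^ 4 ≤ Real.log (Real.log n) ^ 4 :=
    pow_le_pow_left₀ h5.le h4 4
  calc Real.log n / Real.log (Real.log n) ^ 4
      ≤ Real.log x / (Real.log (Real.log x) / 2) ^ 4 :=
        div_le_div₀ (by linarith) hlog1 (by positivity) h6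
    _ = 16 * Real.log x / Real.log (Real.log x) ^ 4 := by
        field_simp
        norm_num

/-- Block TRF2. -/
theorem p_TRF2 (hFIN2 : S_FIN2) (hBT : S_BT) : S_TRF2 := by
  classical
  intro ε hε
  obtain ⟨C, hC, X1, hF⟩ := hFIN2
  obtain ⟨C', hC', hB⟩ := hBT
  have htend : Tendsto (fun x : ℕ => Real.log (Real.log (x : ℝ))) atTop atTop :=
    Real.tendsto_log_atTop.comp (Real.tendsto_log_atTop.comp tendsto_natCast_atTop_atTop)
  obtain ⟨X2, hX2⟩ := eventually_atTop.1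
    (htend.eventually_ge_atTop (8 + 96 * C / ε + 96 * C' / ε))
  refine ⟨max X1 (max X2 (max 3 (⌈3 / ε⌉₊ * ⌈3 / ε⌉₊))), fun x hx => ?_⟩
  have hxX1 : X1 ≤ x := (le_max_left _ _).trans hx
  have hxX2 : X2 ≤ x := ((le_max_left _ _).trans (le_max_right _ _)).trans hx
  have hx3 : 3 ≤ x :=
    (((le_max_left _ _).trans (le_max_right _ _)).trans (le_max_right _ _)).trans hx
  have hxs : ⌈3 / ε⌉₊ * ⌈3 / ε⌉₊ ≤ x :=
    (((le_max_right _ _).trans (le_max_right _ _)).trans (le_max_right _ _)).trans hx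
  have hℓ := hX2 x hxX2
  have hp1 : 0 ≤ 96 * C / ε := by positivity
  have hp2 : 0 ≤ 96 * C' / ε := by positivity
  have h8 : 8 ≤ Real.log (Real.log x) := by linarith
  have hlen := fun n hn hnx => TRF2_len x n h8 hn hnx
  obtain ⟨ℓ, hℓdef⟩ : ∃ ℓ, ℓ = Real.log (Real.log (x : ℝ)) := ⟨_, rfl⟩
  obtain ⟨L, hLdef⟩ : ∃ L, L = Real.log (x : ℝ) := ⟨_, rfl⟩
  rw [← hℓdef] at hℓ h8
  have hxr : (3 : ℝ) ≤ x := by exact_mod_cast hx3
  have hL0 : 0 < L := by rw [hLdef]; exact Real.log_pos (by linarith)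
  have hLe : L = Real.exp ℓ := by rw [hℓdef, ← hLdef, Real.exp_log hL0]
  have hℓ0 : 0 < ℓ := by linarith
  have hpow : ℓ ^ 4 ≤ 16 * L := by
    have h1 := Real.pow_div_factorial_le_exp ℓ hℓ0.le 5
    rw [← hLe] at h1
    have h2 : ((Nat.factorial 5 : ℕ) : ℝ) = 120 := by norm_num [Nat.factorial]
    rw [h2, div_le_iff₀ (by norm_num)] at h1
    have h3 : ℓ ^ 5 = ℓ ^ 4 * ℓ := by ring
    have h4 : 0 ≤ ℓ ^ 4 := by positivity
    nlinarith
  have hℓ4 : 32 ≤ ℓ ^ 4 := by
    have h1 : (8 : ℝ) ^ 4 ≤ ℓ ^ 4 := pow_le_pow_left₀ (by norm_num) h8 4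
    norm_num at h1
    linarith
  have hℓ4' : 0 < ℓ ^ 4 := by positivity
  obtain ⟨Y, hY⟩ : ∃ Y, Y = 16 * L / ℓ ^ 4 := ⟨_, rfl⟩
  have hY1 : 1 ≤ Y := by
    rw [hY, le_div_iff₀ hℓ4']
    linarith
  have hY2 : Y + 1 ≤ L := by
    have h1 : 2 * Y ≤ L := by
      have h2 : 2 * Y = 32 * L / ℓ ^ 4 := by rw [hY]; ring
      rw [h2, div_le_iff₀ hℓ4']
      nlinarith
    linarith
  obtain ⟨K, hK⟩ : ∃ K, K = ⌊Y⌋₊ := ⟨_, rfl⟩
  have hKY : (K : ℝ) ≤ Y := by rw [hK]; exact Nat.floor_le (by linarith)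
  have hleK : ∀ j : ℕ, (j : ℝ) ≤ Y → j ≤ K := fun j hj => by
    rw [hK]; exact Nat.le_floor hj
  have hK1 : (K : ℝ) + 1 ≤ 32 * L / ℓ ^ 4 := by
    have h2 : 2 * Y = 32 * L / ℓ ^ 4 := by rw [hY]; ring
    linarith
  have hsub : ((Ioc 0 x).filter (fun n => ∃ p : ℕ, p.Prime ∧ p < n ∧
      ((p : ℝ) ≤ Real.log n / Real.log (Real.log n) ^ 4 ∨
        ((n - p : ℕ) : ℝ) ≤ Real.log n / Real.log (Real.log n) ^ 4) ∧
      (((p + 1) * (n - p).totient) ^ 2 + 1).Prime)) ⊆
      Ioc 0 (Nat.sqrt x) ∪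
      ((range (K + 1)).biUnion (fun p => (Bad (p + 1) x).image (fun m => m + p)) ∪
      (range (K + 1)).biUnion
        (fun j => ((Ioc 0 x).filter (fun r => r.Prime ∧ r ≡ 0 [MOD 1])).image
          (fun m => m + j))) := by
    intro n hn
    simp only [Finset.mem_filter, Finset.mem_Ioc] at hn
    obtain ⟨⟨hn0, hnx⟩, p, hp, hpn, hor, hpr⟩ := hn
    rw [Finset.mem_union, Finset.mem_union]
    by_cases hns : n ≤ Nat.sqrt x
    · exact Or.inl (Finset.mem_Ioc.2 ⟨hn0, hns⟩)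
    · right
      push Not at hns
      have hl := hlen n hns hnx
      rw [← hℓdef, ← hLdef, ← hY] at hl
      rcases hor with h | h
      · left
        rw [Finset.mem_biUnion]
        have := hleK p (h.trans hl)
        refine ⟨p, Finset.mem_range.mpr (by omega), ?_⟩
        rw [Finset.mem_image]
        refine ⟨n - p, ?_, by omega⟩
        unfold Bad
        rw [Finset.mem_filter, Finset.mem_Ioc]
        exact ⟨⟨by omega, by omega⟩, hpr⟩
      · right
        rw [Finset.mem_biUnion]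
        have := hleK (n - p) (h.trans hl)
        refine ⟨n - p, Finset.mem_range.mpr (by omega), ?_⟩
        rw [Finset.mem_image]
        refine ⟨p, ?_, by omega⟩
        rw [Finset.mem_filter, Finset.mem_Ioc]
        exact ⟨⟨hp.pos, by omega⟩, hp, Nat.modEq_one⟩
  have h1 := (Finset.card_le_card hsub).trans ((Finset.card_union_le _ _).trans
    (Nat.add_le_add_left (Finset.card_union_le _ _) _))
  have h2 : ((range (K + 1)).biUnion
      (fun p => (Bad (p + 1) x).image (fun m => m + p))).card ≤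
      ∑ p ∈ range (K + 1), (Bad (p + 1) x).card :=
    Finset.card_biUnion_le.trans (Finset.sum_le_sum fun m _ => Finset.card_image_le)
  have h3 : ((range (K + 1)).biUnion
      (fun j => ((Ioc 0 x).filter (fun r => r.Prime ∧ r ≡ 0 [MOD 1])).image
        (fun m => m + j))).card ≤
      ∑ _j ∈ range (K + 1), ((Ioc 0 x).filter (fun r => r.Prime ∧ r ≡ 0 [MOD 1])).card :=
    Finset.card_biUnion_le.trans (Finset.sum_le_sum fun m _ => Finset.card_image_le)
  rw [Nat.card_Ioc, Nat.sub_zero] at h1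
  have h4 : (∑ p ∈ range (K + 1), ((Bad (p + 1) x).card : ℝ)) ≤
      ((K : ℝ) + 1) * (C * (x * ℓ ^ 3 / L)) := by
    have h5 : ∀ p ∈ range (K + 1), ((Bad (p + 1) x).card : ℝ) ≤ C * (x * ℓ ^ 3 / L) := by
      intro p hp
      have hpK : p ≤ K := by have := Finset.mem_range.1 hp; omega
      have hpK' : (p : ℝ) ≤ K := by exact_mod_cast hpK
      have h6 := hF x hxX1 (p + 1) (by omega) (by push_cast; rw [← hLdef]; linarith)
      rwa [← hℓdef, ← hLdef] at h6
    refine (Finset.sum_le_sum h5).trans ?_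
    rw [Finset.sum_const, Finset.card_range, nsmul_eq_mul]
    push_cast
    exact le_rfl
  have h5 : (∑ _j ∈ range (K + 1),
      (((Ioc 0 x).filter (fun r => r.Prime ∧ r ≡ 0 [MOD 1])).card : ℝ)) ≤
      ((K : ℝ) + 1) * (C' * (x / L)) := by
    have h6 := hB 1 x 0 one_pos (by omega) (by omega)
    rw [Nat.totient_one, Nat.cast_one, one_mul, ← hLdef] at h6
    refine (Finset.sum_le_sum fun p _ => h6).trans ?_
    rw [Finset.sum_const, Finset.card_range, nsmul_eq_mul]
    push_cast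
    exact le_rfl
  have h6 : (Nat.sqrt x : ℝ) ≤ ε / 3 * x := by
    have h7 : ⌈3 / ε⌉₊ ≤ Nat.sqrt x := Nat.le_sqrt.2 hxs
    have h8' : 3 / ε ≤ (Nat.sqrt x : ℝ) := (Nat.le_ceil _).trans (by exact_mod_cast h7)
    have h9 : ((Nat.sqrt x : ℕ) : ℝ) * Nat.sqrt x ≤ x := by
      exact_mod_cast Nat.sqrt_le x
    have h10 : 1 ≤ ε / 3 * (Nat.sqrt x : ℝ) := by
      rw [div_le_iff₀ hε] at h8'
      linarith
    have h11 : (0 : ℝ) ≤ (Nat.sqrt x : ℝ) := Nat.cast_nonneg _
    have h12 : 0 < ε / 3 := by positivity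
    nlinarith
  have h7 : ((K : ℝ) + 1) * (C * (x * ℓ ^ 3 / L)) ≤ ε / 3 * x := by
    have hnn : 0 ≤ C * (x * ℓ ^ 3 / L) := by positivity
    refine (mul_le_mul_of_nonneg_right hK1 hnn).trans ?_
    have h8' : 32 * L / ℓ ^ 4 * (C * (x * ℓ ^ 3 / L)) = (32 * C / ℓ) * x := by
      field_simp
    rw [h8']
    apply mul_le_mul_of_nonneg_right _ (by positivity)
    rw [div_le_iff₀ hℓ0]
    have h9 : 96 * C / ε ≤ ℓ := by linarith
    rw [div_le_iff₀ hε] at h9
    linarith
  have h9 : ((K : ℝ) + 1) * (C' * (x / L)) ≤ ε / 3 * x := by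
    have hnn : 0 ≤ C' * (x / L) := by positivity
    refine (mul_le_mul_of_nonneg_right hK1 hnn).trans ?_
    have h8' : 32 * L / ℓ ^ 4 * (C' * (x / L)) = (32 * C' / ℓ ^ 4) * x := by
      field_simp
    rw [h8']
    apply mul_le_mul_of_nonneg_right _ (by positivity)
    rw [div_le_iff₀ hℓ4']
    have h9 : 96 * C' / ε ≤ ℓ := by linarith
    rw [div_le_iff₀ hε] at h9
    have h10 : ℓ ≤ ℓ ^ 4 := by
      have h11 : (1 : ℝ) ≤ ℓ ^ 3 := one_le_pow₀ (by linarith)
      have h12 : ℓ ^ 4 = ℓ * ℓ ^ 3 := by ring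
      rw [h12]
      nlinarith
    nlinarith
  have h10 := h1.trans (Nat.add_le_add_left (Nat.add_le_add h2 h3) _)
  have h11 : (((Ioc 0 x).filter (fun n => ∃ p : ℕ, p.Prime ∧ p < n ∧
      ((p : ℝ) ≤ Real.log n / Real.log (Real.log n) ^ 4 ∨
        ((n - p : ℕ) : ℝ) ≤ Real.log n / Real.log (Real.log n) ^ 4) ∧
      (((p + 1) * (n - p).totient) ^ 2 + 1).Prime)).card : ℝ) ≤
      (Nat.sqrt x : ℝ) + ((∑ p ∈ range (K + 1), ((Bad (p + 1) x).card : ℝ)) +
      ∑ _j ∈ range (K + 1),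
        (((Ioc 0 x).filter (fun r => r.Prime ∧ r ≡ 0 [MOD 1])).card : ℝ)) := by
    exact_mod_cast h10
  refine h11.trans ?_
  linarith

end Pool.LW
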