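import Pool.Agent.Work.MP_aebf03_lw.B_BT
import Pool.Agent.Work.MP_aebf03_lw.B_AP
import Pool.Agent.Work.MP_aebf03_lw.B_PHD
import Pool.Agent.Work.MP_aebf03_lw.B_HAR
import Pool.Agent.Work.MP_aebf03_lw.B_DS
import Pool.Agent.Work.MP_aebf03_lw.B_M4
import Pool.Agent.Work.MP_aebf03_lw.B_SQR
import Pool.Agent.Work.MP_aebf03_lw.B_PHL
import Pool.Agent.Work.MP_aebf03_lw.C_ALS
import Pool.Agent.Work.MP_aebf03_lw.C_LLB
import Pool.Agent.Work.MP_aebf03_lw.C_ME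
import Pool.Agent.Work.MP_aebf03_lw.C_CL2
import Pool.Agent.Work.MP_aebf03_lw.C_NR2
import Pool.Agent.Work.MP_aebf03_lw.C_EE
import Pool.Agent.Work.MP_aebf03_lw.C_SM2
import Pool.Agent.Work.MP_aebf03_lw.C_DEC2
import Pool.Agent.Work.MP_aebf03_lw.C_SUM2
import Pool.Agent.Work.MP_aebf03_lw.C_FIN2h48
import Pool.Agent.Work.MP_aebf03_lw.C_TRF2

/-!
# MP_aebf03_nt, theorem LW2: assembly
-/

set_option autoImplicit false

namespace Pool.LW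

theorem fin2 : S_FIN2 :=
  p_FIN2 (p_SUM2 (p_NR2 p_ALS p_LLB p_ME p_M4 p_CL2) p_EE p_BT p_HAR) p_SM2 p_SQR
    (p_DEC2 p_PHL) (p_DS (p_AP p_BT) p_PHD p_HAR)

/-- The theorem. -/
theorem main2 : S_TRF2 := p_TRF2 fin2 p_BT

end Pool.LW
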