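import Pool.Agent.Work.MP_aebf03_lw.D_FIN3

/-!
# MP_aebf03_nt: the mean number of witnesses
-/

set_option autoImplicit false

namespace Pool.LW

open Finset Filter

theorem fin3 : ∃ C : ℝ, 0 < C ∧ ∃ X : ℕ, ∀ x : ℕ, X ≤ x → ∀ c : ℕ, 1 ≤ c → c ≤ x →
    ((Bad c x).card : ℝ) ≤ C * (x * Real.log (Real.log x) ^ 3 / Real.log x) :=
  FIN3 (p_SUM2 (p_NR2 p_ALS p_LLB p_ME p_M4 p_CL2) p_EE p_BT p_HAR) p_SM2 p_SQR
    (p_DEC2 p_PHL) (p_DS (p_AP p_BT) p_PHD p_HAR) p_HAR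

/-- Counting pairs (n, p). -/
theorem MEAN_pairs (x : ℕ) :
    ∑ n ∈ Icc 1 x, ((range n).filter (fun p => p.Prime ∧
      (((p + 1) * (n - p).totient) ^ 2 + 1).Prime)).card ≤
    ∑ p ∈ (Ioc 0 (x - 1)).filter Nat.Prime, (Bad (p + 1) x).card := by
  classical
  rw [← Finset.card_sigma, ← Finset.card_sigma]
  apply Finset.card_le_card_of_injOn (fun a => ⟨a.2, a.1 - a.2⟩)
  · rintro ⟨n, p⟩ h
    simp only [coe_sigma, Set.mem_sigma_iff, mem_coe, mem_Icc, mem_filter, mem_range, mem_Ioc,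
      Bad] at h ⊢
    obtain ⟨⟨h1, h2⟩, h3, h4, h5⟩ := h
    have := h4.pos
    exact ⟨⟨⟨this, by omega⟩, h4⟩, ⟨by omega, by omega⟩, h5⟩
  · rintro ⟨n, p⟩ h ⟨n', p'⟩ h' heq
    simp only [coe_sigma, Set.mem_sigma_iff, mem_coe, mem_Icc, mem_filter, mem_range] at h h'
    simp only [Sigma.mk.injEq, heq_eq_eq] at heq ⊢
    constructor
    · omega
    · exact heq.1

/-- The mean. -/
theorem mean : ∃ C : ℝ, 0 < C ∧ ∃ X : ℕ, ∀ x : ℕ, X ≤ x →
    ((∑ n ∈ Icc 1 x, ((range n).filter (fun p => p.Prime ∧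
      (((p + 1) * (n - p).totient) ^ 2 + 1).Prime)).card : ℕ) : ℝ) ≤
    C * (x ^ 2 * Real.log (Real.log x) ^ 3 / Real.log x ^ 2) := by
  obtain ⟨C, hC, X, hX⟩ := fin3
  obtain ⟨D, hD, hBT⟩ := p_BT
  refine ⟨C * D, by positivity, max X 16, fun x hx => ?_⟩
  have hxX : X ≤ x := (le_max_left _ _).trans hx
  have hx16 : 16 ≤ x := (le_max_right _ _).trans hx
  have hxr : (16 : ℝ) ≤ x := by exact_mod_cast hx16
  have hL1 : 1 < Real.log x := by
    have h1 : Real.exp 1 < x := by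
      have := Real.exp_one_lt_d9
      linarith
    rw [Real.lt_log_iff_exp_lt (by linarith)]
    exact h1
  have hL0 : 0 < Real.log x := by linarith
  have hℓ0 : 0 < Real.log (Real.log x) := Real.log_pos hL1
  have h0 : ((∑ n ∈ Icc 1 x, ((range n).filter (fun p => p.Prime ∧
      (((p + 1) * (n - p).totient) ^ 2 + 1).Prime)).card : ℕ) : ℝ) ≤
      ((∑ p ∈ (Ioc 0 (x - 1)).filter Nat.Prime, (Bad (p + 1) x).card : ℕ) : ℝ) := by
    exact_mod_cast MEAN_pairs x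
  refine h0.trans ?_
  push_cast
  have h1 : ∀ p ∈ (Ioc 0 (x - 1)).filter Nat.Prime, ((Bad (p + 1) x).card : ℝ) ≤
      C * (x * Real.log (Real.log x) ^ 3 / Real.log x) := by
    intro p hp
    rw [mem_filter, mem_Ioc] at hp
    exact hX x hxX (p + 1) (by omega) (by omega)
  have h2 : (((Ioc 0 (x - 1)).filter Nat.Prime).card : ℝ) ≤ D * (x / Real.log x) := by
    have h3 := hBT 1 x 0 one_pos (by omega) (by omega)
    rw [Nat.totient_one, Nat.cast_one, one_mul] at h3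
    refine le_trans ?_ h3
    apply Nat.cast_le.mpr
    apply Finset.card_le_card
    intro p hp
    rw [mem_filter, mem_Ioc] at hp
    rw [mem_filter, mem_Ioc]
    exact ⟨⟨hp.1.1, by omega⟩, hp.2, Nat.modEq_one⟩
  calc ∑ p ∈ (Ioc 0 (x - 1)).filter Nat.Prime, ((Bad (p + 1) x).card : ℝ)
      ≤ ∑ p ∈ (Ioc 0 (x - 1)).filter Nat.Prime,
        C * (x * Real.log (Real.log x) ^ 3 / Real.log x) := Finset.sum_le_sum h1
    _ = ((Ioc 0 (x - 1)).filter Nat.Prime).card *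
        (C * (x * Real.log (Real.log x) ^ 3 / Real.log x)) := by
      rw [Finset.sum_const, nsmul_eq_mul]
    _ ≤ D * (x / Real.log x) * (C * (x * Real.log (Real.log x) ^ 3 / Real.log x)) := by
      gcongr
    _ = C * D * (x ^ 2 * Real.log (Real.log x) ^ 3 / Real.log x ^ 2) := by
      field_simp

end Pool.LW
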