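import Pool.Agent.Work.MP_aebf03_lw.Interface
import Pool.Agent.Work.MP_b0c12c_chain.B_BTQ

/-!
MP_aebf03_nt, block BT (helper9): the Brun-Titchmarsh inequality for small moduli.
-/

namespace Pool.LW

open Finset

theorem p_BT : S_BT := by
  obtain ⟨C, hC, h⟩ := Pool.LGC.p_BTQ
  refine ⟨C, hC, fun d y a hd hdy hy => ?_⟩
  have h1 := h d 0 y a hd hdy hy
  rw [Nat.zero_add] at h1
  exact h1

end Pool.LW
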