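import Pool.Agent.Work.MP_aebf03_lw.Interface

set_option autoImplicit false

namespace Pool.LW

theorem CLS_aux (q : ℕ) [Fact q.Prime] (A : ℕ) (hA : (A : ZMod q) ≠ 0) (e : ZMod q)
    (he : e ^ 2 = -1) (h1 : 1 + e / (A : ZMod q) ≠ 0) :
    ∃ b : ℕ, 0 < b ∧ b < q ∧ ∀ r : ℕ, 1 ≤ r → r % q = b → q ∣ (A * (r - 1)) ^ 2 + 1 := by
  refine ⟨(1 + e / (A : ZMod q)).val, ?_, ZMod.val_lt _, ?_⟩
  · exact Nat.pos_of_ne_zero fun h => h1 ((ZMod.val_eq_zero _).1 h)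
  · intro r hr hrb
    have h2 : (r : ZMod q) = 1 + e / (A : ZMod q) := by
      rw [← ZMod.natCast_mod r q, hrb, ZMod.natCast_zmod_val]
    rw [← ZMod.natCast_eq_zero_iff]
    push_cast [Nat.cast_sub hr]
    rw [h2, add_sub_cancel_left, mul_div_cancel₀ _ hA, he]
    ring

theorem p_CLS : S_CLS := by
  intro q hq hq4 A hA
  haveI : Fact q.Prime := ⟨hq⟩
  have hA' : (A : ZMod q) ≠ 0 := fun h => hA ((ZMod.natCast_eq_zero_iff _ _).1 h)
  obtain ⟨i, hi⟩ := ZMod.exists_sq_eq_neg_one_iff.2 (show q % 4 ≠ 3 by omega)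
  have hi' : i ^ 2 = -1 := by rw [sq]; exact hi.symm
  by_cases h1 : 1 + i / (A : ZMod q) = 0
  · refine CLS_aux q A hA' (-i) (by rw [neg_sq]; exact hi') ?_
    intro h2
    have h3 : (2 : ZMod q) = 0 := by
      have h4 : (2 : ZMod q) = (1 + i / (A : ZMod q)) + (1 + -i / (A : ZMod q)) := by ring
      rw [h4, h1, h2, add_zero]
    have h5 : q ∣ 2 := by
      rw [← ZMod.natCast_eq_zero_iff]
      exact_mod_cast h3
    have h6 := Nat.le_of_dvd (by norm_num) h5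
    have h7 := hq.two_le
    omega
  · exact CLS_aux q A hA' i hi' h1

end Pool.LW
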