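import Pool.Agent.Work.MP_aebf03_lw.Interface

/-!
# MP_aebf03_nt: block CRT
-/

set_option autoImplicit false

namespace Pool.LW

open Finset

theorem CRT_card {q c : ℕ} (hq : 5 ≤ q) (h0 : 0 < c) (h1 : c < q) :
    (((range q).erase 0).erase c).card = q - 2 := by
  rw [card_erase_of_mem, card_erase_of_mem, card_range]
  · omega
  · exact mem_range.mpr (by omega)
  · exact mem_erase.mpr ⟨by omega, mem_range.mpr h1⟩

theorem CRT_inj {S : Finset ℕ} (hS : ∀ q ∈ S, q.Prime) {a a' : ℕ} (h : a ≤ a')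
    (ha' : a' < ∏ q ∈ S, q) (he : ∀ q ∈ S, a % q = a' % q) : a = a' := by
  have h1 : (∏ q ∈ S, q) ∣ a' - a := by
    refine Finset.prod_primes_dvd (a' - a) (fun q hq => (hS q hq).prime) fun q hq => ?_
    exact (Nat.modEq_iff_dvd' h).mp (he q hq)
  by_contra hne
  have h2 : 0 < a' - a := by omega
  have := Nat.le_of_dvd h2 h1
  omega

/-- Block CRT. -/
theorem p_CRT : S_CRT := by
  intro S hS b hb
  have key : ∏ q ∈ S, (q - 2) = ∏ q ∈ S, (((range q).erase 0).erase (b q)).card :=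
    Finset.prod_congr rfl fun q hq => (CRT_card (hS q hq).2 (hb q hq).1 (hb q hq).2).symm
  rw [key, ← Finset.card_pi]
  refine Finset.card_le_card_of_injOn (fun a q _ => a % q) ?_ ?_
  · intro a ha
    rw [mem_coe, mem_filter] at ha
    obtain ⟨_, hc, hbq⟩ := ha
    rw [mem_coe, Finset.mem_pi]
    intro q hq
    have hp := (hS q hq).1
    refine mem_erase.mpr ⟨hbq q hq, mem_erase.mpr ⟨fun h0 => ?_, mem_range.mpr (Nat.mod_lt _ hp.pos)⟩⟩
    have h1 : q ∣ a := Nat.dvd_of_mod_eq_zero h0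
    have h2 : q ∣ ∏ q ∈ S, q := Finset.dvd_prod_of_mem _ hq
    have h3 : q ∣ 1 := by
      have := Nat.dvd_gcd h1 h2
      rwa [hc] at this
    exact hp.one_lt.ne' (Nat.dvd_one.mp h3)
  · intro a ha a' ha' he
    rw [mem_coe, mem_filter, mem_range] at ha ha'
    have he' : ∀ q ∈ S, a % q = a' % q := fun q hq => congr_fun (congr_fun he q) hq
    rcases le_total a a' with h | h
    · exact CRT_inj (fun q hq => (hS q hq).1) h ha'.1 he'
    · exact (CRT_inj (fun q hq => (hS q hq).1) h ha.1 fun q hq => (he' q hq).symm).symm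

end Pool.LW
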