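import Pool.Agent.Work.MP_aebf03_lw.Interface

/-!
# MP_aebf03_nt, theorem LW: block FIN
-/

set_option autoImplicit false

namespace Pool.LW

open Finset Filter

theorem FIN_log_le (s κ : ℝ) (hs : 0 < s) (hκ : 0 < κ) :
    ∀ᶠ y : ℝ in atTop, Real.log y ≤ κ * y ^ s := by
  filter_upwards [(isLittleO_log_rpow_atTop hs).bound hκ, eventually_ge_atTop (1 : ℝ)] with y h1 h2
  rw [Real.norm_of_nonneg (Real.log_nonneg h2), Real.norm_of_nonneg (Real.rpow_nonneg (by linarith) _)]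
    at h1
  exact h1

theorem FIN_prod (u v : ℕ) : ((∏ q ∈ Q4 u v, q : ℕ) : ℝ) ^ 2 ≤ 16 ^ v := by
  have h1 : ∏ q ∈ Q4 u v, q ≤ primorial v := by
    unfold primorial
    apply Finset.prod_le_prod_of_subset_of_one_le'
    · intro q hq
      unfold Q4 at hq
      rw [Finset.mem_filter, Finset.mem_Ioc] at hq
      rw [Finset.mem_filter, Finset.mem_range]
      exact ⟨by omega, hq.2.1⟩
    · intro q hq _
      rw [Finset.mem_filter] at hq
      exact hq.2.one_le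
  have h2 := h1.trans (primorial_le_four_pow v)
  have h3 : ((∏ q ∈ Q4 u v, q : ℕ) : ℝ) ≤ (4 : ℝ) ^ v := by exact_mod_cast h2
  calc ((∏ q ∈ Q4 u v, q : ℕ) : ℝ) ^ 2 ≤ ((4 : ℝ) ^ v) ^ 2 := by
        apply pow_le_pow_left₀ (Nat.cast_nonneg _) h3
    _ = 16 ^ v := by
        rw [← pow_mul, mul_comm, pow_mul]
        norm_num

theorem FIN_exp3 : (16 : ℝ) ≤ Real.exp 3 := by
  have h4 := Real.exp_one_gt_d9
  have h5 : Real.exp 3 = Real.exp 1 * Real.exp 1 * Real.exp 1 := by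
    rw [← Real.exp_add, ← Real.exp_add]; norm_num
  rw [h5]
  have h6 : (7.38 : ℝ) ≤ Real.exp 1 * Real.exp 1 := by nlinarith
  nlinarith

theorem p_FIN (hCLS : S_CLS) (hDS : S_DS) (hM4 : S_M4) (hSMO : S_SMO) (hSQR : S_SQR)
    (hDEC : S_DEC) (hSUM : S_SUM) : S_FIN := by
  intro c hc ε hε
  obtain ⟨CD, hCD0, hCD⟩ := hDS
  obtain ⟨C4, hC4⟩ := hM4
  obtain ⟨CM, hCM0, hCM⟩ := hSMO
  obtain ⟨CS, hCS0, hCS⟩ := hSUM
  obtain ⟨δ, hδ0, hδ1, hδ2⟩ : ∃ δ : ℝ, 0 < δ ∧ δ ≤ 1 ∧ CM * δ ≤ ε / 5 := by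
    refine ⟨min 1 (ε / (5 * CM)), lt_min one_pos (by positivity), min_le_left _ _, ?_⟩
    calc CM * min 1 (ε / (5 * CM)) ≤ CM * (ε / (5 * CM)) := by
          apply mul_le_mul_of_nonneg_left (min_le_right _ _) hCM0.le
      _ = ε / 5 := by field_simp
  have hb : ∀ m q : ℕ, ∃ b : ℕ, (q.Prime ∧ q % 4 = 1 ∧ ¬ q ∣ c * m.totient) →
      (0 < b ∧ b < q ∧ ∀ r : ℕ, 1 ≤ r → r % q = b → q ∣ (c * m.totient * (r - 1)) ^ 2 + 1) := by
    intro m q
    by_cases h : q.Prime ∧ q % 4 = 1 ∧ ¬ q ∣ c * m.totient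
    · obtain ⟨b, hb⟩ := hCLS q h.1 h.2.1 (c * m.totient) h.2.2
      exact ⟨b, fun _ => hb⟩
    · exact ⟨0, fun h' => absurd h' h⟩
  choose b hb using hb
  have hbSS : ∀ u v m q : ℕ, q ∈ SS c u v m →
      (0 < b m q ∧ b m q < q ∧ ∀ r : ℕ, 1 ≤ r → r % q = b m q →
        q ∣ (c * m.totient * (r - 1)) ^ 2 + 1) := by
    intro u v m q hq
    unfold SS Q4 at hq
    rw [Finset.mem_filter, Finset.mem_filter] at hq
    exact hb m q ⟨hq.1.2.1, hq.1.2.2, hq.2⟩
  -- constants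
  obtain ⟨η, hη⟩ : ∃ η : ℝ, η = ε * δ / (20 * CS) := ⟨_, rfl⟩
  have hη0 : 0 < η := by rw [hη]; positivity
  obtain ⟨G, hG⟩ : ∃ G : ℝ, G = Real.exp (2 * ((1 - Real.log η) + C4)) := ⟨_, rfl⟩
  have hG0 : 0 < G := by rw [hG]; exact Real.exp_pos _
  -- limits
  have tl : Tendsto (fun x : ℕ => Real.log (x : ℝ)) atTop atTop :=
    Real.tendsto_log_atTop.comp tendsto_natCast_atTop_atTop
  have tw : Tendsto (fun x : ℕ => Real.log (Real.log (x : ℝ))) atTop atTop :=
    Real.tendsto_log_atTop.comp tl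
  have tp : Tendsto (fun x : ℕ => (x : ℝ) ^ (δ / 2)) atTop atTop :=
    (tendsto_rpow_atTop (by positivity)).comp tendsto_natCast_atTop_atTop
  have f2 := tw.eventually (FIN_log_le 1 (1 / (6 * G)) one_pos (by positivity))
  have f3 := tw.eventually (FIN_log_le 1 (1 / 6) one_pos (by norm_num))
  have f4 := (tendsto_natCast_atTop_atTop (R := ℝ)).eventually
    (FIN_log_le (δ / 2) (ε / 10) (by positivity) (by positivity))
  have f5 := tp.eventually_ge_atTop (10 / ε + 2)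
  have f6 := (tendsto_natCast_atTop_atTop (R := ℝ)).eventually
    (FIN_log_le 1 (ε / 5) one_pos (by positivity))
  have f7 := tl.eventually_ge_atTop ((16 / δ) ^ 2 + 2)
  have f8 := tw.eventually_ge_atTop ((c : ℝ) + 5 + 100 * CS * CD / (δ * ε))
  obtain ⟨X0, hX0⟩ := eventually_atTop.1 (f2.and (f3.and (f4.and (f5.and (f6.and (f7.and
    (f8.and (eventually_ge_atTop 3))))))))
  refine ⟨X0, fun x hx => ?_⟩
  obtain ⟨g2, g3, g4, g5, g6, g7, g8, hx3⟩ := hX0 x hx
  have hX3 : (3 : ℝ) ≤ x := by exact_mod_cast hx3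
  have hX0' : (0 : ℝ) < x := by linarith
  obtain ⟨l, hl⟩ : ∃ l : ℝ, l = Real.log (x : ℝ) := ⟨_, rfl⟩
  obtain ⟨w, hw⟩ : ∃ w : ℝ, w = Real.log l := ⟨_, rfl⟩
  obtain ⟨p, hp⟩ : ∃ p : ℝ, p = (x : ℝ) ^ (δ / 2) := ⟨_, rfl⟩
  rw [← hl, ← hw, Real.rpow_one] at g2 g3
  rw [← hl, ← hp] at g4
  rw [← hp] at g5
  rw [← hl, Real.rpow_one] at g6
  rw [← hl] at g7
  rw [← hl, ← hw] at g8
  have hl2 : 2 ≤ l := by
    have : 0 ≤ (16 / δ) ^ 2 := by positivity
    linarith
  have hl0 : 0 < l := by linarith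
  have hK0 : 0 ≤ 100 * CS * CD / (δ * ε) := by positivity
  have hc1 : (1 : ℝ) ≤ c := by exact_mod_cast hc
  have hw6 : 6 ≤ w := by linarith
  have hw0 : 0 < w := by linarith
  have hlw0 : 0 < Real.log w := Real.log_pos (by linarith)
  have hp2 : 2 ≤ p := by
    have : 0 < 10 / ε := by positivity
    linarith
  have hp0 : 0 < p := by linarith
  have hp10 : 1 ≤ ε / 10 * p := by
    have h1 : 10 / ε ≤ p := by linarith
    rw [div_le_iff₀ hε] at h1
    linarith
  have hpp : p * p = (x : ℝ) ^ δ := by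
    rw [hp, ← Real.rpow_add hX0']
    congr 1
    ring
  have hlogp : Real.log p = δ / 2 * l := by
    rw [hp, Real.log_rpow hX0', hl]
  -- z
  obtain ⟨z, hz⟩ : ∃ z : ℕ, z = ⌊(x : ℝ) ^ δ⌋₊ := ⟨_, rfl⟩
  have hz1 : (z : ℝ) ≤ (x : ℝ) ^ δ := by rw [hz]; exact Nat.floor_le (by positivity)
  have hz2 : (x : ℝ) ^ δ < (z : ℝ) + 1 := by rw [hz]; exact Nat.lt_floor_add_one _
  have hzp : p ≤ (z : ℝ) := by
    have h1 := mul_le_mul_of_nonneg_right hp2 hp0.le
    linarith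
  have hz0 : (0 : ℝ) < z := by linarith
  have hz2' : 2 ≤ z := by
    have : (2 : ℝ) ≤ z := by linarith
    exact_mod_cast this
  have hzx : z ≤ x := by
    have h1 : (x : ℝ) ^ δ ≤ (x : ℝ) ^ (1 : ℝ) :=
      Real.rpow_le_rpow_of_exponent_le (by linarith) hδ1
    rw [Real.rpow_one] at h1
    exact_mod_cast hz1.trans h1
  have hlz1 : Real.log z ≤ δ * l := by
    have h1 := Real.log_le_log hz0 hz1
    rw [Real.log_rpow hX0', ← hl] at h1
    exact h1
  have hlz2 : δ / 2 * l ≤ Real.log z := by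
    rw [← hlogp]
    exact Real.log_le_log hp0 hzp
  have hlz0 : 0 < Real.log z := lt_of_lt_of_le (by positivity) hlz2
  -- v
  obtain ⟨v, hv⟩ : ∃ v : ℕ, v = ⌊δ / 8 * l⌋₊ := ⟨_, rfl⟩
  have hv1 : (v : ℝ) ≤ δ / 8 * l := by rw [hv]; exact Nat.floor_le (by positivity)
  have hv2 : δ / 8 * l < (v : ℝ) + 1 := by rw [hv]; exact Nat.lt_floor_add_one _
  have hsq : Real.sqrt l ≤ (v : ℝ) := by
    obtain ⟨t, ht⟩ : ∃ t : ℝ, t = Real.sqrt l := ⟨_, rfl⟩
    have htt : t * t = l := by rw [ht]; exact Real.mul_self_sqrt hl0.le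
    have ht0 : 0 ≤ t := by rw [ht]; exact Real.sqrt_nonneg _
    have hδ16 : 16 ≤ 16 / δ := by
      rw [le_div_iff₀ hδ0]
      linarith
    have h1 : 16 / δ ≤ t := by
      by_contra hcon
      rw [not_le] at hcon
      have h0 : t * t < (16 / δ) * (16 / δ) := mul_self_lt_mul_self ht0 hcon
      rw [← sq (16 / δ)] at h0
      linarith
    rw [← ht]
    have h2 : 16 ≤ δ * t := by
      rw [div_le_iff₀ hδ0] at h1
      linarith
    have h3 : 2 * t ≤ δ / 8 * (t * t) := by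
      have h4 := mul_le_mul_of_nonneg_right h2 ht0
      linarith
    rw [htt] at h3
    linarith
  have hsq0 : 0 < Real.sqrt l := Real.sqrt_pos.2 hl0
  have hv0 : (0 : ℝ) < v := lt_of_lt_of_le hsq0 hsq
  have hlv : w / 2 ≤ Real.log v := by
    have h1 := Real.log_le_log hsq0 hsq
    rw [Real.log_sqrt hl0.le, ← hw] at h1
    exact h1
  have hδl : δ * l ≤ l := mul_le_of_le_one_left hl0.le hδ1
  have hδl0 : 0 < δ * l := mul_pos hδ0 hl0
  have hww : 6 * w ≤ w ^ 2 := by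
    rw [sq]
    exact mul_le_mul_of_nonneg_right hw6 hw0.le
  have hwww : 6 * w ^ 2 ≤ w ^ 3 := by
    have h1 := mul_le_mul_of_nonneg_right hw6 (sq_nonneg w)
    calc 6 * w ^ 2 ≤ w * w ^ 2 := h1
      _ = w ^ 3 := by ring
  -- u
  obtain ⟨u, hu⟩ : ∃ u : ℕ, u = max (max c 5) ⌊w ^ 2⌋₊ := ⟨_, rfl⟩
  have hcu : c ≤ u := by rw [hu]; exact (le_max_left c 5).trans (le_max_left _ _)
  have hu5 : 5 ≤ u := by rw [hu]; exact (le_max_right c 5).trans (le_max_left _ _)
  have hu1 : w ^ 2 / 2 ≤ (u : ℝ) := by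
    have h1 : ⌊w ^ 2⌋₊ ≤ u := by rw [hu]; exact le_max_right _ _
    have h2 : ((⌊w ^ 2⌋₊ : ℕ) : ℝ) ≤ u := by exact_mod_cast h1
    have h3 := Nat.lt_floor_add_one (w ^ 2)
    linarith
  have hu2 : (u : ℝ) ≤ w ^ 3 := by
    have h1 : u ≤ c + 5 + ⌊w ^ 2⌋₊ := by rw [hu]; omega
    have h2 : (u : ℝ) ≤ c + 5 + ((⌊w ^ 2⌋₊ : ℕ) : ℝ) := by exact_mod_cast h1
    have h3 := Nat.floor_le (sq_nonneg w)
    have h4 : (c : ℝ) + 5 ≤ w := by linarith
    linarith
  have hu0 : (0 : ℝ) < u := by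
    have : (5 : ℝ) ≤ u := by exact_mod_cast hu5
    linarith
  have hlu : Real.log u ≤ 3 * Real.log w := by
    have h1 := Real.log_le_log hu0 hu2
    rw [Real.log_pow] at h1
    exact_mod_cast h1
  have hlu0 : 0 < Real.log u := by
    apply Real.log_pos
    have : (5 : ℝ) ≤ u := by exact_mod_cast hu5
    linarith
  have huv : u ≤ v := by
    have h1 : Real.log u ≤ Real.log v := by linarith
    rw [Real.log_le_log_iff hu0 hv0] at h1
    exact_mod_cast h1
  -- the sum T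
  obtain ⟨T, hT⟩ : ∃ T : ℝ, T = ∑ q ∈ Q4 u v, 1 / (q : ℝ) := ⟨_, rfl⟩
  have hTlow : Real.exp (1 - T) ≤ η := by
    have h1 := hC4 u v (by omega) huv
    rw [← hT] at h1
    have h2 : G ≤ Real.log v / Real.log u := by
      rw [le_div_iff₀ hlu0]
      have h3 : 6 * G * Real.log w ≤ w := by
        rw [one_div_mul_eq_div, le_div_iff₀ (by positivity)] at g2
        linarith
      have h4 : G * Real.log u ≤ G * (3 * Real.log w) := mul_le_mul_of_nonneg_left hlu hG0.le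
      linarith
    have h3 := Real.log_le_log hG0 h2
    rw [hG, Real.log_exp] at h3
    have h4 : 1 - T ≤ Real.log η := by linarith
    calc Real.exp (1 - T) ≤ Real.exp (Real.log η) := Real.exp_le_exp.2 h4
      _ = η := Real.exp_log hη0
  -- the product
  have hprod : (∏ q ∈ Q4 u v, q) ^ 2 ≤ z := by
    have h1 := FIN_prod u v
    have h2 : (16 : ℝ) ^ v ≤ z := by
      have h3 := FIN_exp3
      calc (16 : ℝ) ^ v ≤ (Real.exp 3) ^ v := pow_le_pow_left₀ (by norm_num) h3 v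
        _ = Real.exp (v * 3) := by rw [← Real.exp_nat_mul]
        _ ≤ Real.exp (Real.log p) := by
            apply Real.exp_le_exp.2
            rw [hlogp]
            linarith
        _ = p := Real.exp_log hp0
        _ ≤ z := hzp
    exact_mod_cast h1.trans h2
  -- the four estimates
  have e1 := hDEC c x z u v hc (by omega) b (fun m q hq r hr1 hr2 => (hbSS u v m q hq).2.2 r hr1 hr2)
  have e1r : ((Bad c x).card : ℝ) ≤ (Smo x z).card + (Sqr x z).card + 2 * v +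
      ∑ m ∈ Ioc 0 (x / z), ((RR (SS c u v m) (b m) (x / m)).card : ℝ) := by
    exact_mod_cast e1
  have e2 := hCM x z hz2' (by omega)
  have e3 := hSQR x z (by omega)
  have e4 := hCS c x z u v hz2' hzx hu5 hprod b
    (fun m q hq => ⟨(hbSS u v m q hq).1, (hbSS u v m q hq).2.1⟩)
  have e5 := hCD c u v x hc hcu (by omega) hx3
  rw [← hl] at e2 e5 e4
  rw [← hw] at e5
  rw [← hT] at e4
  -- term 1
  have k1 : CM * ((x : ℝ) * (Real.log z / l)) ≤ ε / 5 * x := by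
    have h1 : Real.log z / l ≤ δ := by
      rw [div_le_iff₀ hl0]
      exact hlz1
    calc CM * ((x : ℝ) * (Real.log z / l)) ≤ CM * ((x : ℝ) * δ) := by gcongr
      _ = (CM * δ) * x := by ring
      _ ≤ ε / 5 * x := by gcongr
  -- terms with 1 / z
  have k2 : (x : ℝ) / z + (x : ℝ) / z * v ≤ ε / 5 * x := by
    have h1 : (1 + (v : ℝ)) / z ≤ ε / 5 := by
      rw [div_le_iff₀ hz0]
      have h2 : (v : ℝ) ≤ l := by linarith
      have h3 : 1 + (v : ℝ) ≤ ε / 5 * p := by linarith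
      have h4 : ε / 5 * p ≤ ε / 5 * z := by gcongr
      linarith
    calc (x : ℝ) / z + (x : ℝ) / z * v = x * ((1 + (v : ℝ)) / z) := by ring
      _ ≤ x * (ε / 5) := by gcongr
      _ = ε / 5 * x := by ring
  have k3 : 2 * (v : ℝ) ≤ ε / 5 * x := by linarith
  -- the main term
  have k4 : CS * ((x : ℝ) / Real.log z) * (Real.exp (1 - T) * (1 + l) +
      ∑ m ∈ Ioc 0 x, DD c u v m / m) ≤ ε / 5 * x + ε / 5 * x := by
    have h1 : Real.exp (1 - T) * (1 + l) + ∑ m ∈ Ioc 0 x, DD c u v m / m ≤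
        (1 + l) * (η + CD * (5 / w)) := by
      have h2 : CD * (1 + l) * (1 + w + Real.log u) / u ≤ CD * (1 + l) * (5 / w) := by
        rw [mul_div_assoc]
        apply mul_le_mul_of_nonneg_left _ (by positivity)
        rw [div_le_div_iff₀ hu0 hw0]
        have h3 : 1 + w + Real.log u ≤ 5 / 2 * w := by linarith
        have h4 := mul_le_mul_of_nonneg_right h3 hw0.le
        have h5 : 5 / 2 * w * w = 5 * (w ^ 2 / 2) := by ring
        linarith
      have h4 : Real.exp (1 - T) * (1 + l) ≤ η * (1 + l) := by gcongr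
      linarith
    have h5 : (x : ℝ) / Real.log z * (1 + l) ≤ 4 / δ * x := by
      rw [div_mul_eq_mul_div, div_le_iff₀ hlz0]
      have h6 : 4 / δ * (x : ℝ) * (δ / 2 * l) ≤ 4 / δ * x * Real.log z := by gcongr
      have h7 : 4 / δ * (x : ℝ) * (δ / 2 * l) = x * (2 * l) := by field_simp; ring
      have h8 : (x : ℝ) * (1 + l) ≤ x * (2 * l) :=
        mul_le_mul_of_nonneg_left (by linarith) hX0'.le
      linarith
    have h8 : CS * (4 / δ * x) * η = ε / 5 * x := by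
      rw [hη]; field_simp; ring
    have h9 : CS * (4 / δ * x) * (CD * (5 / w)) ≤ ε / 5 * x := by
      have h10 : 100 * CS * CD / (δ * ε) ≤ w := by linarith
      rw [div_le_iff₀ (by positivity)] at h10
      have h11 : CS * (4 / δ * x) * (CD * (5 / w)) = (20 * CS * CD / (δ * w)) * x := by
        field_simp
        ring
      rw [h11]
      apply mul_le_mul_of_nonneg_right _ hX0'.le
      rw [div_le_div_iff₀ (by positivity) (by norm_num)]
      linarith
    calc CS * ((x : ℝ) / Real.log z) * (Real.exp (1 - T) * (1 + l) +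
          ∑ m ∈ Ioc 0 x, DD c u v m / m)
        ≤ CS * ((x : ℝ) / Real.log z) * ((1 + l) * (η + CD * (5 / w))) := by gcongr
      _ = CS * ((x : ℝ) / Real.log z * (1 + l)) * (η + CD * (5 / w)) := by ring
      _ ≤ CS * (4 / δ * x) * (η + CD * (5 / w)) := by gcongr
      _ = CS * (4 / δ * x) * η + CS * (4 / δ * x) * (CD * (5 / w)) := by ring
      _ ≤ ε / 5 * x + ε / 5 * x := by rw [h8]; gcongr
  linarith

end Pool.LW
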