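import Pool.Agent.Work.MP_aebf03_lw.Interface

/-! # Block FIN (second copy, helper30) -/

set_option autoImplicit false

namespace Pool.LW

open Finset Filter Topology

/-- the choice of the classes -/
theorem FINx_b (hCLS : S_CLS) (c : ℕ) : ∃ b : ℕ → ℕ → ℕ, ∀ u v m : ℕ, ∀ q ∈ SS c u v m,
    (0 < b m q ∧ b m q < q) ∧ ∀ r : ℕ, 1 ≤ r → r % q = b m q →
      q ∣ (c * m.totient * (r - 1)) ^ 2 + 1 := by
  classical
  have h : ∀ m q : ℕ, ∃ b : ℕ, q.Prime → q % 4 = 1 → ¬ q ∣ c * m.totient →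
      0 < b ∧ b < q ∧ ∀ r : ℕ, 1 ≤ r → r % q = b → q ∣ (c * m.totient * (r - 1)) ^ 2 + 1 := by
    intro m q
    by_cases h1 : q.Prime
    · by_cases h2 : q % 4 = 1
      · by_cases h3 : ¬ q ∣ c * m.totient
        · obtain ⟨b, hb⟩ := hCLS q h1 h2 (c * m.totient) h3
          exact ⟨b, fun _ _ _ => hb⟩
        · exact ⟨0, fun _ _ h => absurd h h3⟩
      · exact ⟨0, fun _ h => absurd h h2⟩
    · exact ⟨0, fun h => absurd h h1⟩
  choose b hb using h
  refine ⟨b, fun u v m q hq => ?_⟩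
  unfold SS at hq
  rw [mem_filter] at hq
  obtain ⟨hq1, hq2⟩ := hq
  unfold Q4 at hq1
  rw [mem_filter] at hq1
  obtain ⟨h1, h2, h3⟩ := hb m q hq1.2.1 hq1.2.2 hq2
  exact ⟨⟨h1, h2⟩, h3⟩

/-- the product of the primes -/
theorem FINx_prod (u v : ℕ) : ∏ q ∈ Q4 u v, q ≤ 4 ^ v := by
  classical
  have h1 : ∏ q ∈ Q4 u v, q ≤ primorial v := by
    unfold primorial
    apply prod_le_prod_of_subset_of_one_le'
    · intro q hq
      unfold Q4 at hq
      rw [mem_filter, mem_Ioc] at hq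
      rw [mem_filter, mem_range]
      exact ⟨by omega, hq.2.1⟩
    · intro q hq _
      rw [mem_filter] at hq
      exact hq.2.one_lt.le
  exact h1.trans (primorial_le_four_pow v)

/-- growth in `M = log L` -/
theorem FINx_M (c : ℕ) (C A η : ℝ) (hη : 0 < η) : ∀ᶠ M : ℝ in atTop,
    1 ≤ M ∧ (c : ℝ) + 6 + M ^ 2 ≤ M ^ 3 ∧ (1 + M + 3 * Real.log M) / M ^ 2 ≤ η ∧
      0 < Real.log M ∧ A ≤ 1 / 2 * Real.log ((M / 2) / (3 * Real.log M)) - C := by
  have h1 : Tendsto (fun M : ℝ => M / 2 / (3 * Real.log M)) atTop atTop := by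
    have h2 : Tendsto (fun M : ℝ => Real.log M / M) atTop (𝓝 0) :=
      Real.isLittleO_log_id_atTop.tendsto_div_nhds_zero
    have h3 : Tendsto (fun M : ℝ => Real.log M / M) atTop (𝓝[>] 0) := by
      rw [tendsto_nhdsWithin_iff]
      refine ⟨h2, ?_⟩
      filter_upwards [eventually_gt_atTop 1] with M hM
      exact div_pos (Real.log_pos hM) (by linarith)
    have h4 := h3.inv_tendsto_nhdsGT_zero
    have h5 := h4.const_mul_atTop (show (0 : ℝ) < 1 / 6 by norm_num)
    refine h5.congr fun M => ?_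
    simp only [Pi.inv_apply]
    rw [inv_div]
    ring
  have h2 : Tendsto (fun M : ℝ => 1 / 2 * Real.log (M / 2 / (3 * Real.log M)) - C) atTop atTop := by
    apply tendsto_atTop_add_const_right
    exact (Real.tendsto_log_atTop.comp h1).const_mul_atTop (by norm_num)
  have h3 : Tendsto (fun M : ℝ => (1 + M + 3 * Real.log M) / M ^ 2) atTop (𝓝 0) := by
    have g1 : Tendsto (fun M : ℝ => M⁻¹) atTop (𝓝 0) := tendsto_inv_atTop_zero
    have g2 : Tendsto (fun M : ℝ => Real.log M / M) atTop (𝓝 0) :=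
      Real.isLittleO_log_id_atTop.tendsto_div_nhds_zero
    have g3 := ((g1.mul g1).add g1).add ((g2.mul g1).const_mul 3)
    simp only [mul_zero, add_zero] at g3
    refine g3.congr' ?_
    filter_upwards [eventually_gt_atTop 0] with M hM
    field_simp
  filter_upwards [eventually_ge_atTop 2, eventually_ge_atTop ((c : ℝ) + 7),
    h3.eventually (ge_mem_nhds hη), h2.eventually_ge_atTop A] with M m1 m2 m3 m4
  have hc : (0 : ℝ) ≤ c := Nat.cast_nonneg c
  refine ⟨by linarith, ?_, m3, Real.log_pos (by linarith), m4⟩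
  nlinarith [mul_nonneg (show 0 ≤ M - 1 by linarith) (sq_nonneg M), sq_nonneg M]

/-- growth in `L = log x` -/
theorem FINx_L (c : ℕ) (δ η : ℝ) (hδ : 0 < δ) (hη : 0 < η) : ∀ᶠ L : ℝ in atTop,
    2 ≤ L ∧ 2 ≤ Real.exp (δ * L / 2) ∧ Real.exp (Real.log L / 2) + 1 ≤ δ * L / 8 ∧
      (c : ℝ) + 7 + Real.log L ^ 2 ≤ δ * L / 8 ∧ δ * L / 8 * Real.exp (-(δ * L / 2)) ≤ η ∧
      δ * L / 4 ≤ η * Real.exp L ∧ Real.exp (-(δ * L / 2)) ≤ η := by
  have hc : (0 : ℝ) ≤ c := Nat.cast_nonneg c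
  have t1 : Tendsto (fun L : ℝ => δ * L / 2) atTop atTop :=
    (tendsto_id.const_mul_atTop hδ).atTop_div_const (by norm_num)
  have t2 : Tendsto (fun w : ℝ => w * Real.exp (-w)) atTop (𝓝 0) := by
    have := Real.tendsto_pow_mul_exp_neg_atTop_nhds_zero 1
    simpa using this
  have t3 : Tendsto (fun L : ℝ => δ * L / 2 * Real.exp (-(δ * L / 2))) atTop (𝓝 0) := t2.comp t1
  have t4 : Tendsto (fun L : ℝ => Real.exp (-(δ * L / 2))) atTop (𝓝 0) :=
    Real.tendsto_exp_neg_atTop_nhds_zero.comp t1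
  have t5 : Tendsto (fun L : ℝ => Real.exp (δ * L / 2)) atTop atTop :=
    Real.tendsto_exp_atTop.comp t1
  have t6 : Tendsto (fun L : ℝ => Real.sqrt L) atTop atTop := Real.tendsto_sqrt_atTop
  filter_upwards [eventually_ge_atTop 2, t5.eventually_ge_atTop 2,
    t6.eventually_ge_atTop (16 / δ), t6.eventually_ge_atTop (8 * ((c : ℝ) + 7 + 16) / δ),
    t3.eventually (ge_mem_nhds hη), t4.eventually (ge_mem_nhds hη),
    t2.eventually (ge_mem_nhds (show 0 < η * (4 / δ) by positivity))] with L l1 l2 l3 l4 l5 l6 l7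
  have hL0 : 0 < L := by linarith
  have hsq : Real.sqrt L * Real.sqrt L = L := Real.mul_self_sqrt hL0.le
  have hs1 : 1 ≤ Real.sqrt L := by
    rw [Real.one_le_sqrt]
    linarith
  have he : Real.exp (Real.log L / 2) = Real.sqrt L := by
    rw [Real.sqrt_eq_rpow, Real.rpow_def_of_pos hL0]
    ring_nf
  refine ⟨l1, l2, ?_, ?_, ?_, ?_, l6⟩
  · rw [he]
    rw [div_le_iff₀ hδ] at l3
    nlinarith
  · have hlog : Real.log L ^ 2 ≤ 16 * Real.sqrt L := by
      have h1 := Real.log_le_rpow_div hL0.le (show (0 : ℝ) < 1 / 4 by norm_num)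
      have h0 : 0 ≤ Real.log L := Real.log_nonneg (by linarith)
      have h2 : Real.log L ^ 2 ≤ (L ^ (1 / 4 : ℝ) / (1 / 4)) ^ 2 := pow_le_pow_left₀ h0 h1 2
      have h3 : (L ^ (1 / 4 : ℝ) / (1 / 4)) ^ 2 = 16 * Real.sqrt L := by
        rw [Real.sqrt_eq_rpow, div_pow, ← Real.rpow_natCast (L ^ (1 / 4 : ℝ)) 2,
          ← Real.rpow_mul hL0.le]
        norm_num
        ring
      linarith
    rw [div_le_iff₀ hδ] at l4
    nlinarith
  · have h1 : 0 ≤ δ * L / 8 * Real.exp (-(δ * L / 2)) := by positivity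
    have h2 : δ * L / 2 * Real.exp (-(δ * L / 2)) = 4 * (δ * L / 8 * Real.exp (-(δ * L / 2))) := by
      ring
    rw [h2] at l5
    linarith
  · have h1 : L * Real.exp (-L) ≤ η * (4 / δ) := l7
    have h2 : L ≤ η * (4 / δ) * Real.exp L := by
      have h3 := mul_le_mul_of_nonneg_right h1 (Real.exp_pos L).le
      rwa [mul_assoc, ← Real.exp_add, neg_add_cancel, Real.exp_zero, mul_one] at h3
    calc δ * L / 4 ≤ δ * (η * (4 / δ) * Real.exp L) / 4 := by
          apply div_le_div_of_nonneg_right _ (by norm_num)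
          exact mul_le_mul_of_nonneg_left h2 hδ.le
      _ = η * Real.exp L := by field_simp

theorem p_FIN (hCLS : S_CLS) (hDS : S_DS) (hM4 : S_M4) (hSMO : S_SMO) (hSQR : S_SQR)
    (hDEC : S_DEC) (hSUM : S_SUM) : S_FIN := by
  intro c hc ε hε
  obtain ⟨CD, hCD, hDS⟩ := hDS
  obtain ⟨C4, hM4⟩ := hM4
  obtain ⟨CS, hCS, hSMO⟩ := hSMO
  obtain ⟨CU, hCU, hSUM⟩ := hSUM
  obtain ⟨b, hb⟩ := FINx_b hCLS c
  set δ : ℝ := min 1 (ε / (6 * CS)) with hδdef
  have hδ : 0 < δ := lt_min one_pos (by positivity)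
  have hδ1 : δ ≤ 1 := min_le_left _ _
  have hδ2 : CS * δ ≤ ε / 6 := by
    have : δ ≤ ε / (6 * CS) := min_le_right _ _
    calc CS * δ ≤ CS * (ε / (6 * CS)) := mul_le_mul_of_nonneg_left this hCS.le
      _ = ε / 6 := by field_simp
  have hA0 : 0 < ε * δ / (24 * CU) := by positivity
  have hlogN : Tendsto (fun x : ℕ => Real.log x) atTop atTop :=
    Real.tendsto_log_atTop.comp tendsto_natCast_atTop_atTop
  have hE := ((hlogN.eventually (FINx_L c δ (ε / 6) hδ (by positivity))).and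
    ((Real.tendsto_log_atTop.comp hlogN).eventually (FINx_M c C4
      (1 - Real.log (ε * δ / (24 * CU))) (ε * δ / (24 * CU * CD)) (by positivity)))).and
    (eventually_ge_atTop 3)
  obtain ⟨X, hX⟩ := eventually_atTop.mp hE
  refine ⟨X, fun x hx => ?_⟩
  obtain ⟨⟨⟨L1, L2, L3, L4, L5, L6, L7⟩, ⟨M1, M2, M3, M4, M5⟩⟩, hx3⟩ := hX x hx
  simp only [Function.comp_apply] at M1 M2 M3 M4 M5
  set L : ℝ := Real.log x with hL
  set M : ℝ := Real.log L with hM
  have hxr : (3 : ℝ) ≤ x := by exact_mod_cast hx3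
  have hx0 : (0 : ℝ) < x := by linarith
  have hexp : Real.exp L = x := Real.exp_log hx0
  set z : ℕ := ⌊Real.exp (δ * L)⌋₊ with hz
  set v : ℕ := ⌊δ * L / 8⌋₊ with hv
  set u : ℕ := c + 5 + ⌈M ^ 2⌉₊ with hu
  have hL0 : 0 < L := by linarith
  have hz1 : (z : ℝ) ≤ Real.exp (δ * L) := Nat.floor_le (Real.exp_pos _).le
  have hz2 : Real.exp (δ * L / 2) ≤ z := by
    have h1 : Real.exp (δ * L) < z + 1 := Nat.lt_floor_add_one _
    have h2 : Real.exp (δ * L) = Real.exp (δ * L / 2) * Real.exp (δ * L / 2) := by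
      rw [← Real.exp_add]
      ring_nf
    nlinarith
  have hz3 : (2 : ℝ) ≤ z := L2.trans hz2
  have hz4 : 2 ≤ z := by exact_mod_cast hz3
  have hz0 : (0 : ℝ) < z := by linarith
  have hzx : z ≤ x := by
    have h1 : (z : ℝ) ≤ x := by
      refine hz1.trans ?_
      rw [← hexp]
      apply Real.exp_le_exp.mpr
      nlinarith
    exact_mod_cast h1
  have hlz1 : δ * L / 2 ≤ Real.log z := by
    rw [← Real.log_exp (δ * L / 2)]
    exact Real.log_le_log (Real.exp_pos _) hz2
  have hlz2 : Real.log z ≤ δ * L := by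
    rw [← Real.log_exp (δ * L)]
    exact Real.log_le_log hz0 hz1
  have hv1 : (v : ℝ) ≤ δ * L / 8 := Nat.floor_le (by positivity)
  have hv2 : Real.exp (M / 2) ≤ v := by
    have h1 : δ * L / 8 < v + 1 := Nat.lt_floor_add_one _
    linarith
  have hu1 : M ^ 2 ≤ (u : ℝ) := by
    rw [hu]
    push_cast
    have := Nat.le_ceil (M ^ 2)
    have hc0 : (0 : ℝ) ≤ c := Nat.cast_nonneg c
    linarith
  have hu2 : (u : ℝ) ≤ c + 6 + M ^ 2 := by
    rw [hu]
    push_cast
    have := (Nat.ceil_lt_add_one (sq_nonneg M)).le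
    linarith
  have huv : u ≤ v := by
    have h1 : δ * L / 8 < v + 1 := Nat.lt_floor_add_one _
    have h2 : (u : ℝ) ≤ v := by linarith
    exact_mod_cast h2
  have hu0 : (0 : ℝ) < u := by
    have : 0 < u := by omega
    exact_mod_cast this
  have hu5 : (5 : ℝ) ≤ u := by
    have : 5 ≤ u := by omega
    exact_mod_cast this
  have hlu0 : 0 < Real.log u := Real.log_pos (by linarith)
  have hlu : Real.log u ≤ 3 * Real.log M := by
    have h1 : Real.log u ≤ Real.log (M ^ 3) := Real.log_le_log hu0 (by linarith)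
    rwa [Real.log_pow] at h1
  have hlv : M / 2 ≤ Real.log v := by
    rw [← Real.log_exp (M / 2)]
    exact Real.log_le_log (Real.exp_pos _) hv2
  have hM0 : 0 < M := by linarith
  -- the product
  have hprod : (∏ q ∈ Q4 u v, q) ^ 2 ≤ z := by
    have h1 : (∏ q ∈ Q4 u v, q) ^ 2 ≤ (4 ^ v) ^ 2 := Nat.pow_le_pow_left (FINx_prod u v) 2
    have h2 : (((4 ^ v) ^ 2 : ℕ) : ℝ) ≤ z := by
      refine le_trans ?_ hz2
      have h3 : (((4 ^ v) ^ 2 : ℕ) : ℝ) = Real.exp (v * (4 * Real.log 2)) := by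
        have h16 : Real.exp (4 * Real.log 2) = 16 := by
          have h0 : (4 : ℝ) * Real.log 2 = Real.log 16 := by
            rw [show (16 : ℝ) = 2 ^ 4 by norm_num, Real.log_pow]
            norm_num
          rw [h0, Real.exp_log (by norm_num)]
        rw [Real.exp_nat_mul, h16]
        push_cast
        rw [← pow_mul, mul_comm v 2, pow_mul]
        norm_num
      rw [h3]
      apply Real.exp_le_exp.mpr
      have h4 : Real.log 2 < 0.6931471808 := Real.log_two_lt_d9
      have h5 : (0 : ℝ) ≤ v := Nat.cast_nonneg v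
      nlinarith
    exact h1.trans (by exact_mod_cast h2)
  have hbad := hDEC c x z u v hc (by omega) b (fun m q hq r hr h => (hb u v m q hq).2 r hr h)
  have hbadr : ((Bad c x).card : ℝ) ≤ (Smo x z).card + (Sqr x z).card + 2 * v +
      ∑ m ∈ Ioc 0 (x / z), ((RR (SS c u v m) (b m) (x / m)).card : ℝ) := by
    exact_mod_cast hbad
  have hinv : 1 / (z : ℝ) ≤ Real.exp (-(δ * L / 2)) := by
    rw [Real.exp_neg, ← one_div]
    exact one_div_le_one_div_of_le (Real.exp_pos _) hz2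
  have T1 : ((Smo x z).card : ℝ) ≤ ε / 6 * x := by
    refine (hSMO x z hz4 (by omega)).trans ?_
    have h1 : Real.log z / Real.log x ≤ δ := by
      rw [div_le_iff₀ hL0]
      exact hlz2
    calc CS * (x * (Real.log z / Real.log x)) ≤ CS * (x * δ) := by
          apply mul_le_mul_of_nonneg_left _ hCS.le
          exact mul_le_mul_of_nonneg_left h1 hx0.le
      _ = CS * δ * x := by ring
      _ ≤ ε / 6 * x := mul_le_mul_of_nonneg_right hδ2 hx0.le
  have T2 : ((Sqr x z).card : ℝ) ≤ ε / 6 * x := by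
    refine (hSQR x z (by omega)).trans ?_
    calc (x : ℝ) / z = x * (1 / z) := by ring
      _ ≤ x * (ε / 6) := mul_le_mul_of_nonneg_left (hinv.trans L7) hx0.le
      _ = ε / 6 * x := by ring
  have T3 : 2 * (v : ℝ) ≤ ε / 6 * x := by
    rw [hexp] at L6
    linarith
  have hT := M4.le
  have hsum := hSUM c x z u v hz4 hzx (by omega) hprod b (fun m q hq => (hb u v m q hq).1)
  have hDD := hDS c u v x hc (by omega) (by omega) hx3
  have hQ := hM4 u v (by omega) huv
  rw [← hL] at hsum hDD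
  rw [← hM] at hDD
  have hratio : M / 2 / (3 * Real.log M) ≤ Real.log v / Real.log u :=
    div_le_div₀ (by linarith) hlv hlu0 hlu
  have hlogr : Real.log (M / 2 / (3 * Real.log M)) ≤ Real.log (Real.log v / Real.log u) :=
    Real.log_le_log (by positivity) hratio
  have hexpT : Real.exp (1 - ∑ q ∈ Q4 u v, 1 / (q : ℝ)) ≤ ε * δ / (24 * CU) := by
    rw [← Real.exp_log hA0]
    apply Real.exp_le_exp.mpr
    linarith
  have hW : (x : ℝ) / Real.log z ≤ 2 * x / (δ * L) := by
    calc (x : ℝ) / Real.log z ≤ x / (δ * L / 2) :=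
          div_le_div_of_nonneg_left hx0.le (by positivity) hlz1
      _ = 2 * x / (δ * L) := by field_simp
  have hW0 : 0 ≤ (x : ℝ) / Real.log z := by
    apply div_nonneg hx0.le
    exact le_trans (by positivity) hlz1
  have hS1 : Real.exp (1 - ∑ q ∈ Q4 u v, 1 / (q : ℝ)) * (1 + L) ≤
      ε * δ / (24 * CU) * (2 * L) :=
    mul_le_mul hexpT (by linarith) (by linarith) hA0.le
  have hS2 : ∑ m ∈ Ioc 0 x, DD c u v m / m ≤ CD * (2 * L) * (ε * δ / (24 * CU * CD)) := by
    refine hDD.trans ?_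
    have h1 : (1 + M + Real.log u) / u ≤ (1 + M + 3 * Real.log M) / M ^ 2 :=
      div_le_div₀ (by linarith) (by linarith) (by positivity) hu1
    have h2 := h1.trans M3
    calc CD * (1 + L) * (1 + M + Real.log u) / u = CD * (1 + L) * ((1 + M + Real.log u) / u) := by
          ring
      _ ≤ CD * (2 * L) * (ε * δ / (24 * CU * CD)) := by
          apply mul_le_mul _ h2 (div_nonneg (by linarith) hu0.le) (by positivity)
          exact mul_le_mul_of_nonneg_left (by linarith) hCD.le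
  have hS0 : 0 ≤ ε * δ / (24 * CU) * (2 * L) + CD * (2 * L) * (ε * δ / (24 * CU * CD)) := by
    positivity
  have T45 : CU * (x / Real.log z) *
      (Real.exp (1 - ∑ q ∈ Q4 u v, 1 / (q : ℝ)) * (1 + L) + ∑ m ∈ Ioc 0 x, DD c u v m / m) ≤
      ε / 6 * x + ε / 6 * x := by
    calc CU * (x / Real.log z) *
        (Real.exp (1 - ∑ q ∈ Q4 u v, 1 / (q : ℝ)) * (1 + L) + ∑ m ∈ Ioc 0 x, DD c u v m / m)
        ≤ CU * (x / Real.log z) *
          (ε * δ / (24 * CU) * (2 * L) + CD * (2 * L) * (ε * δ / (24 * CU * CD))) :=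
          mul_le_mul_of_nonneg_left (add_le_add hS1 hS2) (mul_nonneg hCU.le hW0)
      _ ≤ CU * (2 * x / (δ * L)) *
          (ε * δ / (24 * CU) * (2 * L) + CD * (2 * L) * (ε * δ / (24 * CU * CD))) :=
          mul_le_mul_of_nonneg_right (mul_le_mul_of_nonneg_left hW hCU.le) hS0
      _ = ε / 6 * x + ε / 6 * x := by
          field_simp
          ring
  have T6 : (x : ℝ) / z * v ≤ ε / 6 * x := by
    calc (x : ℝ) / z * v = x * ((1 / z) * v) := by ring
      _ ≤ x * (Real.exp (-(δ * L / 2)) * (δ * L / 8)) := by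
          apply mul_le_mul_of_nonneg_left _ hx0.le
          exact mul_le_mul hinv hv1 (Nat.cast_nonneg v) (Real.exp_pos _).le
      _ ≤ x * (ε / 6) := by
          apply mul_le_mul_of_nonneg_left _ hx0.le
          rw [mul_comm]
          exact L5
      _ = ε / 6 * x := by ring
  linarith

end Pool.LW
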