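import Pool.Agent.Work.MP_aebf03_lw.Interface

set_option autoImplicit false

namespace Pool.LW

open Finset

theorem NR_tot (S : Finset ℕ) (hS : ∀ q ∈ S, q.Prime) :
    (∏ q ∈ S, q).totient = ∏ q ∈ S, (q - 1) := by
  classical
  induction S using Finset.induction_on with
  | empty => simp
  | insert q S hq ih =>
    have h1 : Nat.Coprime q (∏ i ∈ S, i) := by
      apply Nat.Coprime.prod_right
      intro i hi
      rw [Nat.coprime_primes (hS q (mem_insert_self _ _)) (hS i (mem_insert_of_mem hi))]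
      intro h
      exact hq (h ▸ hi)
    rw [prod_insert hq, prod_insert hq, Nat.totient_mul h1,
      Nat.totient_prime (hS q (mem_insert_self _ _)),
      ih fun i hi => hS i (mem_insert_of_mem hi)]

theorem NR_fac (q : ℕ) (hq : 5 ≤ q) :
    (((q - 2 : ℕ) : ℝ)) / ((q - 1 : ℕ) : ℝ) ≤ Real.exp (-(1 / (q : ℝ))) := by
  have h5 : (5 : ℝ) ≤ q := by exact_mod_cast hq
  rw [Nat.cast_sub (by omega), Nat.cast_sub (by omega)]
  push_cast
  have hpos : (0 : ℝ) < (q : ℝ) - 1 := by linarith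
  have e : ((q : ℝ) - 2) / ((q : ℝ) - 1) = -(1 / ((q : ℝ) - 1)) + 1 := by
    field_simp
    ring
  rw [e]
  refine (Real.add_one_le_exp _).trans (Real.exp_le_exp.2 ?_)
  rw [neg_le_neg_iff]
  exact one_div_le_one_div_of_le hpos (by linarith)

theorem p_NR (hBT : S_BT) (hCRT : S_CRT) : S_NR := by
  classical
  obtain ⟨C, hC, hbt⟩ := hBT
  refine ⟨C, hC, fun S b y hS hb hQy hy => ?_⟩
  set Q : ℕ := ∏ q ∈ S, q with hQ
  have hQpos : 0 < Q := Finset.prod_pos fun q hq => (hS q hq).1.pos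
  set A : Finset ℕ := (range Q).filter (fun a => a.Coprime Q ∧ ∀ q ∈ S, a % q ≠ b q) with hA
  have hAc : A.card ≤ ∏ q ∈ S, (q - 2) := hCRT S hS b hb
  have hsub : RR S b y ⊆ S ∪ A.biUnion
      (fun a => (Ioc 0 y).filter (fun r => r.Prime ∧ r ≡ a [MOD Q])) := by
    intro r hr
    unfold RR at hr
    rw [mem_filter] at hr
    obtain ⟨hry, hrp, hrb⟩ := hr
    rw [mem_union]
    by_cases hd : r ∣ Q
    · left
      rw [hQ, hrp.prime.dvd_finset_prod_iff] at hd
      obtain ⟨q, hq, hrq⟩ := hd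
      rw [(Nat.prime_dvd_prime_iff_eq hrp (hS q hq).1).1 hrq]
      exact hq
    · right
      have hcop : r.Coprime Q := (Nat.Prime.coprime_iff_not_dvd hrp).2 hd
      rw [mem_biUnion]
      refine ⟨r % Q, ?_, ?_⟩
      · rw [hA, mem_filter, mem_range]
        refine ⟨Nat.mod_lt _ hQpos, ?_, ?_⟩
        · rw [Nat.Coprime, ← Nat.gcd_rec, Nat.gcd_comm]
          exact hcop
        · intro q hq
          rw [Nat.mod_mod_of_dvd r (Finset.dvd_prod_of_mem (fun i => i) hq)]
          exact hrb q hq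
      · rw [mem_filter]
        exact ⟨hry, hrp, (Nat.mod_modEq r Q).symm⟩
  have h1 : ((RR S b y).card : ℝ) ≤ S.card + ∑ a ∈ A,
      (((Ioc 0 y).filter (fun r => r.Prime ∧ r ≡ a [MOD Q])).card : ℝ) := by
    have h := (card_le_card hsub).trans (card_union_le _ _)
    have h' := h.trans (Nat.add_le_add_left card_biUnion_le _)
    exact_mod_cast h'
  have hlog : 0 < Real.log y := Real.log_pos (by exact_mod_cast (by omega : 1 < y))
  have hypos : (0 : ℝ) < y := by exact_mod_cast (by omega : 0 < y)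
  have hφ : (0 : ℝ) < (Q.totient : ℝ) := by exact_mod_cast Nat.totient_pos.2 hQpos
  have h2 : ∑ a ∈ A, (((Ioc 0 y).filter (fun r => r.Prime ∧ r ≡ a [MOD Q])).card : ℝ) ≤
      A.card * (C * (y / (Q.totient * Real.log y))) := by
    rw [← nsmul_eq_mul]
    exact Finset.sum_le_card_nsmul _ _ _ fun a _ => hbt Q y a hQpos hQy hy
  have h3 : (A.card : ℝ) / Q.totient ≤ Real.exp (-∑ q ∈ S, 1 / (q : ℝ)) := by
    have e1 : (A.card : ℝ) ≤ ∏ q ∈ S, ((q - 2 : ℕ) : ℝ) := by exact_mod_cast hAc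
    have e2 : (Q.totient : ℝ) = ∏ q ∈ S, ((q - 1 : ℕ) : ℝ) := by
      rw [hQ, NR_tot S fun q hq => (hS q hq).1]
      push_cast
      rfl
    calc (A.card : ℝ) / Q.totient ≤ (∏ q ∈ S, ((q - 2 : ℕ) : ℝ)) / Q.totient := by gcongr
      _ = ∏ q ∈ S, (((q - 2 : ℕ) : ℝ) / ((q - 1 : ℕ) : ℝ)) := by
          rw [e2, Finset.prod_div_distrib]
      _ ≤ ∏ q ∈ S, Real.exp (-(1 / (q : ℝ))) := by
          apply Finset.prod_le_prod
          · intro q _
            positivity
          · intro q hq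
            exact NR_fac q (hS q hq).2
      _ = Real.exp (-∑ q ∈ S, 1 / (q : ℝ)) := by
          rw [← Real.exp_sum, Finset.sum_neg_distrib]
  have h4 : (A.card : ℝ) * (C * (y / (Q.totient * Real.log y))) =
      C * (y / Real.log y) * ((A.card : ℝ) / Q.totient) := by
    field_simp
  have h5 : C * (y / Real.log y) * ((A.card : ℝ) / Q.totient) ≤
      C * (y / Real.log y) * Real.exp (-∑ q ∈ S, 1 / (q : ℝ)) :=
    mul_le_mul_of_nonneg_left h3 (by positivity)
  linarith

end Pool.LW
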