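import Pool.Agent.Work.MP_aebf03_lw.Interface

/-! # Block PI (helper1) -/

set_option autoImplicit false

namespace Pool.LW

open Finset

theorem p_PI (hBT : S_BT) : S_PI := by
  obtain ⟨C, hC, h⟩ := hBT
  intro ε hε
  refine ⟨max 3 ⌈Real.exp (C / ε)⌉₊, fun x hx => ?_⟩
  have hx3 : 3 ≤ x := (le_max_left _ _).trans hx
  have hx2 : Real.exp (C / ε) ≤ x :=
    (Nat.le_ceil _).trans (by exact_mod_cast (le_max_right _ _).trans hx)
  have hxr : (3 : ℝ) ≤ x := by exact_mod_cast hx3
  have hlog : C / ε ≤ Real.log x := by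
    rw [Real.le_log_iff_exp_le (by linarith)]
    exact hx2
  have hlp : 0 < Real.log x := Real.log_pos (by linarith)
  have h1 := h 1 x 0 one_pos (by omega) (by omega)
  have e : (Ioc 0 x).filter (fun r => r.Prime ∧ r ≡ 0 [MOD 1]) = (Ioc 0 x).filter Nat.Prime := by
    apply filter_congr
    intro r _
    exact ⟨fun h => h.1, fun h => ⟨h, Nat.modEq_one⟩⟩
  rw [e, Nat.totient_one, Nat.cast_one, one_mul] at h1
  refine h1.trans ?_
  rw [← mul_div_assoc, div_le_iff₀ hlp]
  rw [div_le_iff₀ hε] at hlog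
  have : (0 : ℝ) ≤ x := by linarith
  nlinarith [mul_le_mul_of_nonneg_right hlog this]

end Pool.LW
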