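import Pool.Agent.Work.MP_aebf03_lw.Interface
import Pool.Agent.Work.MP_b0c12c_nt_helper41.Mert

set_option autoImplicit false

namespace Pool.LW

open Finset

theorem SMOx_geom {p : ℕ} (hp : 2 ≤ p) (n : ℕ) :
    ∑ i ∈ Ioc 0 n, 1 / (p : ℝ) ^ i ≤ 2 / p - 2 / p * (1 / 2) ^ n := by
  have hpr : (2 : ℝ) ≤ p := by exact_mod_cast hp
  induction n with
  | zero => simp
  | succ n ih =>
    rw [Finset.sum_Ioc_succ_top (Nat.zero_le n)]
    have h1 : (1 / (p : ℝ)) ^ n ≤ (1 / 2) ^ n :=
      pow_le_pow_left₀ (by positivity) (one_div_le_one_div_of_le (by norm_num) hpr) n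
    have h2 : 1 / (p : ℝ) ^ (n + 1) = 1 / p * (1 / (p : ℝ)) ^ n := by
      rw [pow_succ, one_div_pow]
      field_simp
    have h3 : 1 / (p : ℝ) * (1 / (p : ℝ)) ^ n ≤ 1 / p * (1 / 2) ^ n :=
      mul_le_mul_of_nonneg_left h1 (by positivity)
    have h4 : 2 / (p : ℝ) * (1 / 2) ^ (n + 1) = 1 / p * (1 / 2) ^ n := by
      rw [pow_succ]
      ring
    have h5 : 2 / (p : ℝ) * (1 / 2) ^ n = 2 * (1 / p * (1 / 2) ^ n) := by ring
    linarith

theorem SMOx_log {x z m : ℕ} (hm : m ∈ Smo x z) :
    Real.log m ≤ ∑ p ∈ (Icc 1 z).filter Nat.Prime,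
      Real.log p * ∑ i ∈ Ioc 0 x, (if p ^ i ∣ m then (1 : ℝ) else 0) := by
  classical
  unfold Smo at hm
  rw [mem_filter, mem_Ioc] at hm
  obtain ⟨⟨hm0, hmx⟩, hs⟩ := hm
  rw [Real.log_nat_eq_sum_factorization]
  unfold Finsupp.sum
  have hsub : m.factorization.support ⊆ (Icc 1 z).filter Nat.Prime := by
    intro p hp
    rw [Nat.support_factorization, Nat.mem_primeFactors] at hp
    rw [mem_filter, mem_Icc]
    exact ⟨⟨hp.1.one_lt.le, hs p hp.1 hp.2.1⟩, hp.1⟩
  calc ∑ p ∈ m.factorization.support, (m.factorization p : ℝ) * Real.log p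
      ≤ ∑ p ∈ (Icc 1 z).filter Nat.Prime, (m.factorization p : ℝ) * Real.log p := by
        apply sum_le_sum_of_subset_of_nonneg hsub
        intro p _ _
        exact mul_nonneg (Nat.cast_nonneg _) (Real.log_natCast_nonneg p)
    _ ≤ _ := by
        apply sum_le_sum
        intro p hp
        rw [mem_filter] at hp
        rw [mul_comm]
        apply mul_le_mul_of_nonneg_left _ (Real.log_natCast_nonneg p)
        rw [Nat.factorization_eq_card_pow_dvd m hp.2, ← sum_filter, sum_const, nsmul_eq_mul,
          mul_one]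
        norm_cast
        apply card_le_card
        intro i hi
        rw [mem_filter, mem_Ico] at hi
        rw [mem_filter, mem_Ioc]
        exact ⟨⟨by omega, by omega⟩, hi.2⟩

theorem SMOx_sum (x z : ℕ) (hz : 1 ≤ z) :
    ∑ m ∈ Smo x z, Real.log m ≤ 2 * x * (Real.log z + 6) := by
  classical
  have h0 : Smo x z ⊆ Ioc 0 x := by
    unfold Smo
    exact filter_subset _ _
  calc ∑ m ∈ Smo x z, Real.log m
      ≤ ∑ m ∈ Smo x z, ∑ p ∈ (Icc 1 z).filter Nat.Prime,
        Real.log p * ∑ i ∈ Ioc 0 x, (if p ^ i ∣ m then (1 : ℝ) else 0) :=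
        sum_le_sum fun m hm => SMOx_log hm
    _ ≤ ∑ m ∈ Ioc 0 x, ∑ p ∈ (Icc 1 z).filter Nat.Prime,
        Real.log p * ∑ i ∈ Ioc 0 x, (if p ^ i ∣ m then (1 : ℝ) else 0) := by
        apply sum_le_sum_of_subset_of_nonneg h0
        intro m _ _
        apply sum_nonneg
        intro p _
        apply mul_nonneg (Real.log_natCast_nonneg p)
        apply sum_nonneg
        intro i _
        split_ifs <;> norm_num
    _ = ∑ p ∈ (Icc 1 z).filter Nat.Prime, Real.log p * ∑ i ∈ Ioc 0 x,
        (((Ioc 0 x).filter (fun m => p ^ i ∣ m)).card : ℝ) := by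
        rw [sum_comm]
        apply sum_congr rfl
        intro p _
        rw [← mul_sum, sum_comm]
        congr 1
        apply sum_congr rfl
        intro i _
        rw [← sum_filter, sum_const, nsmul_eq_mul, mul_one]
    _ ≤ ∑ p ∈ (Icc 1 z).filter Nat.Prime, Real.log p * (x * (2 / p)) := by
        apply sum_le_sum
        intro p hp
        rw [mem_filter] at hp
        apply mul_le_mul_of_nonneg_left _ (Real.log_natCast_nonneg p)
        have h2 := SMOx_geom hp.2.two_le x
        have h3 : (0 : ℝ) ≤ 2 / p * (1 / 2) ^ x := by positivity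
        calc ∑ i ∈ Ioc 0 x, (((Ioc 0 x).filter (fun m => p ^ i ∣ m)).card : ℝ)
            ≤ ∑ i ∈ Ioc 0 x, x * (1 / (p : ℝ) ^ i) := by
              apply sum_le_sum
              intro i _
              rw [Nat.Ioc_filter_dvd_card_eq_div]
              refine (Nat.cast_div_le).trans ?_
              rw [Nat.cast_pow, div_eq_mul_one_div]
          _ = x * ∑ i ∈ Ioc 0 x, 1 / (p : ℝ) ^ i := by rw [mul_sum]
          _ ≤ x * (2 / p) := by
              apply mul_le_mul_of_nonneg_left _ (Nat.cast_nonneg _)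
              linarith
    _ = 2 * x * Pool.Agent.Work.MP_b0c12c_nt_helper41.FF z := by
        unfold Pool.Agent.Work.MP_b0c12c_nt_helper41.FF
        rw [mul_sum]
        apply sum_congr rfl
        intro p _
        ring
    _ ≤ _ := by
        apply mul_le_mul_of_nonneg_left _ (by positivity)
        exact Pool.Agent.Work.MP_b0c12c_nt_helper41.FF_le hz

theorem p_SMO : S_SMO := by
  classical
  refine ⟨100, by norm_num, fun x z hz hx => ?_⟩
  have hxr : (2 : ℝ) ≤ x := by exact_mod_cast hx
  have hzr : (2 : ℝ) ≤ z := by exact_mod_cast hz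
  have hl2 : (0.69 : ℝ) < Real.log 2 := by have := Real.log_two_gt_d9; linarith
  have hlx : 0.69 < Real.log x := hl2.trans_le (Real.log_le_log (by norm_num) hxr)
  have hlz : 0.69 < Real.log z := hl2.trans_le (Real.log_le_log (by norm_num) hzr)
  have hS := SMOx_sum x z (by omega)
  have hsplit := Finset.card_filter_add_card_filter_not (s := Smo x z) (fun m => m * m ≤ x)
  have h1 : ((Smo x z).filter (fun m => m * m ≤ x)).card ≤ Nat.sqrt x := by
    calc ((Smo x z).filter (fun m => m * m ≤ x)).card ≤ (Ioc 0 (Nat.sqrt x)).card := by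
          apply card_le_card
          intro m hm
          rw [mem_filter] at hm
          have h := hm.1
          unfold Smo at h
          rw [mem_filter, mem_Ioc] at h
          rw [mem_Ioc]
          exact ⟨h.1.1, Nat.le_sqrt.2 hm.2⟩
      _ = Nat.sqrt x := by rw [Nat.card_Ioc]; omega
  have h2 : (((Smo x z).filter (fun m => ¬ m * m ≤ x)).card : ℝ) * (Real.log x / 2) ≤
      2 * x * (Real.log z + 6) := by
    calc (((Smo x z).filter (fun m => ¬ m * m ≤ x)).card : ℝ) * (Real.log x / 2)
        = ∑ m ∈ (Smo x z).filter (fun m => ¬ m * m ≤ x), Real.log x / 2 := by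
          rw [sum_const, nsmul_eq_mul]
      _ ≤ ∑ m ∈ (Smo x z).filter (fun m => ¬ m * m ≤ x), Real.log m := by
          apply sum_le_sum
          intro m hm
          rw [mem_filter] at hm
          have hmm : (x : ℝ) ≤ (m : ℝ) * m := by exact_mod_cast (not_le.1 hm.2).le
          have hm0 : (0 : ℝ) < m := by
            rcases Nat.eq_zero_or_pos m with h | h
            · exact absurd hm.2 (by subst h; simp)
            · exact_mod_cast h
          have := Real.log_le_log (by linarith) hmm
          rw [Real.log_mul hm0.ne' hm0.ne'] at this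
          linarith
      _ ≤ ∑ m ∈ Smo x z, Real.log m := by
          apply sum_le_sum_of_subset_of_nonneg (filter_subset _ _)
          intro m _ _
          exact Real.log_natCast_nonneg m
      _ ≤ _ := hS
  have h3 : ((Nat.sqrt x : ℕ) : ℝ) * Real.log x ≤ 2 * x := by
    have hs : ((Nat.sqrt x : ℕ) : ℝ) ≤ Real.sqrt x := Real.nat_sqrt_le_real_sqrt
    have h4 : Real.log x ≤ 2 * Real.sqrt x := by
      have h5 : Real.log (Real.sqrt x) = Real.log x / 2 := Real.log_sqrt (by linarith)
      have h6 := Real.log_le_sub_one_of_pos (Real.sqrt_pos.2 (by linarith : (0 : ℝ) < x))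
      linarith
    calc ((Nat.sqrt x : ℕ) : ℝ) * Real.log x ≤ Real.sqrt x * (2 * Real.sqrt x) := by
          apply mul_le_mul hs h4 (by linarith) (Real.sqrt_nonneg _)
      _ = 2 * (Real.sqrt x * Real.sqrt x) := by ring
      _ = 2 * x := by rw [Real.mul_self_sqrt (by linarith)]
  have h1r : (((Smo x z).filter (fun m => m * m ≤ x)).card : ℝ) ≤ (Nat.sqrt x : ℕ) := by
    exact_mod_cast h1
  have hc : ((Smo x z).card : ℝ) = (((Smo x z).filter (fun m => m * m ≤ x)).card : ℝ) +
      (((Smo x z).filter (fun m => ¬ m * m ≤ x)).card : ℝ) := by exact_mod_cast hsplit.symm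
  have key : ((Smo x z).card : ℝ) * Real.log x ≤ 100 * (x * Real.log z) := by
    rw [hc, add_mul]
    have h7 : (((Smo x z).filter (fun m => m * m ≤ x)).card : ℝ) * Real.log x ≤ 2 * x :=
      (mul_le_mul_of_nonneg_right h1r (by linarith)).trans h3
    have h8 : (x : ℝ) * 0.69 ≤ x * Real.log z := mul_le_mul_of_nonneg_left hlz.le (by linarith)
    nlinarith
  calc ((Smo x z).card : ℝ) = ((Smo x z).card : ℝ) * Real.log x / Real.log x := by
        field_simp
    _ ≤ 100 * (x * Real.log z) / Real.log x :=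
        div_le_div_of_nonneg_right key (by linarith)
    _ = 100 * (x * (Real.log z / Real.log x)) := by ring

end Pool.LW
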