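import Pool.Agent.Work.MP_aebf03_lw.Interface

/-! Block SUM (helper88) -/

set_option autoImplicit false

namespace Pool.LW

open Finset

theorem SUM_dd_nonneg (c u v m : ℕ) : 0 ≤ DD c u v m := sum_nonneg fun q _ => by positivity

theorem SUM_split (c u v m : ℕ) : ∑ q ∈ SS c u v m, 1 / (q : ℝ) =
    ∑ q ∈ Q4 u v, 1 / (q : ℝ) - DD c u v m := by
  unfold SS DD
  have := sum_filter_add_sum_filter_not (Q4 u v) (fun q => q ∣ c * m.totient)
    (fun q => 1 / (q : ℝ))
  linarith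

theorem SUM_exp (c u v m : ℕ) : Real.exp (-∑ q ∈ SS c u v m, 1 / (q : ℝ)) ≤
    Real.exp (1 - ∑ q ∈ Q4 u v, 1 / (q : ℝ)) + DD c u v m := by
  have h0 := SUM_dd_nonneg c u v m
  by_cases h : DD c u v m ≤ 1
  · have : Real.exp (-∑ q ∈ SS c u v m, 1 / (q : ℝ)) ≤
        Real.exp (1 - ∑ q ∈ Q4 u v, 1 / (q : ℝ)) := by
      apply Real.exp_le_exp.2
      rw [SUM_split]
      linarith
    linarith
  · push Not at h
    have h1 : Real.exp (-∑ q ∈ SS c u v m, 1 / (q : ℝ)) ≤ 1 := by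
      rw [Real.exp_le_one_iff]
      have : 0 ≤ ∑ q ∈ SS c u v m, 1 / (q : ℝ) := sum_nonneg fun q _ => by positivity
      linarith
    have := Real.exp_pos (1 - ∑ q ∈ Q4 u v, 1 / (q : ℝ))
    linarith

theorem SUM_q4 {u v q : ℕ} (hu : 5 ≤ u) (hq : q ∈ Q4 u v) : q.Prime ∧ 5 ≤ q := by
  unfold Q4 at hq
  rw [mem_filter, mem_Ioc] at hq
  exact ⟨hq.2.1, by omega⟩

theorem SUM_sub (c u v m : ℕ) : SS c u v m ⊆ Q4 u v := filter_subset _ _

theorem p_SUM (hNR : S_NR) (hHAR : S_HAR) : S_SUM := by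
  obtain ⟨C, hC, h⟩ := hNR
  refine ⟨C, hC, ?_⟩
  intro c x z u v hz hzx hu hprod b hb
  have hlz : 0 < Real.log z := Real.log_pos (by exact_mod_cast (by omega : 1 < z))
  set T := ∑ q ∈ Q4 u v, 1 / (q : ℝ) with hT
  have hterm : ∀ m ∈ Ioc 0 (x / z), ((RR (SS c u v m) (b m) (x / m)).card : ℝ) ≤
      C * (x / Real.log z) * ((Real.exp (1 - T) + DD c u v m) / m) + v := by
    intro m hm
    rw [mem_Ioc] at hm
    have hm0 : 0 < m := hm.1
    have hzy : z ≤ x / m := by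
      rw [Nat.le_div_iff_mul_le hm0]
      have := (Nat.le_div_iff_mul_le (by omega : 0 < z)).1 hm.2
      rwa [mul_comm]
    have hpr : (∏ q ∈ SS c u v m, q) ≤ ∏ q ∈ Q4 u v, q :=
      prod_le_prod_of_subset_of_one_le' (SUM_sub c u v m)
        (fun q hq _ => (SUM_q4 hu hq).1.one_lt.le)
    have h1 := h (SS c u v m) (b m) (x / m) (fun q hq => SUM_q4 hu (SUM_sub c u v m hq))
      (fun q hq => hb m q hq) (((Nat.pow_le_pow_left hpr 2).trans hprod).trans hzy) (hz.trans hzy)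
    have h2 := SUM_exp c u v m
    have h3 : ((SS c u v m).card : ℝ) ≤ v := by
      have h4 : (SS c u v m).card ≤ (Ioc u v).card :=
        card_le_card ((SUM_sub c u v m).trans (filter_subset _ _))
      rw [Nat.card_Ioc] at h4
      exact_mod_cast (by omega : (SS c u v m).card ≤ v)
    have hm0r : (0 : ℝ) < m := by exact_mod_cast hm0
    have h5 : ((x / m : ℕ) : ℝ) ≤ x / m := Nat.cast_div_le
    have hzyr : (z : ℝ) ≤ ((x / m : ℕ) : ℝ) := by exact_mod_cast hzy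
    have hz0 : (0 : ℝ) < z := by exact_mod_cast (by omega : 0 < z)
    have h6 : Real.log z ≤ Real.log ((x / m : ℕ) : ℝ) := Real.log_le_log hz0 hzyr
    have h7 : ((x / m : ℕ) : ℝ) / Real.log ((x / m : ℕ) : ℝ) ≤ (x / m) / Real.log z :=
      div_le_div₀ (by positivity) h5 hlz h6
    have h8 : 0 ≤ ((x / m : ℕ) : ℝ) / Real.log ((x / m : ℕ) : ℝ) :=
      div_nonneg (by positivity) (hlz.le.trans h6)
    have h9 := Real.exp_pos (-∑ q ∈ SS c u v m, 1 / (q : ℝ))
    have h10 : C * (((x / m : ℕ) : ℝ) / Real.log ((x / m : ℕ) : ℝ)) *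
        Real.exp (-∑ q ∈ SS c u v m, 1 / (q : ℝ)) ≤
        C * ((x / m) / Real.log z) * (Real.exp (1 - T) + DD c u v m) := by
      have : 0 ≤ (x / m : ℝ) / Real.log z := by positivity
      apply mul_le_mul (mul_le_mul_of_nonneg_left h7 hC.le) h2 h9.le (by positivity)
    have h11 : C * ((x / m : ℝ) / Real.log z) * (Real.exp (1 - T) + DD c u v m) =
        C * (x / Real.log z) * ((Real.exp (1 - T) + DD c u v m) / m) := by
      field_simp
    linarith
  have hx1 : 1 ≤ x := by omega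
  have hsubI : Ioc 0 (x / z) ⊆ Ioc 0 x := Ioc_subset_Ioc_right (Nat.div_le_self _ _)
  have hharm : ∑ m ∈ Ioc 0 (x / z), 1 / (m : ℝ) ≤ 1 + Real.log x := by
    have h1 := hHAR x 1 hx1 le_rfl
    have h2 : (Ioc 0 x).filter (fun m => 1 ∣ m) = Ioc 0 x := by
      rw [filter_true_of_mem]
      intro m _
      exact one_dvd m
    rw [h2, Nat.cast_one, div_one] at h1
    exact (sum_le_sum_of_subset_of_nonneg hsubI fun m _ _ => by positivity).trans h1
  have hDD : ∑ m ∈ Ioc 0 (x / z), DD c u v m / m ≤ ∑ m ∈ Ioc 0 x, DD c u v m / m :=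
    sum_le_sum_of_subset_of_nonneg hsubI fun m _ _ =>
      div_nonneg (SUM_dd_nonneg c u v m) (by positivity)
  have hcnt : ((x / z : ℕ) : ℝ) * v ≤ (x : ℝ) / z * v :=
    mul_le_mul_of_nonneg_right Nat.cast_div_le (by positivity)
  refine (sum_le_sum hterm).trans ?_
  rw [sum_add_distrib, ← mul_sum, sum_const, Nat.card_Ioc, Nat.sub_zero, nsmul_eq_mul]
  have hsplit : ∑ m ∈ Ioc 0 (x / z), (Real.exp (1 - T) + DD c u v m) / (m : ℝ) =
      Real.exp (1 - T) * ∑ m ∈ Ioc 0 (x / z), 1 / (m : ℝ) +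
        ∑ m ∈ Ioc 0 (x / z), DD c u v m / m := by
    rw [mul_sum, ← sum_add_distrib]
    refine sum_congr rfl fun m _ => ?_
    ring
  rw [hsplit]
  refine add_le_add ?_ hcnt
  apply mul_le_mul_of_nonneg_left _ (by positivity)
  have := Real.exp_pos (1 - T)
  exact add_le_add (mul_le_mul_of_nonneg_left hharm this.le) hDD

end Pool.LW
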