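import Pool.Agent.Work.MP_aebf03_lw.Interface

/-!
Block TRF (helper48): the witnesses of almost all n are far from both ends.
-/

set_option autoImplicit false

namespace Pool.LW

open Finset

/-- Block TRF. -/
theorem p_TRF (hFIN : S_FIN) (hPI : S_PI) : S_TRF := by
  classical
  intro K ε hε
  have hK : (0 : ℝ) < 2 * ((K : ℝ) + 1) := by positivity
  obtain ⟨e, he⟩ : ∃ e : ℝ, e = ε / (2 * ((K : ℝ) + 1)) := ⟨_, rfl⟩
  have he0 : 0 < e := by rw [he]; positivity
  have hF : ∀ p : ℕ, ∃ X : ℕ, ∀ x : ℕ, X ≤ x → ((Bad (p + 1) x).card : ℝ) ≤ e * x :=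
    fun p => hFIN (p + 1) (by omega) e he0
  choose Y hY using hF
  obtain ⟨Z, hZ⟩ := hPI e he0
  refine ⟨max Z ((range (K + 1)).sup Y), fun x hx => ?_⟩
  have hxZ : Z ≤ x := le_trans (le_max_left _ _) hx
  have hxY : ∀ p ∈ range (K + 1), Y p ≤ x := fun p hp =>
    le_trans (Finset.le_sup hp) (le_trans (le_max_right _ _) hx)
  have hsub : ((Ioc 0 x).filter (fun n => ∃ p : ℕ, p.Prime ∧ p < n ∧ (p ≤ K ∨ n ≤ p + K) ∧
      (((p + 1) * (n - p).totient) ^ 2 + 1).Prime)) ⊆
      (range (K + 1)).biUnion (fun p => (Bad (p + 1) x).image (fun m => m + p)) ∪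
      (range (K + 1)).biUnion
        (fun j => ((Ioc 0 x).filter Nat.Prime).image (fun m => m + j)) := by
    intro n hn
    simp only [Finset.mem_filter, Finset.mem_Ioc] at hn
    obtain ⟨⟨hn0, hnx⟩, p, hp, hpn, hor, hpr⟩ := hn
    rw [Finset.mem_union]
    rcases hor with h | h
    · left
      rw [Finset.mem_biUnion]
      refine ⟨p, Finset.mem_range.mpr (by omega), ?_⟩
      rw [Finset.mem_image]
      refine ⟨n - p, ?_, by omega⟩
      unfold Bad
      rw [Finset.mem_filter, Finset.mem_Ioc]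
      exact ⟨⟨by omega, by omega⟩, hpr⟩
    · right
      rw [Finset.mem_biUnion]
      refine ⟨n - p, Finset.mem_range.mpr (by omega), ?_⟩
      rw [Finset.mem_image]
      refine ⟨p, ?_, by omega⟩
      rw [Finset.mem_filter, Finset.mem_Ioc]
      exact ⟨⟨hp.pos, by omega⟩, hp⟩
  have h1 := (Finset.card_le_card hsub).trans (Finset.card_union_le _ _)
  have h2 : ((range (K + 1)).biUnion
      (fun p => (Bad (p + 1) x).image (fun m => m + p))).card ≤
      ∑ p ∈ range (K + 1), (Bad (p + 1) x).card :=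
    Finset.card_biUnion_le.trans (Finset.sum_le_sum fun m _ => Finset.card_image_le)
  have h3 : ((range (K + 1)).biUnion
      (fun j => ((Ioc 0 x).filter Nat.Prime).image (fun m => m + j))).card ≤
      ∑ _j ∈ range (K + 1), ((Ioc 0 x).filter Nat.Prime).card :=
    Finset.card_biUnion_le.trans (Finset.sum_le_sum fun m _ => Finset.card_image_le)
  have h4 : (∑ p ∈ range (K + 1), ((Bad (p + 1) x).card : ℝ)) ≤ ((K : ℝ) + 1) * (e * x) := by
    refine (Finset.sum_le_sum fun p hp => hY p x (hxY p hp)).trans ?_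
    rw [Finset.sum_const, Finset.card_range, nsmul_eq_mul]
    push_cast
    exact le_rfl
  have h5 : (∑ _j ∈ range (K + 1), (((Ioc 0 x).filter Nat.Prime).card : ℝ)) ≤
      ((K : ℝ) + 1) * (e * x) := by
    refine (Finset.sum_le_sum fun p _ => hZ x hxZ).trans ?_
    rw [Finset.sum_const, Finset.card_range, nsmul_eq_mul]
    push_cast
    exact le_rfl
  have h6 := h1.trans (Nat.add_le_add h2 h3)
  have h7 : (((Ioc 0 x).filter (fun n => ∃ p : ℕ, p.Prime ∧ p < n ∧ (p ≤ K ∨ n ≤ p + K) ∧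
      (((p + 1) * (n - p).totient) ^ 2 + 1).Prime)).card : ℝ) ≤
      (∑ p ∈ range (K + 1), ((Bad (p + 1) x).card : ℝ)) +
      ∑ _j ∈ range (K + 1), (((Ioc 0 x).filter Nat.Prime).card : ℝ) := by
    exact_mod_cast h6
  have h8 : ((K : ℝ) + 1) * (e * x) + ((K : ℝ) + 1) * (e * x) = ε * x := by
    rw [he]
    field_simp
    ring
  calc _ ≤ _ := h7
    _ ≤ _ := add_le_add h4 h5
    _ = ε * x := h8

end Pool.LW
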