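import Pool.Agent.Work.MP_aebf03_lw.Interface2

/-! # Block FIN2 (helper1) -/

set_option autoImplicit false

namespace Pool.LW

open Finset Filter Topology

theorem p_FIN2 (hSUM2 : S_SUM2) (hSM2 : S_SM2) (hSQR : S_SQR) (hDEC2 : S_DEC2) (hDS : S_DS) :
    S_FIN2 := by
  obtain ⟨s, hs, CU, hCU, hU⟩ := hSUM2
  obtain ⟨CS, hCS, hS⟩ := hSM2
  obtain ⟨CD, hCD, hD⟩ := hDS
  have hs1 : (1 : ℝ) ≤ s := by exact_mod_cast hs
  have hlogN : Tendsto (fun x : ℕ => Real.log x) atTop atTop :=
    Real.tendsto_log_atTop.comp tendsto_natCast_atTop_atTop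
  have hE := (((hlogN.eventually_ge_atTop 10).and
    ((Real.tendsto_log_atTop.comp hlogN).eventually
      ((Real.tendsto_exp_div_pow_atTop 2).eventually_ge_atTop (72 * (s : ℝ))))).and
    ((Real.tendsto_log_atTop.comp hlogN).eventually_ge_atTop 1)).and (eventually_ge_atTop 3)
  obtain ⟨X, hX⟩ := eventually_atTop.mp hE
  refine ⟨CS + 3 + 3456 * (s : ℝ) ^ 2 * CU + 240 * s * CU * CD, by positivity, X,
    fun x hx c hc hcx => ?_⟩
  obtain ⟨⟨⟨L1, M2⟩, M1⟩, hx3⟩ := hX x hx
  simp only [Function.comp_apply] at L1 M1 M2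
  set L : ℝ := Real.log x with hL
  set M : ℝ := Real.log L with hM
  have hxr : (3 : ℝ) ≤ x := by exact_mod_cast hx3
  have hx0 : (0 : ℝ) < x := by linarith
  have hexp : Real.exp L = x := Real.exp_log hx0
  have hL0 : 0 < L := by linarith
  have hM0 : 0 < M := by linarith
  have hexpM : Real.exp M = L := Real.exp_log hL0
  have hs0 : (0 : ℝ) < s := by linarith
  have hsM : 1 ≤ (s : ℝ) * M := by nlinarith
  -- a = L / (24 s M)
  set a : ℝ := L / (24 * s * M) with ha
  have hden : 0 < 24 * (s : ℝ) * M := by positivity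
  have ha0 : 0 < a := by positivity
  have ha1 : 2 * M + 1 ≤ a := by
    rw [ha, le_div_iff₀ hden]
    rw [hexpM, le_div_iff₀ (by positivity)] at M2
    nlinarith [mul_le_mul_of_nonneg_left M1 (show 0 ≤ (s : ℝ) * M by positivity)]
  have ha2 : a * (24 * s * M) = L := by
    rw [ha]
    field_simp
  have hea : L ^ 2 + 2 ≤ Real.exp a := by
    have h1 : Real.exp (2 * M + 1) ≤ Real.exp a := Real.exp_le_exp.mpr ha1
    have h2 : Real.exp (2 * M + 1) = L ^ 2 * Real.exp 1 := by
      rw [Real.exp_add, two_mul, Real.exp_add, hexpM]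
      ring
    have h3 : (2 : ℝ) ≤ Real.exp 1 := by
      have := Real.add_one_le_exp (1 : ℝ)
      linarith
    nlinarith [sq_nonneg L, sq_nonneg (L - 10)]
  set z : ℕ := ⌊Real.exp (2 * a)⌋₊ with hz
  set u : ℕ := ⌈L ^ 2⌉₊ with hu
  have hz1 : (z : ℝ) ≤ Real.exp (2 * a) := Nat.floor_le (Real.exp_pos _).le
  have hz2 : Real.exp a ≤ z := by
    have h1 : Real.exp (2 * a) < z + 1 := Nat.lt_floor_add_one _
    have h2 : Real.exp (2 * a) = Real.exp a * Real.exp a := by
      rw [← Real.exp_add]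
      ring_nf
    nlinarith
  have hLz : L ^ 2 + 2 ≤ (z : ℝ) := hea.trans hz2
  have hz100 : (102 : ℝ) ≤ z := by nlinarith
  have hz0 : (0 : ℝ) < z := by linarith
  have hLz' : L ≤ z := by nlinarith
  have hlz : a ≤ Real.log z := by
    rw [← Real.log_exp a]
    exact Real.log_le_log (Real.exp_pos _) hz2
  have hlz2 : Real.log z ≤ 2 * a := by
    rw [← Real.log_exp (2 * a)]
    exact Real.log_le_log hz0 hz1
  have hu1 : L ^ 2 ≤ (u : ℝ) := Nat.le_ceil _
  have hu2 : (u : ℝ) ≤ L ^ 2 + 1 := (Nat.ceil_lt_add_one (sq_nonneg L)).le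
  have hu0 : (0 : ℝ) < u := by nlinarith
  have hu5 : (5 : ℝ) ≤ u := by nlinarith
  have hu5' : 5 ≤ u := by exact_mod_cast hu5
  have huz : u ≤ z := by
    have : (u : ℝ) ≤ z := by linarith
    exact_mod_cast this
  have hlu : Real.log u ≤ 3 * M := by
    have h1 : (u : ℝ) ≤ L ^ 3 := by nlinarith [sq_nonneg L]
    have h2 : Real.log u ≤ Real.log (L ^ 3) := Real.log_le_log hu0 h1
    rwa [Real.log_pow] at h2
  have hlu0 : 0 ≤ Real.log u := Real.log_nonneg (by linarith)
  -- Z = z ^ (2 s)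
  have h2s : 2 * s ≠ 0 := by omega
  have hZpow : ((z ^ (2 * s) : ℕ) : ℝ) = (z : ℝ) ^ (2 * s) := by push_cast; rfl
  have hlZ : Real.log ((z ^ (2 * s) : ℕ) : ℝ) = 2 * s * Real.log z := by
    rw [hZpow, Real.log_pow]
    push_cast
    ring
  have hlZ2 : Real.log ((z ^ (2 * s) : ℕ) : ℝ) * (6 * M) ≤ L := by
    rw [hlZ, ← ha2]
    have := mul_le_mul_of_nonneg_left hlz2 (show 0 ≤ 12 * (s : ℝ) * M by positivity)
    nlinarith
  have hlZ0 : 0 < Real.log ((z ^ (2 * s) : ℕ) : ℝ) := by
    rw [hlZ]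
    have : 0 < Real.log z := by linarith
    positivity
  have hzZ : z ^ 2 ≤ z ^ (2 * s) := Nat.pow_le_pow_right (by
    have : 0 < z := by exact_mod_cast hz0
    exact this) (by omega)
  have hzZr : (z : ℝ) ^ 2 ≤ ((z ^ (2 * s) : ℕ) : ℝ) := by exact_mod_cast hzZ
  have hZ0 : (0 : ℝ) < ((z ^ (2 * s) : ℕ) : ℝ) := by nlinarith
  have hZx : z ^ (2 * s) ≤ x := by
    have h1 : ((z ^ (2 * s) : ℕ) : ℝ) ≤ x := by
      rw [← Real.log_le_log_iff hZ0 hx0]
      have : Real.log ((z ^ (2 * s) : ℕ) : ℝ) * 1 ≤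
          Real.log ((z ^ (2 * s) : ℕ) : ℝ) * (6 * M) :=
        mul_le_mul_of_nonneg_left (by linarith) hlZ0.le
      linarith
    exact_mod_cast h1
  have hz8 : 8 ≤ z := by
    have : (8 : ℝ) ≤ z := by linarith
    exact_mod_cast this
  have hZ8 : 8 ≤ z ^ (2 * s) := by nlinarith
  have hcu : c ≤ u := by
    have : (c : ℝ) ≤ u := by nlinarith
    exact_mod_cast this
  have hcx' : c ≤ x := by
    have h1 : L ≤ x := by
      have := Real.add_one_le_exp L
      rw [hexp] at this
      linarith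
    have : (c : ℝ) ≤ x := by linarith
    exact_mod_cast this
  -- the inequalities
  have k1 := hS x (z ^ (2 * s)) hZ8 (by omega)
  have k2 := hSQR x (z ^ (2 * s)) (by omega)
  have k3 := hU c x u z hc hcx' hu5' huz hZx (by nlinarith)
  have k4 := hD c u z x hc hcu (by omega) hx3
  have k5 : ((Bad c x).card : ℝ) ≤ ((Smo x (z ^ (2 * s))).card : ℝ) +
      ((Sqr x (z ^ (2 * s))).card : ℝ) + 2 * z +
      ∑ m ∈ Ioc 0 (x / z ^ (2 * s)), ((RB (c * m.totient) u z (x / m)).card : ℝ) := by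
    exact_mod_cast hDEC2 c x (z ^ (2 * s)) u z hc (by omega)
  -- target
  set T : ℝ := x * M ^ 3 / L with hT
  have hM3 : 1 ≤ M ^ 3 := one_le_pow₀ M1
  have hxL : (x : ℝ) / L ≤ T := by
    rw [hT]
    apply div_le_div_of_nonneg_right _ hL0.le
    nlinarith
  -- smooth numbers
  have e1 : ((Smo x (z ^ (2 * s))).card : ℝ) ≤ CS * T := by
    refine k1.trans (mul_le_mul_of_nonneg_left ?_ hCS.le)
    refine le_trans ?_ hxL
    have h1 : 3 * M ≤ Real.log x / (2 * Real.log ((z ^ (2 * s) : ℕ) : ℝ)) := by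
      rw [le_div_iff₀ (by positivity), ← hL]
      linarith
    have h2 : Real.exp (-(Real.log x / (2 * Real.log ((z ^ (2 * s) : ℕ) : ℝ)))) ≤
        1 / L ^ 3 := by
      have h3 : Real.exp (-(Real.log x / (2 * Real.log ((z ^ (2 * s) : ℕ) : ℝ)))) ≤
          Real.exp (-(3 * M)) := Real.exp_le_exp.mpr (by linarith)
      have h4 : Real.exp (-(3 * M)) = 1 / L ^ 3 := by
        rw [Real.exp_neg, show 3 * M = M + M + M by ring, Real.exp_add, Real.exp_add, hexpM,
          one_div]
        congr 1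
        ring
      rw [← h4]
      exact h3
    have h5 : Real.log ((z ^ (2 * s) : ℕ) : ℝ) ≤ L := by
      have : Real.log ((z ^ (2 * s) : ℕ) : ℝ) * 1 ≤
          Real.log ((z ^ (2 * s) : ℕ) : ℝ) * (6 * M) :=
        mul_le_mul_of_nonneg_left (by linarith) hlZ0.le
      linarith
    calc (x : ℝ) * Real.log ((z ^ (2 * s) : ℕ) : ℝ) *
          Real.exp (-(Real.log x / (2 * Real.log ((z ^ (2 * s) : ℕ) : ℝ))))
        ≤ (x : ℝ) * L * (1 / L ^ 3) := by
          apply mul_le_mul _ h2 (Real.exp_pos _).le (by positivity)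
          exact mul_le_mul_of_nonneg_left h5 hx0.le
      _ = x / L * (1 / L) := by field_simp
      _ ≤ x / L * 1 := by
          apply mul_le_mul_of_nonneg_left _ (by positivity)
          rw [div_le_one hL0]
          linarith
      _ = x / L := mul_one _
  have hxz : (x : ℝ) / z ≤ T := by
    refine le_trans ?_ hxL
    exact div_le_div_of_nonneg_left hx0.le hL0 hLz'
  have e2 : ((Sqr x (z ^ (2 * s))).card : ℝ) ≤ T := by
    refine k2.trans (le_trans ?_ hxz)
    refine div_le_div_of_nonneg_left hx0.le hz0 ?_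
    nlinarith
  have e3 : 2 * (z : ℝ) ≤ T := by
    refine le_trans ?_ hxL
    rw [le_div_iff₀ hL0]
    have h1 : 2 * a ≤ L / 12 := by
      rw [← ha2]
      nlinarith
    have h2 : (z : ℝ) ≤ Real.exp (L / 12) := hz1.trans (Real.exp_le_exp.mpr h1)
    have h3 : L / 2 + 1 ≤ Real.exp (L / 2) := Real.add_one_le_exp _
    have h4 : 5 * L / 12 + 1 ≤ Real.exp (5 * L / 12) := Real.add_one_le_exp _
    have h5 : Real.exp L = Real.exp (L / 12) * Real.exp (L / 2) * Real.exp (5 * L / 12) := by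
      rw [← Real.exp_add, ← Real.exp_add]
      ring_nf
    rw [← hexp, h5]
    have h6 : (0 : ℝ) < Real.exp (L / 12) := Real.exp_pos _
    have h7 : (4 : ℝ) ≤ Real.exp (5 * L / 12) := by linarith
    have h8 : L ≤ 2 * Real.exp (L / 2) := by linarith
    calc 2 * (z : ℝ) * L ≤ 2 * Real.exp (L / 12) * (2 * Real.exp (L / 2)) := by
          apply mul_le_mul _ h8 hL0.le (by positivity)
          linarith
      _ = Real.exp (L / 12) * Real.exp (L / 2) * 4 := by ring
      _ ≤ _ := mul_le_mul_of_nonneg_left h7 (by positivity)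
  have e4 : (x : ℝ) / ((z ^ (2 * s) : ℕ) : ℝ) * z ≤ T := by
    refine le_trans ?_ hxz
    rw [div_mul_eq_mul_div, div_le_div_iff₀ hZ0 hz0]
    nlinarith
  have hlz0 : 0 < Real.log z := by linarith
  have e5 : CU * (x * Real.log u * (1 + Real.log x) / Real.log z ^ 2) ≤
      3456 * (s : ℝ) ^ 2 * CU * T := by
    have h1 : (x : ℝ) * Real.log u * (1 + Real.log x) / Real.log z ^ 2 ≤
        x * (3 * M) * (2 * L) / a ^ 2 := by
      apply div_le_div₀ (by positivity) _ (by positivity)
      · exact pow_le_pow_left₀ ha0.le hlz 2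
      · rw [← hL]
        apply mul_le_mul _ (by linarith) (by linarith) (by positivity)
        exact mul_le_mul_of_nonneg_left hlu hx0.le
    have h2 : (x : ℝ) * (3 * M) * (2 * L) / a ^ 2 = 3456 * (s : ℝ) ^ 2 * T := by
      rw [ha, hT]
      field_simp
      ring
    calc CU * (x * Real.log u * (1 + Real.log x) / Real.log z ^ 2)
        ≤ CU * (3456 * (s : ℝ) ^ 2 * T) := by
          apply mul_le_mul_of_nonneg_left _ hCU.le
          rw [← h2]
          exact h1
      _ = _ := by ring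
  have e6 : CU * (x / Real.log z) * ∑ m ∈ Ioc 0 x, DD c u z m / m ≤
      240 * s * CU * CD * T := by
    have h1 : ∑ m ∈ Ioc 0 x, DD c u z m / m ≤ CD * (2 * L) * (5 * M) / L ^ 2 := by
      refine k4.trans ?_
      apply div_le_div₀ (by positivity) _ (by positivity) hu1
      rw [← hL, ← hM]
      apply mul_le_mul _ (by linarith) (by linarith) (by positivity)
      exact mul_le_mul_of_nonneg_left (by linarith) hCD.le
    have h2 : CU * (x / Real.log z) ≤ CU * (x / a) :=
      mul_le_mul_of_nonneg_left (div_le_div_of_nonneg_left hx0.le ha0 hlz) hCU.le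
    calc CU * (x / Real.log z) * ∑ m ∈ Ioc 0 x, DD c u z m / m
        ≤ CU * (x / Real.log z) * (CD * (2 * L) * (5 * M) / L ^ 2) :=
          mul_le_mul_of_nonneg_left h1 (by positivity)
      _ ≤ CU * (x / a) * (CD * (2 * L) * (5 * M) / L ^ 2) :=
          mul_le_mul_of_nonneg_right h2 (by positivity)
      _ = 240 * s * CU * CD * (x * M ^ 2 / L ^ 2) := by
          rw [ha]
          field_simp
          ring
      _ ≤ 240 * s * CU * CD * T := by
          apply mul_le_mul_of_nonneg_left _ (by positivity)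
          rw [hT]
          rw [div_le_div_iff₀ (by positivity) hL0]
          have g1 : (x : ℝ) * M ^ 2 * L ≤ x * M ^ 3 * L := by
            apply mul_le_mul_of_nonneg_right _ hL0.le
            apply mul_le_mul_of_nonneg_left _ hx0.le
            nlinarith [sq_nonneg M]
          have g2 : (x : ℝ) * M ^ 3 * L ≤ x * M ^ 3 * L ^ 2 := by
            apply mul_le_mul_of_nonneg_left _ (by positivity)
            nlinarith
          linarith
  have hfin : CS * T + T + T + (3456 * (s : ℝ) ^ 2 * CU * T + 240 * s * CU * CD * T + T) =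
      (CS + 3 + 3456 * (s : ℝ) ^ 2 * CU + 240 * s * CU * CD) * T := by ring
  rw [← hfin]
  have hZc : (x : ℝ) / (z : ℝ) ^ (2 * s) * z ≤ T := by
    rw [← hZpow]
    exact e4
  linarith

end Pool.LW
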