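import Pool.Agent.Work.MP_aebf03_lw.Interface2

/-!
# Block FIN2 (second copy, helper72)
-/

set_option autoImplicit false

namespace Pool.LW

open Finset Filter

theorem FIN2x_ev (s : ℕ) : ∃ X : ℕ, ∀ x : ℕ, X ≤ x → 32 ≤ Real.log x ∧
    1 ≤ Real.log (Real.log x) ∧ 96 * (s : ℝ) * Real.log (Real.log x) ^ 2 ≤ Real.log x := by
  have h1 : Tendsto (fun x : ℕ => Real.log (x : ℝ)) atTop atTop :=
    Real.tendsto_log_atTop.comp tendsto_natCast_atTop_atTop
  have h2 : Tendsto (fun x : ℕ => Real.log (Real.log (x : ℝ))) atTop atTop :=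
    Real.tendsto_log_atTop.comp h1
  have h3 : ∀ᶠ y : ℝ in atTop, 96 * (s : ℝ) * Real.log y ^ 2 ≤ y := by
    have hc : (0 : ℝ) < 1 / (96 * s + 1) := by positivity
    have h4 := (Real.isLittleO_pow_log_id_atTop (n := 2)).bound hc
    filter_upwards [h4, eventually_ge_atTop 0] with y hy hy0
    rw [Real.norm_eq_abs, Real.norm_eq_abs, abs_of_nonneg (by positivity), id,
      abs_of_nonneg hy0] at hy
    have h5 : Real.log y ^ 2 * (96 * s + 1) ≤ y := by
      have h6 : (96 * (s : ℝ) + 1) ≠ 0 := by positivity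
      calc Real.log y ^ 2 * (96 * s + 1) ≤ (1 / (96 * s + 1) * y) * (96 * s + 1) := by gcongr
        _ = y := by field_simp
    nlinarith [sq_nonneg (Real.log y)]
  have h5 := (h1.eventually_ge_atTop 32).and ((h2.eventually_ge_atTop 1).and (h1.eventually h3))
  obtain ⟨X, hX⟩ := eventually_atTop.mp h5
  exact ⟨X, fun x hx => ⟨(hX x hx).1, (hX x hx).2.1, (hX x hx).2.2⟩⟩

theorem p_FIN2x (hSUM2 : S_SUM2) (hSM2 : S_SM2) (hSQR : S_SQR) (hDEC2 : S_DEC2) (hDS : S_DS) :
    S_FIN2 := by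
  obtain ⟨s, hs, C1, hC1, hSUM⟩ := hSUM2
  obtain ⟨C2, hC2, hSM⟩ := hSM2
  obtain ⟨C3, hC3, hDD⟩ := hDS
  obtain ⟨X, hX⟩ := FIN2x_ev s
  refine ⟨C2 + 3 + 3456 * s ^ 2 * C1 + 1440 * s * (C1 * C3), by positivity, X, ?_⟩
  intro x hx c hc hcl
  obtain ⟨hL, hl, hLs⟩ := hX x hx
  set L : ℝ := Real.log x with hLdef
  set l : ℝ := Real.log L with hldef
  have hL0 : 0 < L := by linarith
  have hl0 : 0 < l := by linarith
  have hs1 : (1 : ℝ) ≤ s := by exact_mod_cast hs
  have hs0 : (0 : ℝ) < s := by linarith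
  have hx1 : (1 : ℝ) < x := by
    by_contra h
    push Not at h
    have : L ≤ 0 := Real.log_nonpos (Nat.cast_nonneg x) h
    linarith
  have hx0 : (0 : ℝ) < x := by linarith
  have hexpL : Real.exp L = x := Real.exp_log hx0
  have hxL : L ≤ x := by
    have := Real.add_one_le_exp L
    rw [hexpL] at this
    linarith
  have hexpl : Real.exp l = L := Real.exp_log hL0
  set E : ℝ := L / (12 * s * l) with hEdef
  have hden : 0 < 12 * (s : ℝ) * l := by positivity
  have hEL : E * (12 * s * l) = L := by rw [hEdef]; field_simp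
  -- E ≥ 3 l + 5
  have hE : 3 * l + 5 ≤ E := by
    rw [hEdef, le_div_iff₀ hden]
    have h1 : (3 * l + 5) ≤ 8 * l := by linarith
    calc (3 * l + 5) * (12 * s * l) ≤ 8 * l * (12 * s * l) := by gcongr
      _ = 96 * s * l ^ 2 := by ring
      _ ≤ L := hLs
  have hE12 : E ≤ L / 12 := by
    rw [hEdef]
    apply div_le_div_of_nonneg_left hL0.le (by norm_num)
    nlinarith
  have hE0 : 0 < E := by linarith
  have hexpE : 32 * L ^ 3 ≤ Real.exp E := by
    have h1 : Real.exp (3 * l + 5) ≤ Real.exp E := Real.exp_le_exp.mpr hE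
    have h2 : Real.exp (3 * l + 5) = L ^ 3 * Real.exp 5 := by
      rw [Real.exp_add, show 3 * l = (3 : ℕ) * l by norm_num, Real.exp_nat_mul, hexpl]
    have h3 : (32 : ℝ) ≤ Real.exp 5 := by
      have h4 : Real.exp 5 = Real.exp 1 ^ 5 := by
        rw [← Real.exp_nat_mul]; norm_num
      have h5 : (2 : ℝ) ≤ Real.exp 1 := by
        have := Real.add_one_le_exp (1 : ℝ)
        linarith
      rw [h4]
      calc (32 : ℝ) = 2 ^ 5 := by norm_num
        _ ≤ Real.exp 1 ^ 5 := by gcongr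
    rw [h2] at h1
    calc 32 * L ^ 3 = L ^ 3 * 32 := by ring
      _ ≤ L ^ 3 * Real.exp 5 := by gcongr
      _ ≤ _ := h1
  -- z
  set z : ℕ := ⌊Real.exp E⌋₊ with hzdef
  have hzle : (z : ℝ) ≤ Real.exp E := Nat.floor_le (Real.exp_pos E).le
  have hzge' : Real.exp E < z + 1 := Nat.lt_floor_add_one _
  have hL3 : L ^ 2 ≤ L ^ 3 := by
    have : (1 : ℝ) ≤ L := by linarith
    calc L ^ 2 = L ^ 2 * 1 := by ring
      _ ≤ L ^ 2 * L := by gcongr
      _ = L ^ 3 := by ring
  have hL2 : 32 * L ≤ L ^ 2 := by nlinarith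
  have hexpbig : 1024 * L ≤ Real.exp E := by nlinarith
  have hzge : Real.exp E / 2 ≤ z := by
    have : (2 : ℝ) ≤ Real.exp E := by nlinarith
    linarith
  have hz16 : 16 * L ^ 3 ≤ z := by linarith
  have hz1 : (1 : ℝ) ≤ z := by nlinarith
  have hz0 : (0 : ℝ) < z := by linarith
  have hzN1 : 1 ≤ z := by exact_mod_cast hz1
  have hlogz_le : Real.log z ≤ E := by
    have := Real.log_le_log hz0 hzle
    rwa [Real.log_exp] at this
  have hlogz_ge : E / 2 ≤ Real.log z := by
    have h1 := Real.log_le_log (by positivity) hzge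
    rw [Real.log_div (Real.exp_pos E).ne' (by norm_num), Real.log_exp] at h1
    have h2 : Real.log 2 ≤ 1 := by
      have := Real.log_two_lt_d9
      linarith
    linarith
  have hlogz0 : 0 < Real.log z := by linarith
  -- u
  set u : ℕ := ⌈L ^ 2⌉₊ with hudef
  have huge : L ^ 2 ≤ u := Nat.le_ceil _
  have hule : (u : ℝ) ≤ L ^ 2 + 1 := (Nat.ceil_lt_add_one (by positivity)).le
  have hu0 : (0 : ℝ) < u := by nlinarith
  have hule2 : (u : ℝ) ≤ L ^ 3 := by nlinarith
  have hu5 : 5 ≤ u := by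
    have : (5 : ℝ) ≤ u := by nlinarith
    exact_mod_cast this
  have huz : u ≤ z := by
    have : (u : ℝ) ≤ z := by nlinarith
    exact_mod_cast this
  have hu10 : 10 * L ≤ u := by linarith
  have hlogu : Real.log u ≤ 3 * l := by
    have h1 := Real.log_le_log hu0 hule2
    rw [Real.log_pow] at h1
    simpa using h1
  have hlogu0 : 0 ≤ Real.log u := Real.log_natCast_nonneg u
  have hcu : c ≤ u := by
    have : (c : ℝ) ≤ u := by nlinarith
    exact_mod_cast this
  have hcx : c ≤ x := by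
    have : (c : ℝ) ≤ x := by linarith
    exact_mod_cast this
  -- Z
  have hZlog : Real.log ((z ^ (2 * s) : ℕ) : ℝ) = 2 * s * Real.log z := by
    push_cast
    rw [Real.log_pow]
    push_cast
    ring
  have hZlog_le : 2 * s * Real.log z ≤ L / (6 * l) := by
    calc 2 * s * Real.log z ≤ 2 * s * E := by gcongr
      _ = L / (6 * l) := by rw [hEdef]; field_simp; ring
  have hZlog_leL : 2 * s * Real.log z ≤ L := by
    refine hZlog_le.trans ?_
    rw [div_le_iff₀ (by positivity)]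
    nlinarith
  have hZ2 : (z : ℝ) * z ≤ ((z ^ (2 * s) : ℕ) : ℝ) := by
    push_cast
    calc (z : ℝ) * z = z ^ 2 := by ring
      _ ≤ z ^ (2 * s) := pow_le_pow_right₀ hz1 (by omega)
  have hZz : (z : ℝ) ≤ ((z ^ (2 * s) : ℕ) : ℝ) := by
    refine le_trans ?_ hZ2
    nlinarith
  have hZ0 : (0 : ℝ) < ((z ^ (2 * s) : ℕ) : ℝ) := by linarith
  have hZx : z ^ (2 * s) ≤ x := by
    have h1 : ((z ^ (2 * s) : ℕ) : ℝ) ≤ x := by
      rw [← Real.log_le_log_iff hZ0 hx0, hZlog]
      exact hZlog_leL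
    exact_mod_cast h1
  -- the five terms
  have hx3 : 3 ≤ x := by
    have : (32 : ℝ) ≤ x := by linarith
    have : 32 ≤ x := by exact_mod_cast this
    omega
  set B : ℝ := x * l ^ 3 / L with hB
  have hB0 : 0 < B := by positivity
  have hxL1 : x / L ≤ B := by
    rw [hB]
    apply div_le_div_of_nonneg_right _ hL0.le
    have : (1 : ℝ) ≤ l ^ 3 := one_le_pow₀ hl
    nlinarith
  have t1 : ((Smo x (z ^ (2 * s))).card : ℝ) ≤ C2 * B := by
    have hZ8 : 8 ≤ z ^ (2 * s) := by
      have : (8 : ℝ) ≤ ((z ^ (2 * s) : ℕ) : ℝ) := by nlinarith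
      exact_mod_cast this
    refine (hSM x (z ^ (2 * s)) hZ8 (by omega)).trans ?_
    rw [hZlog]
    apply mul_le_mul_of_nonneg_left _ hC2.le
    have h1 : Real.exp (-(L / (2 * (2 * s * Real.log z)))) ≤ 1 / L ^ 2 := by
      have h2 : 2 * l ≤ L / (2 * (2 * s * Real.log z)) := by
        rw [le_div_iff₀ (by positivity)]
        have h3 : 2 * l * (2 * (2 * s * Real.log z)) ≤ 2 * l * (2 * (L / (6 * l))) := by gcongr
        have h4 : 2 * l * (2 * (L / (6 * l))) = 2 / 3 * L := by field_simp; ring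
        rw [h4] at h3
        linarith
      have h3 : Real.exp (-(L / (2 * (2 * s * Real.log z)))) ≤ Real.exp (-(2 * l)) :=
        Real.exp_le_exp.mpr (by linarith)
      have h4 : Real.exp (-(2 * l)) = 1 / L ^ 2 := by
        rw [Real.exp_neg, show 2 * l = (2 : ℕ) * l by norm_num, Real.exp_nat_mul, hexpl, one_div]
      rwa [h4] at h3
    calc (x : ℝ) * (2 * s * Real.log z) * Real.exp (-(L / (2 * (2 * s * Real.log z))))
        ≤ x * L * (1 / L ^ 2) := by gcongr
      _ = x / L := by field_simp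
      _ ≤ B := hxL1
  have hzL : L ≤ z := by nlinarith
  have t2 : ((Sqr x (z ^ (2 * s))).card : ℝ) ≤ B := by
    have hZ1 : 1 ≤ z ^ (2 * s) := Nat.one_le_pow _ _ hzN1
    refine (hSQR x (z ^ (2 * s)) hZ1).trans (le_trans ?_ hxL1)
    apply div_le_div_of_nonneg_left hx0.le hL0
    linarith
  have t3 : 2 * (z : ℝ) ≤ B := by
    refine le_trans ?_ hxL1
    rw [le_div_iff₀ hL0]
    have h1 : Real.exp E ≤ Real.exp (L / 12) := Real.exp_le_exp.mpr hE12
    have h2 : 2 * L ≤ Real.exp (L / 2) := by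
      have h3 : L / 4 ≤ Real.exp (L / 4) := by
        have := Real.add_one_le_exp (L / 4)
        linarith
      have h4 : Real.exp (L / 2) = Real.exp (L / 4) * Real.exp (L / 4) := by
        rw [← Real.exp_add]; ring_nf
      have h5 : L / 4 * (L / 4) ≤ Real.exp (L / 4) * Real.exp (L / 4) := by gcongr
      rw [h4]
      nlinarith
    have h3 : Real.exp (L / 12) * Real.exp (L / 2) ≤ x := by
      rw [← Real.exp_add, ← hexpL]
      exact Real.exp_le_exp.mpr (by linarith)
    calc 2 * (z : ℝ) * L = z * (2 * L) := by ring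
      _ ≤ Real.exp (L / 12) * Real.exp (L / 2) := by
        apply mul_le_mul (hzle.trans h1) h2 (by positivity) (Real.exp_pos _).le
      _ ≤ x := h3
  have t5 : (x : ℝ) / ((z : ℝ) ^ (2 * s)) * z ≤ B := by
    refine le_trans ?_ hxL1
    have h1 : (x : ℝ) / ((z : ℝ) ^ (2 * s)) * z ≤ x / z := by
      rw [div_mul_eq_mul_div, div_le_div_iff₀ (by positivity) hz0]
      have h2 : (z : ℝ) * z ≤ z ^ (2 * s) := by exact_mod_cast hZ2
      nlinarith
    refine h1.trans ?_
    apply div_le_div_of_nonneg_left hx0.le hL0 hzL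
  have hEinv : L / (24 * s * l) ≤ Real.log z := by
    have : L / (24 * s * l) = E / 2 := by rw [hEdef]; field_simp; ring
    rw [this]; exact hlogz_ge
  have t4a : C1 * (x * Real.log u * (1 + L) / Real.log z ^ 2) ≤ 3456 * s ^ 2 * C1 * B := by
    have h1 : (x : ℝ) * Real.log u * (1 + L) / Real.log z ^ 2 ≤
        x * (3 * l) * (2 * L) / (L / (24 * s * l)) ^ 2 := by
      gcongr
      linarith
    have h2 : (x : ℝ) * (3 * l) * (2 * L) / (L / (24 * s * l)) ^ 2 = 3456 * s ^ 2 * B := by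
      rw [hB]; field_simp; ring
    rw [h2] at h1
    calc C1 * (x * Real.log u * (1 + L) / Real.log z ^ 2) ≤ C1 * (3456 * s ^ 2 * B) := by gcongr
      _ = _ := by ring
  have t4b : C1 * (x / Real.log z) * ∑ m ∈ Ioc 0 x, DD c u z m / m ≤
      1440 * s * (C1 * C3) * B := by
    have h0 := hDD c u z x hc hcu (by omega) hx3
    have h1 : C3 * (1 + L) * (1 + l + Real.log u) / u ≤ C3 * (2 * L) * (5 * l) / L ^ 2 := by
      gcongr
      · linarith
      · linarith
    have h2 : ∑ m ∈ Ioc 0 x, DD c u z m / m ≤ C3 * (2 * L) * (5 * l) / L ^ 2 := h0.trans h1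
    have h3 : C1 * (x / Real.log z) ≤ C1 * (x / (L / (24 * s * l))) := by gcongr
    calc C1 * (x / Real.log z) * ∑ m ∈ Ioc 0 x, DD c u z m / m
        ≤ C1 * (x / Real.log z) * (C3 * (2 * L) * (5 * l) / L ^ 2) := by gcongr
      _ ≤ C1 * (x / (L / (24 * s * l))) * (C3 * (2 * L) * (5 * l) / L ^ 2) := by gcongr
      _ = 240 * s * (C1 * C3) * (x * l ^ 2 / L ^ 2) := by field_simp; ring
      _ ≤ 1440 * s * (C1 * C3) * B := by
        have h4 : x * l ^ 2 / L ^ 2 ≤ B := by
          rw [hB, div_le_div_iff₀ (by positivity) hL0]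
          have h5 : l ^ 2 * L ≤ l ^ 3 * L ^ 2 := by
            calc l ^ 2 * L = l ^ 2 * 1 * (L * 1) := by ring
              _ ≤ l ^ 2 * l * (L * L) := by gcongr; linarith
              _ = l ^ 3 * L ^ 2 := by ring
          calc (x : ℝ) * l ^ 2 * L = x * (l ^ 2 * L) := by ring
            _ ≤ x * (l ^ 3 * L ^ 2) := by gcongr
            _ = x * l ^ 3 * L ^ 2 := by ring
        have h6 : (0 : ℝ) ≤ s * (C1 * C3) := by positivity
        nlinarith [mul_le_mul_of_nonneg_left h4 h6, mul_nonneg h6 hB0.le]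
  have hD := hDEC2 c x (z ^ (2 * s)) u z hc (Nat.one_le_pow _ _ hzN1)
  have hD' : ((Bad c x).card : ℝ) ≤ (Smo x (z ^ (2 * s))).card + (Sqr x (z ^ (2 * s))).card +
      2 * (z : ℝ) + ∑ m ∈ Ioc 0 (x / z ^ (2 * s)), ((RB (c * m.totient) u z (x / m)).card : ℝ) := by
    exact_mod_cast hD
  have hS := hSUM c x u z hc hcx hu5 huz hZx hu10
  calc ((Bad c x).card : ℝ) ≤ _ := hD'
    _ ≤ C2 * B + B + B + (3456 * s ^ 2 * C1 * B + 1440 * s * (C1 * C3) * B + B) := by
      gcongr
      refine hS.trans ?_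
      gcongr
    _ = (C2 + 3 + 3456 * s ^ 2 * C1 + 1440 * s * (C1 * C3)) * B := by ring

end Pool.LW
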