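import Pool.Agent.Work.MP_aebf03_lw.Interface2
import Pool.Agent.Work.MP_b0c12c_nt_helper41.Mert

/-! # MP_aebf03_nt, block ME -/

set_option autoImplicit false

namespace Pool.LW

open Finset

theorem p_ME : S_ME := by
  obtain ⟨C, hC0, hC⟩ := Pool.Agent.Work.MP_b0c12c_nt_helper41.mertens2
  refine ⟨Real.log (Real.log 2) + C / Real.log 2, fun z hz => ?_⟩
  have h1 := hC 2 z le_rfl hz
  rw [abs_le] at h1
  have h2 : ∑ p ∈ (Ioc 2 z).filter Nat.Prime, 1 / (p : ℝ) ≤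
      ∑ q ∈ (Ioc 0 z).filter Nat.Prime, 1 / (q : ℝ) := by
    apply Finset.sum_le_sum_of_subset_of_nonneg
    · intro p hp
      rw [Finset.mem_filter, Finset.mem_Ioc] at hp ⊢
      exact ⟨⟨by omega, hp.1.2⟩, hp.2⟩
    · intro p _ _
      positivity
  have h3 : ((2 : ℕ) : ℝ) = 2 := by norm_num
  rw [h3] at h1
  linarith [h1.1]

end Pool.LW
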