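import Pool.Agent.Work.MP_aebf03_lw.Main2

/-!
# MP_aebf03_nt: the mean number of witnesses (helper72)

The bound for Bad c x uniformly in c ≤ x, and the number of pairs (n, p).
-/

set_option autoImplicit false

namespace Pool.LW

open Finset Filter

/-- The sum of 1/q over the q in Q4 u v dividing c. -/
theorem MEAN_c (c u v : ℕ) (hc : 1 ≤ c) (hu : 1 ≤ u) :
    ∑ q ∈ (Q4 u v).filter (fun q => q ∣ c), 1 / (q : ℝ) ≤ 2 * Real.log c / u := by
  have hu0 : (0 : ℝ) < u := by exact_mod_cast hu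
  have hc0 : (0 : ℝ) < c := by exact_mod_cast hc
  have h1 : ∀ q ∈ (Q4 u v).filter (fun q => q ∣ c), 1 / (q : ℝ) ≤ 1 / u := by
    intro q hq
    simp only [Q4, mem_filter, mem_Ioc] at hq
    apply one_div_le_one_div_of_le hu0
    exact_mod_cast hq.1.1.1.le
  have hcard : (((Q4 u v).filter (fun q => q ∣ c)).card : ℝ) ≤ 2 * Real.log c := by
    have h2 : ((Q4 u v).filter (fun q => q ∣ c)).card ≤ c.primeFactors.card := by
      apply Finset.card_le_card
      intro q hq
      simp only [Q4, mem_filter, mem_Ioc] at hq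
      exact Nat.mem_primeFactors.mpr ⟨hq.1.2.1, hq.2, by omega⟩
    have h3 : 2 ^ c.primeFactors.card ≤ c := by
      calc 2 ^ c.primeFactors.card = ∏ _q ∈ c.primeFactors, 2 := by rw [Finset.prod_const]
        _ ≤ ∏ q ∈ c.primeFactors, q :=
          Finset.prod_le_prod' (fun q hq => (Nat.prime_of_mem_primeFactors hq).two_le)
        _ ≤ c := Nat.le_of_dvd (by omega) (Nat.prod_primeFactors_dvd c)
    have h4 : (c.primeFactors.card : ℝ) * Real.log 2 ≤ Real.log c := by
      rw [← Real.log_pow]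
      apply Real.log_le_log (by positivity)
      exact_mod_cast h3
    have h5 : (1 : ℝ) / 2 ≤ Real.log 2 := by
      have := Real.log_two_gt_d9
      linarith
    have h6 : (((Q4 u v).filter (fun q => q ∣ c)).card : ℝ) ≤ c.primeFactors.card := by
      exact_mod_cast h2
    have h7 : (c.primeFactors.card : ℝ) * (1 / 2) ≤ (c.primeFactors.card : ℝ) * Real.log 2 := by
      gcongr
    linarith
  calc ∑ q ∈ (Q4 u v).filter (fun q => q ∣ c), 1 / (q : ℝ)
      ≤ ∑ q ∈ (Q4 u v).filter (fun q => q ∣ c), 1 / (u : ℝ) := Finset.sum_le_sum h1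
    _ = ((Q4 u v).filter (fun q => q ∣ c)).card * (1 / (u : ℝ)) := by
      rw [Finset.sum_const, nsmul_eq_mul]
    _ ≤ 2 * Real.log c * (1 / (u : ℝ)) := by gcongr
    _ = 2 * Real.log c / u := by ring

theorem MEAN_DD (c u v m : ℕ) (hc : 1 ≤ c) (hu : 1 ≤ u) :
    DD c u v m ≤ DD 1 u v m + 2 * Real.log c / u := by
  classical
  refine le_trans ?_ (add_le_add le_rfl (MEAN_c c u v hc hu))
  unfold DD
  have hsub : (Q4 u v).filter (fun q => q ∣ c * m.totient) ⊆
      (Q4 u v).filter (fun q => q ∣ 1 * m.totient) ∪ (Q4 u v).filter (fun q => q ∣ c) := by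
    intro q hq
    rw [mem_filter] at hq
    rw [mem_union, mem_filter, mem_filter]
    have hp : q.Prime := by
      have := hq.1
      simp only [Q4, mem_filter] at this
      exact this.2.1
    rcases (hp.dvd_mul).mp hq.2 with h | h
    · exact Or.inr ⟨hq.1, h⟩
    · exact Or.inl ⟨hq.1, by rwa [one_mul]⟩
  refine (Finset.sum_le_sum_of_subset_of_nonneg hsub (fun q _ _ => by positivity)).trans ?_
  rw [← Finset.sum_union_inter]
  have : 0 ≤ ∑ q ∈ (Q4 u v).filter (fun q => q ∣ 1 * m.totient) ∩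
      (Q4 u v).filter (fun q => q ∣ c), 1 / (q : ℝ) := Finset.sum_nonneg (fun q _ => by positivity)
  linarith

theorem MEAN_DS (hDS : S_DS) (hHAR : S_HAR) : ∃ C : ℝ, 0 < C ∧ ∀ c u v x : ℕ, 1 ≤ c → c ≤ x →
    2 ≤ u → 3 ≤ x → ∑ m ∈ Ioc 0 x, DD c u v m / m ≤
      C * (1 + Real.log x) * (1 + Real.log x + Real.log u) / u := by
  obtain ⟨C, hC, h⟩ := hDS
  refine ⟨C + 2, by positivity, fun c u v x hc hcx hu hx => ?_⟩
  have h0 := h 1 u v x le_rfl (by omega) hu hx
  have hu0 : (0 : ℝ) < u := by exact_mod_cast (by omega : 0 < u)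
  have hx3 : (3 : ℝ) ≤ x := by exact_mod_cast hx
  have hx0 : (0 : ℝ) < x := by linarith
  have hc0 : (0 : ℝ) < c := by exact_mod_cast hc
  have hlx : 0 < Real.log x := Real.log_pos (by linarith)
  have hlu : 0 ≤ Real.log u := Real.log_natCast_nonneg u
  have hlc : Real.log c ≤ Real.log x := Real.log_le_log hc0 (by exact_mod_cast hcx)
  have hll : Real.log (Real.log x) ≤ Real.log x := by
    have := Real.log_le_sub_one_of_pos hlx
    linarith
  have hH := hHAR x 1 (by omega) le_rfl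
  have hH' : ∑ m ∈ Ioc 0 x, 1 / (m : ℝ) ≤ 1 + Real.log x := by
    simpa using hH
  have h1 : ∑ m ∈ Ioc 0 x, DD c u v m / m ≤
      ∑ m ∈ Ioc 0 x, DD 1 u v m / m + 2 * Real.log c / u * ∑ m ∈ Ioc 0 x, 1 / (m : ℝ) := by
    rw [Finset.mul_sum, ← Finset.sum_add_distrib]
    apply Finset.sum_le_sum
    intro m hm
    have h2 := MEAN_DD c u v m hc (by omega)
    calc DD c u v m / m ≤ (DD 1 u v m + 2 * Real.log c / u) / m := by gcongr
      _ = _ := by ring
  have h2 : C * (1 + Real.log x) * (1 + Real.log (Real.log x) + Real.log u) / u ≤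
      C * (1 + Real.log x) * (1 + Real.log x + Real.log u) / u := by gcongr
  have hlc0 : 0 ≤ Real.log c := Real.log_natCast_nonneg c
  have h3 : 2 * Real.log c / u * ∑ m ∈ Ioc 0 x, 1 / (m : ℝ) ≤
      2 * (1 + Real.log x) * (1 + Real.log x + Real.log u) / u := by
    calc 2 * Real.log c / u * ∑ m ∈ Ioc 0 x, 1 / (m : ℝ)
        ≤ 2 * (1 + Real.log x + Real.log u) / u * (1 + Real.log x) := by
          gcongr
          linarith
      _ = _ := by ring
  calc ∑ m ∈ Ioc 0 x, DD c u v m / m ≤ _ := h1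
    _ ≤ C * (1 + Real.log x) * (1 + Real.log x + Real.log u) / u +
        2 * (1 + Real.log x) * (1 + Real.log x + Real.log u) / u := by linarith
    _ = _ := by ring

end Pool.LW
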