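import Pool.Agent.Work.MP_aebf03_lw.Interface

/-!
# MP_aebf03_nt, theorem LW2 (no witness p ≤ log n / (log log n)^4 for almost all n): interface

Blocks: file `C_<ID>.lean`, import only this file (or library files named in the docstring),
namespace `Pool.LW`, theorem `p_<ID> (h.. : S_..) .. : S_<ID>`, auxiliary names prefixed `<ID>_`.
-/

set_option autoImplicit false

namespace Pool.LW

open Finset

/-- The positive integers up to y which avoid the classes Ω q modulo q for all q in P. -/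
noncomputable def AV (P : Finset ℕ) (Ω : ℕ → Finset ℕ) (y : ℕ) : Finset ℕ :=
  (Ioc 0 y).filter (fun n => ∀ q ∈ P, n % q ∉ Ω q)

/-- The sum of the large sieve: l runs over the divisors up to D of the product of P. -/
noncomputable def LL (P : Finset ℕ) (w : ℕ → ℕ) (D : ℕ) : ℝ :=
  ∑ l ∈ (∏ q ∈ P, q).divisors.filter (fun l => l ≤ D),
    ∏ q ∈ l.primeFactors, (w q : ℝ) / ((q : ℝ) - w q)

/-- The primes r up to y for which no q in Q4 u z divides (A (r - 1))^2 + 1. -/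
noncomputable def RB (A u z y : ℕ) : Finset ℕ :=
  (Ioc 0 y).filter (fun r => r.Prime ∧ ∀ q ∈ Q4 u z, ¬ q ∣ (A * (r - 1)) ^ 2 + 1)

/-- The sum of 1/q over the q in Q4 u z dividing A or A^2 + 1. -/
noncomputable def EX (A u z : ℕ) : ℝ :=
  ∑ q ∈ (Q4 u z).filter (fun q => q ∣ A ∨ q ∣ A ^ 2 + 1), 1 / (q : ℝ)

/-- ALS (120, the arithmetic large sieve with constant 16). Weights om ≥ 0 on range D0, om ≥ 1 on n ≤ y, with sum exactly
16 max(y, D^2) / k over each residue class modulo k ≤ D^2: exists_weight (N = y, M = D^2) of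
Pool/Agent/Work/MP_0b7501_nt/LargeSieve.lean. Put v(n) = the product of the q in P with n % q in Ω q. Selberg's upper bound
selberg_upper_bound of Pool/Agent/Work/MP_484fb8_nt/Selberg.lean for the BoundingSieve with support the image of v on range D0,
weight of an integer a = the sum of om n over v(n) = a, prodPrimes = ∏ P, totalMass = 16 max(y, D^2),
nu(d) = ∏_{q ∣ d} (Ω q).card / q (d squarefree; by the Chinese remainder theorem the rem of lcm(d1, d2) ≤ D^2 is 0);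
the elements of AV have v = 1, and GSum D = LL (selbergTerms l = ∏ ν(q) / (1 - ν(q))). Model: PairSieve.lean
in the same folder. Or directly: the proof of Selberg's sieve. -/
def S_ALS : Prop := ∀ (P : Finset ℕ) (Ω : ℕ → Finset ℕ) (y D : ℕ), (∀ q ∈ P, q.Prime) →
  (∀ q ∈ P, 0 < (Ω q).card ∧ (Ω q).card < q ∧ ∀ c ∈ Ω q, c < q) → 1 ≤ D →
  ((AV P Ω y).card : ℝ) * LL P (fun q => (Ω q).card) D ≤ 16 * (max y (D ^ 2) : ℕ)

/-- LLB (110, Rankin). g(q) = w q / q ≤ w q / (q - w q). G = ∏ (1 + g(q)) is the sum over all divisors l of ∏ P of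
∏_{q ∣ l} g(q). With η = 1 / log z the l > D contribute at most D^(-η) ∏ (1 + g(q) q^η), D^(-η) ≤ exp (- s),
q^η ≤ 1 + 2 η log q, so ∏ (1 + g(q) q^η) ≤ G exp (6 η ∑ log q / q) ≤ G exp (6 + 6 C / log 2) by Mertens
(∑_{q ≤ z} log q / q ≤ log z + C: Stmt_MER in Pool/Agent/Work/MP_3a3367_nt_log/MER.lean). s large: LL ≥ G / 2; and 1 + t ≥ exp (t - t^2 / 2),
∑ 9 / (2 q^2) bounded. -/
def S_LLB : Prop := ∃ s : ℕ, 1 ≤ s ∧ ∃ c : ℝ, 0 < c ∧ ∀ (z D : ℕ) (P : Finset ℕ) (w : ℕ → ℕ),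
  2 ≤ z → z ^ s ≤ D → (∀ q ∈ P, q.Prime ∧ q ≤ z) → (∀ q ∈ P, w q ≤ 3 ∧ w q < q) →
  c * Real.exp (∑ q ∈ P, (w q : ℝ) / q) ≤ LL P w D

/-- ME (20). mertens2 of Pool/Agent/Work/MP_b0c12c_nt_helper41/Mert.lean with u = 2. -/
def S_ME : Prop := ∃ C : ℝ, ∀ z : ℕ, 2 ≤ z →
  Real.log (Real.log z) - C ≤ ∑ q ∈ (Ioc 0 z).filter Nat.Prime, 1 / (q : ℝ)

/-- CL2 (40). As CLS: the residues 1 + i / A and 1 - i / A are different (q odd) and both nonzero (A^2 = -1 is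
excluded). -/
def S_CL2 : Prop := ∀ q : ℕ, q.Prime → q % 4 = 1 → ∀ A : ℕ, ¬ q ∣ A → ¬ q ∣ A ^ 2 + 1 →
  ∃ b b' : ℕ, 0 < b ∧ b < q ∧ 0 < b' ∧ b' < q ∧ b ≠ b' ∧
    ∀ r : ℕ, 1 ≤ r → (r % q = b ∨ r % q = b') → q ∣ (A * (r - 1)) ^ 2 + 1

/-- NR2 (90, uses ALS LLB ME M4 CL2). P = the primes ≤ z, Ω q = {0, b, b'} for the q in Q4 u z dividing neither A nor A^2 + 1, and
{0} for the others; D = z^s, so max(y, D^2) = y. The r in RB are ≤ z or in AV. The sum of w q / q is at least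
log log z - C + 2 (1/2 log (log z / log u) - C - EX). -/
def S_NR2 : Prop := ∃ s : ℕ, 1 ≤ s ∧ ∃ C : ℝ, 0 < C ∧ ∀ A u z y : ℕ, 1 ≤ A → 5 ≤ u → u ≤ z →
  z ^ (2 * s) ≤ y →
  ((RB A u z y).card : ℝ) ≤
    C * (y * Real.log u / Real.log z ^ 2) * Real.exp (2 * EX A u z) + z

/-- EE (30). At most 2 log (A^2 + 1) primes divide A^2 + 1, each 1/q is at most 1/u. -/
def S_EE : Prop := ∀ A u z : ℕ, 1 ≤ A → 2 ≤ u →
  ∑ q ∈ (Q4 u z).filter (fun q => q ∣ A ^ 2 + 1), 1 / (q : ℝ) ≤ 2 * Real.log ((A : ℝ) ^ 2 + 1) / u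

/-- SM2 (90, Rankin for smooth numbers). σ = 1 - 1 / (2 log z) ≥ 3/4; the count is at most x^σ ∏_{p ≤ z} (1 - p^(-σ))⁻¹
(EulerProduct.summable_and_hasSum_smoothNumbers_prod_primesBelow_geometric), p^(-σ) ≤ 1/p + log p / (p log z), Mertens for
∑ 1/p (mertens2) and ∑ log p / p (mertens1). -/
def S_SM2 : Prop := ∃ C : ℝ, 0 < C ∧ ∀ x z : ℕ, 8 ≤ z → 2 ≤ x →
  ((Smo x z).card : ℝ) ≤ C * (x * Real.log z * Real.exp (-(Real.log x / (2 * Real.log z))))

/-- DEC2 (80, uses PHL). As DEC: m = r m' with a prime r > Z dividing m exactly once; either r is in RB or some q in Q4 u z divides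
the prime (c φ(m))^2 + 1, which is then q ≤ z, and m ≤ 2 φ(m)^2 ≤ 2 z. -/
def S_DEC2 : Prop := ∀ c x Z u z : ℕ, 1 ≤ c → 1 ≤ Z →
  (Bad c x).card ≤ (Smo x Z).card + (Sqr x Z).card + 2 * z +
    ∑ m ∈ Ioc 0 (x / Z), (RB (c * m.totient) u z (x / m)).card

/-- SUM2 (100, uses NR2 EE BT HAR). s from NR2. EX ≤ DD + the sum of EE, which is at most 1 since A ≤ x^2 and 10 log x ≤ u.
For the m with DD ≤ 1 use NR2 (exp (2 EX) ≤ exp 4) with y = x / m ≥ z^(2 s); for DD > 1 the number of all primes ≤ x / m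
(BT with d = 1), at most C (x / m) / log z ≤ C (x / m) DD / log z. HAR with d = 1 for ∑ 1/m. -/
def S_SUM2 : Prop := ∃ s : ℕ, 1 ≤ s ∧ ∃ C : ℝ, 0 < C ∧ ∀ c x u z : ℕ, 1 ≤ c → c ≤ x → 5 ≤ u →
  u ≤ z → z ^ (2 * s) ≤ x → 10 * Real.log x ≤ u →
  ∑ m ∈ Ioc 0 (x / z ^ (2 * s)), ((RB (c * m.totient) u z (x / m)).card : ℝ) ≤
    C * (x * Real.log u * (1 + Real.log x) / Real.log z ^ 2) +
    C * (x / Real.log z) * ∑ m ∈ Ioc 0 x, DD c u z m / m + (x : ℝ) / z ^ (2 * s) * z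

/-- FIN2 (120, uses SUM2 SM2 SQR DEC2 DS). u = ceiling of (log x)^2, z = floor of exp (log x / (12 s log log x)), Z = z^(2 s):
log Z ≤ log x / (6 log log x), so SM2 gives at most C x log x (log x)^(-3); DS: the sum of DD / m is at most
C (log log x) / log x; log z ≥ log x / (24 s log log x). -/
def S_FIN2 : Prop := ∃ C : ℝ, 0 < C ∧ ∃ X : ℕ, ∀ x : ℕ, X ≤ x → ∀ c : ℕ, 1 ≤ c →
  (c : ℝ) ≤ Real.log x →
  ((Bad c x).card : ℝ) ≤ C * (x * Real.log (Real.log x) ^ 3 / Real.log x)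

open Classical in
/-- TRF2 (90, uses FIN2 BT), the theorem. n ≤ sqrt x: trivial. Otherwise log n / (log log n)^4 ≤ Y := 16 log x / (log log x)^4,
and n - p is in Bad (p + 1) x for some p ≤ Y (p + 1 ≤ log x), together at most Y C x (log log x)^3 / log x = o(x), or
n - j is prime for some j ≤ Y, at most Y C x / log x (BT with d = 1). -/
def S_TRF2 : Prop := ∀ ε : ℝ, 0 < ε → ∃ X : ℕ, ∀ x : ℕ, X ≤ x →
  (((Ioc 0 x).filter (fun n => ∃ p : ℕ, p.Prime ∧ p < n ∧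
    ((p : ℝ) ≤ Real.log n / Real.log (Real.log n) ^ 4 ∨
      ((n - p : ℕ) : ℝ) ≤ Real.log n / Real.log (Real.log n) ^ 4) ∧
    (((p + 1) * (n - p).totient) ^ 2 + 1).Prime)).card : ℝ) ≤ ε * x

end Pool.LW
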